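import Pool.Agent.W123.PP.NoCon

set_option autoImplicit false

/-!
# From finitely many thresholds to all thresholds
-/

namespace Pool.Agent.W123.PP.Law

open Finset Pool.Agent.W123.PP.NoCon Pool.Agent.W123.PP.Vit

open Classical in
/-- the primes of `(u, v]` with gap at most `x` -/
noncomputable def Sm (u v : ℕ) (x : ℝ) : Finset ℕ :=
  (Ioc u v).filter (fun q => q.Prime ∧ (gp q : ℝ) ≤ x)

lemma mem_Sm (u v : ℕ) (x : ℝ) (q : ℕ) : q ∈ Sm u v x ↔ (u < q ∧ q ≤ v) ∧ q.Prime ∧ (gp q : ℝ) ≤ x := by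
  unfold Sm
  rw [mem_filter, mem_Ioc]

lemma Sm_mono (u v : ℕ) {x y : ℝ} (h : x ≤ y) : Sm u v x ⊆ Sm u v y := by
  intro q hq
  rw [mem_Sm] at hq ⊢
  exact ⟨hq.1, hq.2.1, hq.2.2.trans h⟩

open Classical in
/-- the primes of `(u, v]` with gap more than `x` -/
noncomputable def Bg (u v : ℕ) (x : ℝ) : Finset ℕ :=
  (Ioc u v).filter (fun q => q.Prime ∧ x < (gp q : ℝ))

/-- large gaps are few -/
lemma card_Bg (u v m : ℕ) (x : ℝ) (hm : 1 ≤ m) (hmx : (m : ℝ) ≤ x) :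
    (Bg u v x).card ≤ (v - u) / m + 2 := by
  apply few_sep _ u v m hm
  · intro q hq
    unfold Bg at hq
    rw [mem_filter, mem_Ioc] at hq
    exact hq.1
  · intro q hq q' hq' hqq
    unfold Bg at hq hq'
    rw [mem_filter, mem_Ioc] at hq hq'
    have h1 := gp_le q q' hqq hq'.2.1
    have h2 : (m : ℝ) ≤ gp q := hmx.trans hq.2.2.le
    have h3 : m ≤ gp q := by exact_mod_cast h2
    omega

/-- all thresholds from finitely many -/
theorem all_thresholds (L δ : ℝ) (hL : 0 < L) (hδ : 0 < δ) (p j n N : ℕ) (hn : 1 ≤ n)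
    (hG : ∀ i ≤ N, ∃ κ : ℝ, ∀ u v : ℕ, p ≤ u + 2 ^ j → u ≤ v → v ≤ p + 2 ^ j →
      |((Sm u v (i / n * L)).card : ℝ) - κ * ((v : ℝ) - u) / L| ≤ δ * 2 ^ j / L)
    (hNC : ∀ lam : ℝ, ((NoCon.Con (p - 2 ^ j) (p + 2 ^ j) (lam * L) ((lam + 1 / n) * L)).card : ℝ) ≤
      δ * 2 ^ j / L)
    (hBG : ((Bg (p - 2 ^ j) (p + 2 ^ j) (N / n * L)).card : ℝ) ≤ δ * 2 ^ j / L) (lam : ℝ) :
    ∃ κ : ℝ, ∀ u v : ℕ, p ≤ u + 2 ^ j → u ≤ v → v ≤ p + 2 ^ j →
      |((Sm u v (lam * L)).card : ℝ) - κ * ((v : ℝ) - u) / L| ≤ 2 * (δ * 2 ^ j / L) := by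
  have hnr : (0 : ℝ) < n := by exact_mod_cast hn
  have hB0 : 0 ≤ δ * 2 ^ j / L := by positivity
  rcases lt_or_ge lam 0 with hlam | hlam
  · refine ⟨0, fun u v _ _ _ => ?_⟩
    have h1 : Sm u v (lam * L) = ∅ := by
      rw [Finset.eq_empty_iff_forall_notMem]
      intro q hq
      rw [mem_Sm] at hq
      have h2 : lam * L < 0 := mul_neg_of_neg_of_pos hlam hL
      have h3 : (0 : ℝ) ≤ gp q := Nat.cast_nonneg _
      linarith [hq.2.2]
    rw [h1, card_empty]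
    push_cast
    rw [zero_mul, zero_div, sub_zero, abs_zero]
    positivity
  · obtain ⟨i0, hi0⟩ : ∃ i0 : ℕ, i0 = ⌊n * lam⌋₊ := ⟨_, rfl⟩
    have hf1 : (i0 : ℝ) ≤ n * lam := by rw [hi0]; exact Nat.floor_le (by positivity)
    have hf2 : n * lam < i0 + 1 := by rw [hi0]; exact Nat.lt_floor_add_one _
    obtain ⟨i, hi⟩ : ∃ i : ℕ, i = min i0 N := ⟨_, rfl⟩
    have hiN : i ≤ N := by rw [hi]; exact min_le_right _ _
    have hii0 : (i : ℝ) ≤ i0 := by
      have : i ≤ i0 := by rw [hi]; exact min_le_left _ _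
      exact_mod_cast this
    have hile : (i : ℝ) / n ≤ lam := by
      rw [div_le_iff₀ hnr]
      linarith
    obtain ⟨κ, hκ⟩ := hG i hiN
    refine ⟨κ, fun u v hu huv hv => ?_⟩
    have h1 := hκ u v hu huv hv
    have hsub := Sm_mono u v (mul_le_mul_of_nonneg_right hile hL.le)
    have hcard : (((Sm u v (lam * L)) \ (Sm u v (i / n * L))).card : ℝ) ≤ δ * 2 ^ j / L := by
      rcases Nat.lt_or_ge i0 N with h | h
      · have hii : i = i0 := by rw [hi]; exact min_eq_left h.le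
        refine le_trans ?_ (hNC (i / n))
        have h3 : (Sm u v (lam * L)) \ (Sm u v (i / n * L)) ⊆
            NoCon.Con (p - 2 ^ j) (p + 2 ^ j) (i / n * L) ((i / n + 1 / n) * L) := by
          intro q hq
          rw [mem_sdiff, mem_Sm, mem_Sm] at hq
          obtain ⟨⟨h4, h5, h6⟩, h7⟩ := hq
          rw [mem_Con]
          refine ⟨⟨by omega, by omega⟩, h5, ?_, ?_⟩
          · by_contra h8
            exact h7 ⟨h4, h5, (not_le.1 h8).le⟩
          · refine h6.trans (mul_le_mul_of_nonneg_right ?_ hL.le)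
            rw [← add_div, le_div_iff₀ hnr, hii]
            linarith
        exact_mod_cast card_le_card h3
      · have hii : i = N := by rw [hi]; exact min_eq_right h
        refine le_trans ?_ hBG
        have h3 : (Sm u v (lam * L)) \ (Sm u v (i / n * L)) ⊆
            Bg (p - 2 ^ j) (p + 2 ^ j) (N / n * L) := by
          intro q hq
          rw [mem_sdiff, mem_Sm, mem_Sm] at hq
          obtain ⟨⟨h4, h5, h6⟩, h7⟩ := hq
          unfold Bg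
          rw [mem_filter, mem_Ioc]
          refine ⟨⟨by omega, by omega⟩, h5, ?_⟩
          by_contra h8
          rw [hii] at h7
          exact h7 ⟨h4, h5, not_lt.1 h8⟩
        exact_mod_cast card_le_card h3
    have hadd : ((Sm u v (lam * L)).card : ℝ) = (((Sm u v (lam * L)) \ (Sm u v (i / n * L))).card : ℝ) +
        ((Sm u v (i / n * L)).card : ℝ) := by
      exact_mod_cast (Finset.card_sdiff_add_card_eq_card hsub).symm
    have h0 : (0 : ℝ) ≤ (((Sm u v (lam * L)) \ (Sm u v (i / n * L))).card : ℝ) := Nat.cast_nonneg _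
    rw [abs_le] at h1 ⊢
    constructor
    · linarith [h1.1]
    · linarith [h1.2]

/-- equidistribution from constant density -/
theorem equi (L δ : ℝ) (hL : 0 < L) (p j : ℕ) (hj : 2 ^ j ≤ p) (x : ℝ) (κ : ℝ)
    (h : ∀ u v : ℕ, p ≤ u + 2 ^ j → u ≤ v → v ≤ p + 2 ^ j →
      |((Sm u v x).card : ℝ) - κ * ((v : ℝ) - u) / L| ≤ δ)
    (u v : ℕ) (hu : p ≤ u + 2 ^ j) (huv : u ≤ v) (hv : v ≤ p + 2 ^ j) :
    |((Sm u v x).card : ℝ) - ((v : ℝ) - u) / (2 * 2 ^ j) * ((Sm (p - 2 ^ j) (p + 2 ^ j) x).card : ℝ)| ≤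
      2 * δ := by
  have h1 := h u v hu huv hv
  have h2 := h (p - 2 ^ j) (p + 2 ^ j) (by omega) (by omega) le_rfl
  obtain ⟨c, hc⟩ : ∃ c : ℝ, c = ((v : ℝ) - u) / (2 * 2 ^ j) := ⟨_, rfl⟩
  have hP : (0 : ℝ) < 2 * 2 ^ j := by positivity
  have huv' : (u : ℝ) ≤ v := by exact_mod_cast huv
  have hc0 : 0 ≤ c := by rw [hc]; exact div_nonneg (by linarith) hP.le
  have hc1 : c ≤ 1 := by
    rw [hc, div_le_one hP]
    have h3 : v ≤ u + 2 * 2 ^ j := by omega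
    have h4 : (v : ℝ) ≤ u + 2 * 2 ^ j := by exact_mod_cast h3
    linarith
  have e1 : ((p + 2 ^ j : ℕ) : ℝ) - ((p - 2 ^ j : ℕ) : ℝ) = 2 * 2 ^ j := by
    rw [Nat.cast_sub hj]
    push_cast
    ring
  have e2 : c * (κ * (((p + 2 ^ j : ℕ) : ℝ) - ((p - 2 ^ j : ℕ) : ℝ)) / L) = κ * ((v : ℝ) - u) / L := by
    rw [e1, hc]
    field_simp
  rw [← hc]
  obtain ⟨W, hW⟩ : ∃ W : ℝ, W = ((Sm (p - 2 ^ j) (p + 2 ^ j) x).card : ℝ) := ⟨_, rfl⟩
  rw [← hW] at h2 ⊢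
  have h5 : |c * (W - κ * (((p + 2 ^ j : ℕ) : ℝ) - ((p - 2 ^ j : ℕ) : ℝ)) / L)| ≤ δ := by
    rw [abs_mul, abs_of_nonneg hc0]
    calc c * _ ≤ 1 * |W - κ * (((p + 2 ^ j : ℕ) : ℝ) - ((p - 2 ^ j : ℕ) : ℝ)) / L| :=
          mul_le_mul_of_nonneg_right hc1 (abs_nonneg _)
      _ ≤ δ := by rw [one_mul]; exact h2
  have e3 : c * (W - κ * (((p + 2 ^ j : ℕ) : ℝ) - ((p - 2 ^ j : ℕ) : ℝ)) / L) =
      c * W - κ * ((v : ℝ) - u) / L := by rw [← e2]; ring
  rw [e3] at h5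
  have e4 : ((Sm u v x).card : ℝ) - c * W = (((Sm u v x).card : ℝ) - κ * ((v : ℝ) - u) / L) -
    (c * W - κ * ((v : ℝ) - u) / L) := by ring
  rw [e4]
  refine (abs_sub _ _).trans ?_
  linarith

end Pool.Agent.W123.PP.Law
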