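import Pool.Agent.W123.PP.Win

set_option autoImplicit false

/-!
# Local form of the windows around the points of a set
-/

namespace Pool.Agent.W123.PP

open Finset Filter Pool.Agent.W123.RP Pool.Agent.W123.GS

lemma few_scales (S : Finset ℕ) (L : ℝ) (s0 : ℕ)
    (h : ∀ j ∈ S, L ≤ (2 : ℝ) ^ j ∧ (2 : ℝ) ^ j < 2 ^ s0 * L) : S.card ≤ s0 := by
  rcases S.eq_empty_or_nonempty with h0 | h0
  · rw [h0]; simp
  · have hsub : S ⊆ Ico (S.min' h0) (S.min' h0 + s0) := by
      intro j hj
      rw [mem_Ico]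
      refine ⟨S.min'_le j hj, ?_⟩
      by_contra hcon
      rw [not_lt] at hcon
      have h1 := (h _ (S.min'_mem h0)).1
      have h2 := (h j hj).2
      have h3 : (2 : ℝ) ^ (S.min' h0 + s0) ≤ 2 ^ j := pow_le_pow_right₀ (by norm_num) hcon
      rw [pow_add] at h3
      have h4 : (0 : ℝ) < 2 ^ s0 := by positivity
      nlinarith
    have := card_le_card hsub
    rw [Nat.card_Ico] at this
    omega

open Classical in
/-- local form: windows around an index -/
theorem local_good (P : ℕ → Prop) (n X : ℕ) (L c0 Lam c δ : ℝ) (K s0 : ℕ)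
    (hL2 : 2 ≤ L) (hLX : L ≤ X) (hXn : X ≤ n) (hc0 : 0 < c0) (hc01 : c0 ≤ 1) (hLam : 0 < Lam)
    (hc : 0 < c) (hc4 : c ≤ c0 / 4) (hcL : c ≤ 1 / (3 * Lam)) (hδ : 0 < δ)
    (hs0 : 2 / c0 ≤ (2 : ℝ) ^ s0)
    (W1 : ∀ H : ℕ, 1 ≤ H → H ≤ X →
          c0 / L * H ≤ cl P n (n + H) ∧ c0 / L * H ≤ cl P (n + 1 - H) (n + 1))
    (W2 : ∀ H : ℕ, ⌊L⌋₊ ≤ H → H ≤ X →
          (co P n (n + H) : ℝ) ≤ Lam / L * H ∧ (co P (n - H) n : ℝ) ≤ Lam / L * H)
    (W3 : ((range (Nat.log 2 X + 1)).filter (fun j => L ≤ (2 : ℝ) ^ j ∧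
          ¬ Good P 0 Lam (min δ (c0 / 4)) L n j)).card ≤ K) :
    (∀ s t : ℕ, s ≤ X → t ≤ X → L ≤ c * (s + t) →
      c * (s + t) / L ≤ (co P (n - s) (n + t) : ℝ) ∧ (co P (n - s) (n + t) : ℝ) ≤ (s + t) / (c * L)) ∧
    ((Finset.range (Nat.log 2 X + 1)).filter (fun j => L ≤ (2 : ℝ) ^ j ∧
      ¬ (∃ lam : ℝ, c ≤ lam ∧ lam ≤ 1 / c ∧ ∀ s t : ℕ, s ≤ 2 ^ j → t ≤ 2 ^ j →
    |(co P (n - s) (n + t) : ℝ) - lam * (s + t) / L| ≤ δ * 2 ^ j / L))).card ≤ K + s0 := by
  have hL0 : 0 < L := by linarith
  have hX0 : (0 : ℝ) < X := by linarith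
  have hXn0 : 0 < X := by exact_mod_cast hX0
  have hT1 : (⌊L⌋₊ : ℝ) ≤ L := Nat.floor_le hL0.le
  have hTX : ⌊L⌋₊ ≤ X := by
    have : (⌊L⌋₊ : ℝ) ≤ X := by linarith
    exact_mod_cast this
  have hc1 : c ≤ 1 := by linarith
  have hinvL : Lam ≤ 1 / c := by
    rw [le_div_iff₀ hc]
    rw [le_div_iff₀ (by positivity)] at hcL
    nlinarith
  -- from `[n, n + t)` to `(n, n + t]`
  have hright : ∀ t : ℕ, 1 ≤ t → t ≤ X → c0 / L * t - 1 ≤ (co P n (n + t) : ℝ) := by
    intro t ht htX
    have h1 := (W1 t ht htX).1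
    have h2 : cl P n (n + t) ≤ co P n (n + t) + 1 := by
      have e1 : cl P n (n + 1) + cl P (n + 1) (n + t) = cl P n (n + t) :=
        cl_add (by omega) (by omega)
      have e2 : cl P (n + 1) (n + t) ≤ cl P (n + 1) (n + t + 1) := cl_mono (by omega)
      have e3 : cl P (n + 1) (n + t + 1) = co P n (n + t) := cl_succ _ _
      have e4 : cl P n (n + 1) ≤ 1 := by
        have := cl_le_len (P := P) n (n + 1)
        omega
      omega
    have h3 : (cl P n (n + t) : ℝ) ≤ co P n (n + t) + 1 := by exact_mod_cast h2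
    linarith
  have hleft : ∀ s : ℕ, 1 ≤ s → s ≤ X → c0 / L * s ≤ (co P (n - s) n : ℝ) := by
    intro s hs hsX
    have h1 := (W1 s hs hsX).2
    have e : n + 1 - s = (n - s) + 1 := by omega
    rw [e, cl_succ] at h1
    exact h1
  have hsplit : ∀ s t : ℕ, (co P (n - s) (n + t) : ℝ) =
      co P (n - s) n + co P n (n + t) := by
    intro s t
    have := co_add (P := P) (a := n - s) (b := n) (c := n + t) (by omega) (by omega)
    exact_mod_cast this.symm
  constructor
  · intro s t hs ht hst
    rw [hsplit]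
    have hco1 : (0 : ℝ) ≤ co P (n - s) n := Nat.cast_nonneg _
    have hco2 : (0 : ℝ) ≤ co P n (n + t) := Nat.cast_nonneg _
    have hs0' : (0 : ℝ) ≤ s := Nat.cast_nonneg _
    have ht0' : (0 : ℝ) ≤ t := Nat.cast_nonneg _
    have hstL : 4 * L / c0 ≤ s + t := by
      rw [div_le_iff₀ hc0]
      have : c * ((s : ℝ) + t) ≤ c0 / 4 * (s + t) := by gcongr
      linarith
    constructor
    · rcases le_total s t with h | h
      · have hr : (s : ℝ) ≤ t := by exact_mod_cast h
        have htpos : 1 ≤ t := by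
          have : (0 : ℝ) < t := by
            have : 0 < 4 * L / c0 := by positivity
            linarith
          exact_mod_cast this
        have h1 := hright t htpos ht
        have h2 : 2 * L / c0 ≤ t := by
          have : 4 * L / c0 = 2 * (2 * L / c0) := by ring
          linarith
        have h3 : 1 ≤ c0 / (2 * L) * t := by
          calc (1 : ℝ) = c0 / (2 * L) * (2 * L / c0) := by field_simp
            _ ≤ c0 / (2 * L) * t := by gcongr
        have h4 : c0 / L * t = c0 / (2 * L) * t + c0 / (2 * L) * t := by field_simp; norm_num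
        have h5 : c * (s + t) / L ≤ c0 / (2 * L) * t := by
          calc c * (s + t) / L ≤ c0 / 4 * (t + t) / L := by gcongr
            _ = c0 / (2 * L) * t := by field_simp; ring
        linarith
      · have hr : (t : ℝ) ≤ s := by exact_mod_cast h
        have hspos : 1 ≤ s := by
          have : (0 : ℝ) < s := by
            have : 0 < 4 * L / c0 := by positivity
            linarith
          exact_mod_cast this
        have h1 := hleft s hspos hs
        have h5 : c * (s + t) / L ≤ c0 / L * s := by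
          calc c * (s + t) / L ≤ c0 / 4 * (s + s) / L := by gcongr
            _ = c0 / L * s / 2 := by field_simp; ring
            _ ≤ c0 / L * s := by
              have : 0 ≤ c0 / L * s := by positivity
              linarith
        linarith
    · have h1 : (co P n (n + t) : ℝ) ≤ Lam / L * (t + L) := by
        rcases le_total ⌊L⌋₊ t with h | h
        · refine (W2 t h ht).1.trans ?_
          gcongr
          linarith
        · have h2 : (co P n (n + t) : ℝ) ≤ co P n (n + ⌊L⌋₊) := by
            exact_mod_cast co_mono (by omega)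
          refine h2.trans ((W2 _ le_rfl hTX).1.trans ?_)
          gcongr
          linarith
      have h2 : (co P (n - s) n : ℝ) ≤ Lam / L * (s + L) := by
        rcases le_total ⌊L⌋₊ s with h | h
        · refine (W2 s h hs).2.trans ?_
          gcongr
          linarith
        · have h2 : (co P (n - s) n : ℝ) ≤ co P (n - ⌊L⌋₊) n := by
            exact_mod_cast co_anti (by omega)
          refine h2.trans ((W2 _ le_rfl hTX).2.trans ?_)
          gcongr
          linarith
      have h3 : L ≤ s + t := by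
        have : c * ((s : ℝ) + t) ≤ 1 * (s + t) := by gcongr
        linarith
      have h4 : Lam / L * (s + L) + Lam / L * (t + L) ≤ 3 * Lam * (s + t) / L := by
        have : Lam / L * (s + L) + Lam / L * (t + L) = Lam * (s + t + 2 * L) / L := by ring
        rw [this]
        calc Lam * (s + t + 2 * L) / L ≤ Lam * (3 * (s + t)) / L := by gcongr; linarith
          _ = 3 * Lam * (s + t) / L := by ring
      have h5 : 3 * Lam * (s + t) / L ≤ (s + t) / (c * L) := by
        rw [div_le_div_iff₀ hL0 (by positivity)]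
        rw [le_div_iff₀ (by positivity)] at hcL
        have h6 : 0 ≤ ((s : ℝ) + t) * L := by positivity
        calc 3 * Lam * (s + t) * (c * L) = (c * (3 * Lam)) * ((s + t) * L) := by ring
          _ ≤ 1 * ((s + t) * L) := by gcongr
          _ = (s + t) * L := one_mul _
      linarith
  · have hsub : (Finset.range (Nat.log 2 X + 1)).filter (fun j => L ≤ (2 : ℝ) ^ j ∧
      ¬ (∃ lam : ℝ, c ≤ lam ∧ lam ≤ 1 / c ∧ ∀ s t : ℕ, s ≤ 2 ^ j → t ≤ 2 ^ j →
        |(co P (n - s) (n + t) : ℝ) - lam * (s + t) / L| ≤ δ * 2 ^ j / L)) ⊆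
      ((range (Nat.log 2 X + 1)).filter (fun j => L ≤ (2 : ℝ) ^ j ∧
          ¬ Good P 0 Lam (min δ (c0 / 4)) L n j)) ∪
      ((range (Nat.log 2 X + 1)).filter (fun j => L ≤ (2 : ℝ) ^ j ∧ (2 : ℝ) ^ j < 2 ^ s0 * L)) := by
      intro j hj
      rw [mem_filter] at hj
      obtain ⟨hj1, hj2, hj3⟩ := hj
      rw [mem_union, mem_filter, mem_filter]
      by_contra hcon
      rw [not_or] at hcon
      obtain ⟨n1, n2⟩ := hcon
      have hbig : 2 ^ s0 * L ≤ (2 : ℝ) ^ j := by
        by_contra h
        rw [not_le] at h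
        exact n2 ⟨hj1, hj2, h⟩
      have hgood : Good P 0 Lam (min δ (c0 / 4)) L n j := by
        by_contra h
        exact n1 ⟨hj1, hj2, h⟩
      have hjX : 2 ^ j ≤ X := by
        rw [mem_range] at hj1
        have h4 : 2 ^ j ≤ 2 ^ (Nat.log 2 X) := Nat.pow_le_pow_right (by norm_num) (by omega)
        exact h4.trans (Nat.pow_log_le_self 2 (by omega))
      obtain ⟨θ, hθ1, hθ2, hθ⟩ := hgood
      apply hj3
      refine ⟨θ, ?_, hθ2.trans hinvL, ?_⟩
      · have h1 := hright (2 ^ j) Nat.one_le_two_pow hjX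
        have hj0 : 0 < 2 ^ j := by positivity
        have h2 := (abs_le.1 (hθ n (n + 2 ^ j) (by omega) (by omega) le_rfl)).2
        have e1 : ((n + 2 ^ j : ℕ) : ℝ) - (n : ℝ) = 2 ^ j := by push_cast; ring
        rw [e1] at h2
        have e2 : (((2 ^ j : ℕ) : ℕ) : ℝ) = 2 ^ j := by push_cast; rfl
        rw [e2] at h1
        obtain ⟨D, hD⟩ : ∃ D : ℝ, D = 2 ^ j := ⟨_, rfl⟩
        rw [← hD] at h1 h2 hbig
        have hDpos : 0 < D := by rw [hD]; positivity
        have hLD : L ≤ c0 / 2 * D := by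
          have h5 : 2 / c0 * L ≤ D := le_trans (by gcongr) hbig
          calc L = c0 / 2 * (2 / c0 * L) := by field_simp
            _ ≤ c0 / 2 * D := by gcongr
        have h6 : c0 * D ≤ θ * D + min δ (c0 / 4) * D + L := by
          have h7 : c0 / L * D ≤ θ * D / L + min δ (c0 / 4) * D / L + 1 := by linarith
          have h8 := mul_le_mul_of_nonneg_right h7 hL0.le
          have e6 : c0 / L * D * L = c0 * D := by field_simp
          have e7 : (θ * D / L + min δ (c0 / 4) * D / L + 1) * L =
              θ * D + min δ (c0 / 4) * D + L := by field_simp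
          rw [e6, e7] at h8
          exact h8
        have h8 : c0 * D ≤ (θ + c0 / 4 + c0 / 2) * D := by
          have : min δ (c0 / 4) * D ≤ c0 / 4 * D := by gcongr; exact min_le_right _ _
          nlinarith
        have h9 := le_of_mul_le_mul_right h8 hDpos
        linarith
      · intro s t hs ht
        have h1 := hθ (n - s) (n + t) (by omega) (by omega) (by omega)
        have e1 : ((n + t : ℕ) : ℝ) - ((n - s : ℕ) : ℝ) = s + t := by
          rw [Nat.cast_sub (by omega)]; push_cast; ring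
        rw [e1] at h1
        refine h1.trans ?_
        gcongr
        exact min_le_left _ _
    have h1 := (card_le_card hsub).trans (card_union_le _ _)
    have h2 := few_scales ((range (Nat.log 2 X + 1)).filter (fun j => L ≤ (2 : ℝ) ^ j ∧
      (2 : ℝ) ^ j < 2 ^ s0 * L)) L s0 (fun j hj => (mem_filter.1 hj).2)
    omega


end Pool.Agent.W123.PP
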