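import Pool.Agent.W123.PP.Sieve
import Pool.Agent.W123.RP.Mert
import Pool.Agent.H336R2.V.TotLog

set_option autoImplicit false

/-!
# Primes in the residue classes of one modulus: moments of the prime counts in windows
-/

namespace Pool.Agent.W123.PP.AP

open Finset Filter Pool.Agent.H373R2.T7 Pool.Agent.W123.RP Pool.Agent.W123.RU

def Q (q a p m : ℕ) : Prop := ¬ p ∣ q ∧ p ∣ a + m * q

def Co (p h : ℕ) : Prop := p ∣ h

lemma perQ (q a p n : ℕ) : Q q a p n ↔ Q q a p (n % p) := by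
  unfold Q
  have e : a + n * q = (a + n % p * q) + p * (n / p * q) := by
    conv_lhs => rw [← Nat.mod_add_div n p]
    ring
  rw [e]
  constructor
  · rintro ⟨h1, h2⟩
    exact ⟨h1, (Nat.dvd_add_left (dvd_mul_right _ _)).1 h2⟩
  · rintro ⟨h1, h2⟩
    exact ⟨h1, (Nat.dvd_add_left (dvd_mul_right _ _)).2 h2⟩

open Classical in
lemma nu_le (q a p : ℕ) (hp : p.Prime) : nuB (Q q a) p ≤ 1 := by
  unfold nuB
  rw [Finset.card_le_one]
  intro r hr s hs
  rw [mem_filter, mem_range] at hr hs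
  obtain ⟨hr1, hr2, hr3⟩ := hr
  obtain ⟨hs1, hs2, hs3⟩ := hs
  have h1 : (p : ℤ) ∣ ((r : ℤ) - s) * q := by
    have h2 : (p : ℤ) ∣ ((a + r * q : ℕ) : ℤ) := by exact_mod_cast hr3
    have h3 : (p : ℤ) ∣ ((a + s * q : ℕ) : ℤ) := by exact_mod_cast hs3
    have h4 := dvd_sub h2 h3
    have e : ((a + r * q : ℕ) : ℤ) - ((a + s * q : ℕ) : ℤ) = ((r : ℤ) - s) * q := by push_cast; ring
    rwa [e] at h4
  have hpi : Prime (p : ℤ) := Nat.prime_iff_prime_int.1 hp
  rcases hpi.dvd_or_dvd h1 with h2 | h2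
  · obtain ⟨k, hk⟩ := h2
    have : k = 0 := by
      by_contra hk0
      have h5 : (p : ℤ) ≤ |(r : ℤ) - s| := by
        rw [hk, abs_mul]
        have : 1 ≤ |k| := Int.one_le_abs hk0
        have hp' : |(p : ℤ)| = p := abs_of_nonneg (by positivity)
        rw [hp']
        nlinarith [(Nat.cast_nonneg p : (0 : ℤ) ≤ p)]
      rw [le_abs] at h5
      omega
    rw [this] at hk
    omega
  · exact absurd (by exact_mod_cast h2) hr2

open Classical in
lemma one_le_nu (q a p : ℕ) (hp : p.Prime) (hq : ¬ p ∣ q) : 1 ≤ nuB (Q q a) p := by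
  unfold nuB
  rw [Nat.one_le_iff_ne_zero, Ne, Finset.card_eq_zero, ← Ne, ← Finset.nonempty_iff_ne_empty]
  have := Fact.mk hp
  have hq0 : ((q : ℕ) : ZMod p) ≠ 0 := by
    rw [Ne, ZMod.natCast_eq_zero_iff]
    exact hq
  refine ⟨(-(a : ZMod p) / q).val, ?_⟩
  rw [mem_filter, mem_range]
  refine ⟨ZMod.val_lt _, hq, ?_⟩
  rw [← ZMod.natCast_eq_zero_iff]
  push_cast
  rw [ZMod.natCast_zmod_val]
  field_simp
  ring

lemma coll : Coll Co 2 1 := by
  classical
  constructor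
  · intro p n
    unfold Co
    exact (Nat.dvd_mod_iff (dvd_refl p)).symm
  · intro p hp _
    rw [Finset.card_le_one]
    intro r hr s hs
    rw [mem_filter, mem_range] at hr hs
    unfold Co at hr hs
    rw [Nat.eq_zero_of_dvd_of_lt hr.2 hr.1, Nat.eq_zero_of_dvd_of_lt hs.2 hs.1]

lemma sdata (q a : ℕ) : Sdata (Q q a) Co 1 2 1 := by
  refine ⟨⟨fun p n => perQ q a p n, fun p hp => nu_le q a p hp⟩, ?_, by norm_num, ?_, coll⟩
  · intro p hp
    exact lt_of_le_of_lt (nu_le q a p hp) hp.one_lt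
  · intro p hp _ h m h1 h2
    unfold Q at h1 h2
    have h3 : p ∣ h * q := by
      have e : a + (m + h) * q = (a + m * q) + h * q := by ring
      rw [e] at h2
      exact (Nat.dvd_add_right h1.2).1 h2.2
    rcases (Nat.Prime.dvd_mul hp).1 h3 with h4 | h4
    · exact h4
    · exact absurd h4 h1.1

open Classical in
lemma V_le (q a y : ℕ) (hq : 0 < q) : Vq (Q q a) y ≤ Vz y * ((q : ℝ) / Nat.totient q) := by
  have h1 : Vq (Q q a) y ≤ ∏ p ∈ pz y, ((1 - 1 / (p : ℝ)) *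
      (if p ∣ q then (1 - 1 / (p : ℝ))⁻¹ else 1)) := by
    unfold Vq
    apply Finset.prod_le_prod
    · intro p hp
      exact one_sub_nonneg _ p (mem_pz.1 hp).2
    · intro p hp
      have hpp := (mem_pz.1 hp).2
      have hp2 : (2 : ℝ) ≤ p := by exact_mod_cast hpp.two_le
      have hpos : (0 : ℝ) < 1 - 1 / (p : ℝ) := by
        rw [sub_pos, div_lt_one (by linarith)]; linarith
      split_ifs with h
      · rw [mul_inv_cancel₀ hpos.ne']
        have : (0 : ℝ) ≤ (nuB (Q q a) p : ℝ) / p := by positivity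
        linarith
      · rw [mul_one]
        have h2 : (1 : ℝ) ≤ nuB (Q q a) p := by exact_mod_cast one_le_nu q a p hpp h
        have : 1 / (p : ℝ) ≤ (nuB (Q q a) p : ℝ) / p := by gcongr
        linarith
  refine h1.trans ?_
  rw [Finset.prod_mul_distrib]
  have hVz : 0 ≤ ∏ p ∈ pz y, (1 - 1 / (p : ℝ)) := by
    apply Finset.prod_nonneg
    intro p hp
    have hp2 : (2 : ℝ) ≤ p := by exact_mod_cast (mem_pz.1 hp).2.two_le
    rw [sub_nonneg, div_le_one (by linarith)]; linarith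
  unfold Vz
  apply mul_le_mul_of_nonneg_left _ hVz
  rw [← Finset.prod_filter]
  have hqr : (0 : ℝ) < q := by exact_mod_cast hq
  have htot : ((Nat.totient q : ℕ) : ℝ) = q * ∏ p ∈ q.primeFactors, (1 - (p : ℝ)⁻¹) := by
    have := Nat.totient_eq_mul_prod_factors q
    have h2 : (((Nat.totient q : ℕ) : ℚ) : ℝ) = ((q * ∏ p ∈ q.primeFactors, (1 - (p : ℚ)⁻¹) : ℚ) : ℝ) := by
      rw [this]
    push_cast at h2
    exact h2
  have hfac : ∀ p ∈ q.primeFactors, (0 : ℝ) < 1 - (p : ℝ)⁻¹ := by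
    intro p hp
    have hp2 : (2 : ℝ) ≤ p := by exact_mod_cast (Nat.prime_of_mem_primeFactors hp).two_le
    rw [sub_pos]
    exact inv_lt_one_of_one_lt₀ (by linarith)
  have hprod : 0 < ∏ p ∈ q.primeFactors, (1 - (p : ℝ)⁻¹) := Finset.prod_pos hfac
  have e : (q : ℝ) / Nat.totient q = ∏ p ∈ q.primeFactors, (1 - (p : ℝ)⁻¹)⁻¹ := by
    rw [htot, Finset.prod_inv_distrib]
    field_simp
  rw [e]
  simp only [one_div]
  apply Finset.prod_le_prod_of_subset_of_one_le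
  · intro p hp
    rw [mem_filter, mem_pz] at hp
    rw [Nat.mem_primeFactors]
    exact ⟨hp.1.2, hp.2, by omega⟩
  · intro p hp
    have hp2 : (2 : ℝ) ≤ p := by
      rw [mem_filter, mem_pz] at hp
      exact_mod_cast hp.1.2.two_le
    have : (0 : ℝ) < 1 - (p : ℝ)⁻¹ := by
      rw [sub_pos]; exact inv_lt_one_of_one_lt₀ (by linarith)
    positivity
  · intro p hp _
    have h3 := hfac p hp
    rw [one_le_inv₀ h3]
    have : (0 : ℝ) ≤ (p : ℝ)⁻¹ := by positivity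
    linarith

/-- `φ(q) / q · log x` is large -/
lemma L_large (B : ℝ) : ∀ᶠ x : ℕ in atTop, ∀ q : ℕ, 1 ≤ q → q ≤ x →
    B ≤ (Nat.totient q : ℝ) / q * Real.log x := by
  obtain ⟨k0, hk0⟩ := H336V.totient_log B
  have hlogX : Tendsto (fun X : ℕ => Real.log (X : ℝ)) atTop atTop :=
    Real.tendsto_log_atTop.comp tendsto_natCast_atTop_atTop
  filter_upwards [hlogX.eventually_ge_atTop (|B| * (|k0| + 1)), eventually_ge_atTop 1] with x hx hx1
  intro q hq hqx
  have hqr : (1 : ℝ) ≤ q := by exact_mod_cast hq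
  have hq0 : (0 : ℝ) < q := by linarith
  have hqxr : (q : ℝ) ≤ x := by exact_mod_cast hqx
  have htot : (1 : ℝ) ≤ Nat.totient q := by exact_mod_cast Nat.totient_pos.2 (by omega)
  rcases le_or_gt k0 q with h | h
  · refine (hk0 q h).trans ?_
    have : Real.log (q : ℝ) ≤ Real.log x := Real.log_le_log hq0 hqxr
    gcongr
  · have h1 : (q : ℝ) ≤ |k0| + 1 := by
      have := le_abs_self k0
      linarith
    have h2 : 1 / (|k0| + 1) ≤ (Nat.totient q : ℝ) / q := by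
      rw [div_le_div_iff₀ (by positivity) hq0]
      nlinarith
    calc B ≤ |B| := le_abs_self B
      _ = 1 / (|k0| + 1) * (|B| * (|k0| + 1)) := by field_simp
      _ ≤ (Nat.totient q : ℝ) / q * Real.log x := by gcongr

/-- the number of elements with `a + m q` prime -/
def PQ (q a m : ℕ) : Prop := (a + m * q).Prime

open Classical in
/-- moments of the prime counts in windows, for every residue class of every modulus
`q ≤ x ^ (1 - θ)` -/
theorem data (θ : ℝ) (h0 : 0 < θ) (h1 : θ < 1) : ∃ C1 C2 : ℝ, 0 < C1 ∧ 0 < C2 ∧ ∀ B0 : ℝ, 0 < B0 →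
    ∀ᶠ x : ℕ in atTop, ∀ q a : ℕ, 1 ≤ q → (q : ℝ) ≤ (x : ℝ) ^ (1 - θ) → a.Coprime q →
      ∀ L : ℝ, L = (Nat.totient q : ℝ) / q * Real.log x →
      2 ≤ L ∧ B0 * L ^ 2 ≤ ((x / q : ℕ) : ℝ) ∧
      (co (PQ q a) 0 (4 * (x / q)) : ℝ) ≤ C1 * ((x / q : ℕ) : ℝ) / L ∧
      ∑ n ∈ Finset.Ico (x / q) (2 * (x / q) + 1), ((co (PQ q a) n (n + ⌊L⌋₊) : ℝ)) ^ 2 ≤
        C2 * ((x / q : ℕ) : ℝ) := by
  obtain ⟨K0, hK0, hsieve⟩ := sieve_input 1 2 1 le_rfl
  obtain ⟨cv, Cv, hcv, hCv, hVz⟩ := Vz_bounds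
  have hrr : (2 : ℝ) ≤ K0 := by exact_mod_cast hK0
  have hrpos : (0 : ℝ) < K0 := by linarith
  obtain ⟨C1, C2, hC1, hC2, hsieve⟩ := hsieve K0 le_rfl (Cv * (4 * K0 / θ)) (by positivity)
  refine ⟨C1, C2, hC1, hC2, ?_⟩
  intro B0 hB0
  obtain ⟨L0, hsieve⟩ := hsieve B0 hB0
  obtain ⟨N0, hN0⟩ := eventually_atTop.1 hsieve
  have hXr : Tendsto (fun X : ℕ => (X : ℝ)) atTop atTop := tendsto_natCast_atTop_atTop
  have hlogX : Tendsto (fun X : ℕ => Real.log (X : ℝ)) atTop atTop :=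
    Real.tendsto_log_atTop.comp hXr
  have hpow : Tendsto (fun X : ℕ => (X : ℝ) ^ (θ / 2)) atTop atTop :=
    (tendsto_rpow_atTop (by positivity)).comp hXr
  have hpow2 : Tendsto (fun X : ℕ => (X : ℝ) ^ (θ / (4 * K0))) atTop atTop :=
    (tendsto_rpow_atTop (by positivity)).comp hXr
  have hpl : ∀ᶠ X : ℕ in atTop, Real.log X ^ 8 ≤ (X : ℝ) ^ (θ / 2) := by
    have h := ((isLittleO_log_rpow_rpow_atTop 8 (by positivity : 0 < θ / 2)).comp_tendsto hXr).bound
      one_pos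
    filter_upwards [h, eventually_ge_atTop 1] with X hX hX1
    have hX1' : (1 : ℝ) ≤ X := by exact_mod_cast hX1
    have hl := Real.log_nonneg hX1'
    simp only [Function.comp_def] at hX
    rw [Real.norm_of_nonneg (by positivity), Real.norm_of_nonneg (by positivity), one_mul] at hX
    have e : Real.log (X : ℝ) ^ (8 : ℝ) = Real.log (X : ℝ) ^ 8 := by
      rw [← Real.rpow_natCast]; norm_num
    rw [e] at hX
    exact hX
  filter_upwards [eventually_ge_atTop 3, hlogX.eventually_ge_atTop 2, hpl, L_large (max L0 2),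
    hpow.eventually_ge_atTop ((N0 : ℝ) + 3), hpow2.eventually_ge_atTop 4] with x hx3 hL2 hpl hLL hbig hbig2
  intro q a hq1 hqx hcop L hL
  have hx3r : (3 : ℝ) ≤ x := by exact_mod_cast hx3
  have hx0 : (0 : ℝ) < x := by linarith
  have hq0 : (0 : ℝ) < q := by exact_mod_cast hq1
  have hqx' : (q : ℝ) ≤ x := by
    refine hqx.trans ?_
    calc (x : ℝ) ^ (1 - θ) ≤ (x : ℝ) ^ (1 : ℝ) :=
          Real.rpow_le_rpow_of_exponent_le (by linarith) (by linarith)
      _ = x := Real.rpow_one _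
  have hqxn : q ≤ x := by exact_mod_cast hqx'
  obtain ⟨X, hX⟩ : ∃ X : ℕ, X = x / q := ⟨_, rfl⟩
  rw [← hX]
  have hXlow : (x : ℝ) ^ (θ / 2) ≤ X := by
    have h2 : (x : ℝ) / q < X + 1 := by
      rw [hX]
      have := Nat.lt_floor_add_one ((x : ℝ) / q)
      rwa [Nat.floor_div_eq_div] at this
    have h3 : (x : ℝ) ^ θ ≤ (x : ℝ) / q := by
      rw [le_div_iff₀ hq0]
      calc (x : ℝ) ^ θ * q ≤ (x : ℝ) ^ θ * (x : ℝ) ^ (1 - θ) := by gcongr
        _ = x := by rw [← Real.rpow_add hx0]; norm_num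
    have h4 : (x : ℝ) ^ θ = (x : ℝ) ^ (θ / 2) * (x : ℝ) ^ (θ / 2) := by
      rw [← Real.rpow_add hx0]; congr 1; ring
    have h5 : (3 : ℝ) ≤ (x : ℝ) ^ (θ / 2) := by
      have : (0 : ℝ) ≤ N0 := Nat.cast_nonneg _
      linarith
    nlinarith
  have hXN0 : N0 ≤ X := by
    have : (N0 : ℝ) ≤ X := by linarith
    exact_mod_cast this
  have hXpos : (0 : ℝ) < X := by
    have : (0 : ℝ) < (x : ℝ) ^ (θ / 2) := by positivity
    linarith
  have htot0 : (0 : ℝ) < Nat.totient q := by exact_mod_cast Nat.totient_pos.2 (by omega)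
  have htotq : (Nat.totient q : ℝ) ≤ q := by exact_mod_cast Nat.totient_le q
  have hLmax : max L0 2 ≤ L := by rw [hL]; exact hLL q hq1 hqxn
  have hL0 : 0 < L := by
    have := (le_max_right L0 2).trans hLmax
    linarith
  have hLlog : L ≤ Real.log x := by
    rw [hL]
    have : (Nat.totient q : ℝ) / q ≤ 1 := by rw [div_le_one hq0]; exact htotq
    nlinarith
  have hL8 : L ^ 8 ≤ X := by
    refine le_trans ?_ (hpl.trans hXlow)
    exact pow_le_pow_left₀ hL0.le hLlog 8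
  -- the sieving level
  obtain ⟨y, hy⟩ : ∃ y : ℕ, y = ⌊(X : ℝ) ^ (1 / (K0 : ℝ))⌋₊ := ⟨_, rfl⟩
  have hylow : (x : ℝ) ^ (θ / (4 * K0)) ≤ y := by
    have h2 := Nat.lt_floor_add_one ((X : ℝ) ^ (1 / (K0 : ℝ)))
    rw [← hy] at h2
    have h3 : (x : ℝ) ^ (θ / (2 * K0)) ≤ (X : ℝ) ^ (1 / (K0 : ℝ)) := by
      calc (x : ℝ) ^ (θ / (2 * K0)) = ((x : ℝ) ^ (θ / 2)) ^ (1 / (K0 : ℝ)) := by
            rw [← Real.rpow_mul hx0.le]; congr 1; field_simp
        _ ≤ (X : ℝ) ^ (1 / (K0 : ℝ)) := Real.rpow_le_rpow (by positivity) hXlow (by positivity)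
    have h4 : (x : ℝ) ^ (θ / (2 * K0)) = (x : ℝ) ^ (θ / (4 * K0)) * (x : ℝ) ^ (θ / (4 * K0)) := by
      rw [← Real.rpow_add hx0]; congr 1; field_simp; norm_num
    nlinarith
  have hy2 : 2 ≤ y := by
    have : (2 : ℝ) ≤ y := by linarith
    exact_mod_cast this
  have hlogy : θ / (4 * K0) * Real.log x ≤ Real.log y := by
    rw [← Real.log_rpow hx0]
    exact Real.log_le_log (by positivity) hylow
  have hlogx0 : 0 < Real.log x := by linarith
  have hV : Vq (Q q a) ⌊(X : ℝ) ^ (1 / (K0 : ℝ))⌋₊ ≤ Cv * (4 * K0 / θ) / L := by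
    rw [← hy]
    refine (V_le q a y (by omega)).trans ?_
    have h2 := (hVz y hy2).2
    calc Vz y * ((q : ℝ) / Nat.totient q) ≤ Cv / Real.log y * ((q : ℝ) / Nat.totient q) := by gcongr
      _ ≤ Cv / (θ / (4 * K0) * Real.log x) * ((q : ℝ) / Nat.totient q) := by gcongr
      _ = Cv * (4 * K0 / θ) / L := by rw [hL]; field_simp
  have hmain := hN0 X hXN0 (Q q a) Co L (sdata q a) ((le_max_left _ _).trans hLmax) hL8 hV
    (fun p h hh hd => Nat.le_of_dvd (by omega) hd) (PQ q a) (by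
      intro m hm _ hym p hp hQ
      rw [← hy] at hym hp
      rw [mem_pz] at hp
      have h3 : p = a + m * q := (Nat.prime_dvd_prime_iff_eq hp.2 hm).1 hQ.2
      have h4 : m ≤ m * q := Nat.le_mul_of_pos_right m (by omega)
      omega)
  exact hmain

end Pool.Agent.W123.PP.AP
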