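import Pool.Agent.W123.GS.Loc

set_option autoImplicit false

/-!
# Almost all elements of a set have regular neighbourhoods at all scales
-/

namespace Pool.Agent.W123.PP

open Finset Pool.Agent.W123.RP Pool.Agent.W123.GS

section
variable {P : ℕ → Prop} [DecidablePred P]

open Classical in
/-- few elements of `P` have a sparse window on one side -/
lemma lower_points (X : ℕ) (c : ℝ) (hc : 0 < c) :
    (((Ioc X (2 * X)).filter (fun n => P n ∧ ¬ (∀ H : ℕ, 1 ≤ H → H ≤ X →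
      c * H ≤ cl P n (n + H) ∧ c * H ≤ cl P (n + 1 - H) (n + 1)))).card : ℝ) ≤ 10 * c * X := by
  set S := (Finset.Ico (X + 1) (2 * X + 1)).filter P with hS
  set RG := (Finset.Ico (X + 1) (2 * X + 1)).filter (fun n => ∀ H : ℕ, 1 ≤ H →
      H ≤ 4 * X → c * H ≤ cl P n (n + H)) with hRG
  set LG := (Finset.Ico (X + 1) (2 * X + 1)).filter (fun n => ∀ H : ℕ, 1 ≤ H →
      H ≤ 4 * X → H ≤ n + 1 → c * H ≤ cl P (n + 1 - H) (n + 1)) with hLG
  rcases Nat.eq_zero_or_pos X with hX0 | hX0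
  · subst hX0
    simp
  have hRb := lower_right (P := P) c hc (4 * X) X (X + 1) (2 * X + 1) (by omega) (by omega)
  have hLb := lower_left (P := P) c hc (4 * X) X (X + 1) (2 * X + 1) (by omega) (by omega)
  rw [← hRG] at hRb
  rw [← hLG] at hLb
  have hlen : ((2 * X + 1 : ℕ) : ℝ) - ((X + 1 : ℕ) : ℝ) + ((4 * X : ℕ) : ℝ) = 5 * X := by
    push_cast; ring
  rw [hlen] at hRb hLb
  have hSc : (S.card : ℝ) = cl P (X + 1) (2 * X + 1) := rfl
  rw [← hSc] at hRb hLb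
  have hRGS : RG ⊆ S := by
    intro n hn
    rw [hRG, Finset.mem_filter] at hn
    rw [hS, Finset.mem_filter]
    exact ⟨hn.1, mem_of_cl hc (hn.2 1 le_rfl (by omega))⟩
  have hLGS : LG ⊆ S := by
    intro n hn
    rw [hLG, Finset.mem_filter] at hn
    rw [hS, Finset.mem_filter]
    refine ⟨hn.1, mem_of_cl hc ?_⟩
    have := hn.2 1 le_rfl (by omega) (by omega)
    rwa [Nat.add_sub_cancel] at this
  have hsub : (Ioc X (2 * X)).filter (fun n => P n ∧ ¬ (∀ H : ℕ, 1 ≤ H → H ≤ X →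
      c * H ≤ cl P n (n + H) ∧ c * H ≤ cl P (n + 1 - H) (n + 1))) ⊆ (S \ RG) ∪ (S \ LG) := by
    intro n hn
    rw [mem_filter, mem_Ioc] at hn
    obtain ⟨⟨h1, h2⟩, h3, h4⟩ := hn
    have hnS : n ∈ S := by
      rw [hS, mem_filter, mem_Ico]; exact ⟨⟨by omega, by omega⟩, h3⟩
    by_contra hcon
    rw [mem_union, mem_sdiff, mem_sdiff, not_or, not_and, not_and, not_not, not_not] at hcon
    have hR := hcon.1 hnS
    have hL := hcon.2 hnS
    rw [hRG, mem_filter] at hR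
    rw [hLG, mem_filter] at hL
    apply h4
    intro H hH1 hH2
    exact ⟨hR.2 H hH1 (by omega), hL.2 H hH1 (by omega) (by omega)⟩
  have h1 := (card_le_card hsub).trans (card_union_le _ _)
  have h2 := card_sdiff_add_card_eq_card hRGS
  have h3 := card_sdiff_add_card_eq_card hLGS
  have h1' : (((Ioc X (2 * X)).filter (fun n => P n ∧ ¬ (∀ H : ℕ, 1 ≤ H → H ≤ X →
      c * H ≤ cl P n (n + H) ∧ c * H ≤ cl P (n + 1 - H) (n + 1)))).card : ℝ) ≤
      (S \ RG).card + (S \ LG).card := by exact_mod_cast h1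
  have h2' : ((S \ RG).card : ℝ) + RG.card = S.card := by exact_mod_cast h2
  have h3' : ((S \ LG).card : ℝ) + LG.card = S.card := by exact_mod_cast h3
  linarith

end

open Classical in
/-- few elements are close to a small set only -/
lemma few_near (P' : ℕ → Prop) (X T : ℕ) (L ε C2 : ℝ) (hL2 : 2 ≤ L) (hε : 0 < ε) (hC2 : 0 < C2)
    (hT : T = ⌊L⌋₊) (hX : 0 < X)
    (hmom : ∑ n ∈ Finset.Ico X (2 * X + 1), ((co P' n (n + T) : ℝ)) ^ 2 ≤ C2 * X)
    (E F : Finset ℕ) (hE : ∀ g ∈ E, X + 1 + T ≤ g ∧ g < 2 * X + 1 ∧ P' g)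
    (hEF : ∀ m, X < m → m ≤ 2 * X → (∃ g ∈ E, m < g ∧ g ≤ m + T) → m ∈ F)
    (hF : (F.card : ℝ) ≤ ε ^ 2 / (4 * C2) * X) : (E.card : ℝ) ≤ ε * X / L := by
  have hXpos : (0 : ℝ) < X := by exact_mod_cast hX
  have hmomt : ∑ n ∈ Finset.Ico (X + 1) (2 * X + 1), ((co P' n (n + T) : ℝ)) ^ 2 ≤ C2 * X := by
    refine le_trans ?_ hmom
    apply Finset.sum_le_sum_of_subset_of_nonneg
    · exact Finset.Ico_subset_Ico_left (by omega)
    · intros; positivity
  have h := moment_method (P := P') E (X + 1) (2 * X + 1) T hE (C2 * X) (by positivity) hmomt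
  have h2 : (((Finset.Ico (X + 1) (2 * X + 1)).filter (fun m => ∃ g ∈ E, m < g ∧ g ≤ m + T)).card : ℝ)
      ≤ F.card := by
    have : ((Finset.Ico (X + 1) (2 * X + 1)).filter (fun m => ∃ g ∈ E, m < g ∧ g ≤ m + T)).card ≤
        F.card := by
      apply card_le_card
      intro m hm
      rw [mem_filter, mem_Ico] at hm
      exact hEF m (by omega) (by omega) hm.2
    exact_mod_cast this
  have h3 := h.trans (h2.trans hF)
  rw [div_le_iff₀ (by positivity)] at h3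
  have h4 : ε ^ 2 / (4 * C2) * X * (C2 * X) = (ε * X / 2) ^ 2 := by field_simp; ring
  rw [h4] at h3
  have h5 : (T : ℝ) * E.card ≤ ε * X / 2 := by
    exact (sq_le_sq₀ (by positivity) (by positivity)).1 h3
  have hTL : L / 2 ≤ T := by
    have := Nat.lt_floor_add_one L
    rw [← hT] at this
    linarith
  have hL0 : 0 < L := by linarith
  rw [le_div_iff₀ hL0]
  have h6 : L / 2 * E.card ≤ ε * X / 2 := le_trans (by gcongr) h5
  linarith

/-- a good scale at a nearby integer -/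
lemma good_near (P : ℕ → Prop) [DecidablePred P] (c₁ c₂ δ L : ℝ) (m g j T : ℕ) (hm : m < g)
    (hg : g ≤ m + T) (hT : T ≤ 2 ^ j) (h : Good P c₁ c₂ (δ / 2) L m (j + 1)) :
    Good P c₁ c₂ δ L g j := by
  obtain ⟨θ, h1, h2, h3⟩ := h
  refine ⟨θ, h1, h2, ?_⟩
  intro u v hu huv hv
  have e : (2 : ℕ) ^ (j + 1) = 2 * 2 ^ j := by rw [pow_succ]; ring
  refine (h3 u v (by omega) huv (by omega)).trans (le_of_eq ?_)
  rw [pow_succ]
  ring

open Classical in
/-- **Almost all elements of a set have regular neighbourhoods**, abstract form. -/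
theorem points (C1 C2 : ℝ) (hC1 : 0 < C1) (hC2 : 0 < C2) (ε : ℝ) (hε : 0 < ε) :
    ∃ c Lam : ℝ, 0 < c ∧ 0 < Lam ∧ ∀ δ : ℝ, 0 < δ → ∃ (K : ℕ) (B0 : ℝ), 0 < B0 ∧
      ∀ (P P' : ℕ → Prop) (X : ℕ) (L : ℝ), 2 ≤ L → B0 * L ^ 2 ≤ X → (∀ n, P n → P' n) →
      (co P' 0 (4 * X) : ℝ) ≤ C1 * X / L →
      ∑ n ∈ Finset.Ico X (2 * X + 1), ((co P' n (n + ⌊L⌋₊) : ℝ)) ^ 2 ≤ C2 * X →
      (((Finset.Ioc X (2 * X)).filter (fun p => P p ∧ ¬ (
        (∀ H : ℕ, 1 ≤ H → H ≤ X →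
          c / L * H ≤ cl P p (p + H) ∧ c / L * H ≤ cl P (p + 1 - H) (p + 1)) ∧
        (∀ H : ℕ, ⌊L⌋₊ ≤ H → H ≤ X →
          (co P' p (p + H) : ℝ) ≤ Lam / L * H ∧ (co P' (p - H) p : ℝ) ≤ Lam / L * H) ∧
        ((range (Nat.log 2 X + 1)).filter (fun j => L ≤ (2 : ℝ) ^ j ∧
          ¬ Good P 0 Lam δ L p j)).card ≤ K))).card : ℝ) ≤ ε * X / L := by
  obtain ⟨η, hη⟩ : ∃ η : ℝ, η = (ε / 8) ^ 2 / (4 * C2) := ⟨_, rfl⟩
  have hη0 : 0 < η := by rw [hη]; positivity
  obtain ⟨Lam, hLam⟩ : ∃ Lam : ℝ, Lam = 4 * C1 / η := ⟨_, rfl⟩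
  have hLam0 : 0 < Lam := by rw [hLam]; positivity
  refine ⟨ε / 80, Lam, by positivity, hLam0, ?_⟩
  intro δ hδ
  obtain ⟨Kb, Bb, hBb, hB⟩ := scales_all C1 C2 hC1 hC2 (δ / 2) η (by positivity) hη0
  refine ⟨Kb + 1, Bb + 8 / ε + 8, by positivity, ?_⟩
  intro P P' X L hL2 hX hPP hup hmom
  have hL0 : 0 < L := by linarith
  have hL4 : 4 ≤ L ^ 2 := by nlinarith
  have hXs : Bb * L ^ 2 + 8 / ε * L ^ 2 + 8 * L ^ 2 ≤ X := by linarith
  have t1 : 0 ≤ Bb * L ^ 2 := by positivity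
  have t2 : 0 ≤ 8 / ε * L ^ 2 := by positivity
  have hXpos : (0 : ℝ) < X := by linarith
  have hXn : 0 < X := by exact_mod_cast hXpos
  obtain ⟨T, hT⟩ : ∃ T : ℕ, T = ⌊L⌋₊ := ⟨_, rfl⟩
  have hTL : (T : ℝ) ≤ L := by rw [hT]; exact Nat.floor_le hL0.le
  have hT2 : 2 ≤ T := by rw [hT]; exact Nat.le_floor (by exact_mod_cast hL2)
  have hTX : T ≤ X := by
    have : (T : ℝ) ≤ X := by nlinarith
    exact_mod_cast this
  have hscale := hB P P' X L hL2 (by linarith) hPP hup hmom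
  -- exceptional sets of integers
  obtain ⟨F1, hF1⟩ : ∃ F1, F1 = (Finset.Ioc X (2 * X)).filter (fun n =>
        Kb < ((range (Nat.log 2 X + 1)).filter (fun j => L ≤ (2 : ℝ) ^ j ∧
          ¬ Good P 0 (4 * C1 / η) (δ / 2) L n j)).card) := ⟨_, rfl⟩
  rw [← hF1] at hscale
  rw [← hLam] at hF1
  obtain ⟨τ, hτ⟩ : ∃ τ : ℝ, τ = Lam / 2 / L := ⟨_, rfl⟩
  have hτ0 : 0 < τ := by rw [hτ]; positivity
  have hr := max_right (P := P') τ hτ0 (4 * X) (4 * X - X) X rfl (by omega)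
  have hl := max_left (P := P') τ hτ0 0 (4 * X - 0) (4 * X) rfl (by omega)
  obtain ⟨R, hR⟩ : ∃ R, R = ((Finset.Ico X (4 * X)).filter (fun n => ∃ H : ℕ, 1 ≤ H ∧ n + H ≤ 4 * X ∧
    τ * H < (co P' n (n + H) : ℝ))) := ⟨_, rfl⟩
  obtain ⟨S, hS⟩ : ∃ S, S = ((Finset.Ioc 0 (4 * X)).filter (fun n => ∃ H : ℕ, 1 ≤ H ∧ 0 + H ≤ n ∧
    τ * H < (co P' (n - H) n : ℝ))) := ⟨_, rfl⟩
  rw [← hR] at hr
  rw [← hS] at hl
  have hup2 : τ * (η / 2 * X) = C1 * X / L := by rw [hτ, hLam]; field_simp; ring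
  have hRc : (R.card : ℝ) ≤ η * X := by
    have h1 : (R.card : ℝ) ≤ η / 2 * X := by
      refine le_of_mul_le_mul_left (hr.trans ?_) hτ0
      rw [hup2]
      refine le_trans ?_ hup
      have := co_anti (P := P') (a := 0) (a' := X) (b := 4 * X) (Nat.zero_le _)
      exact_mod_cast this
    have : 0 ≤ η * X := by positivity
    linarith
  have hSc : (S.card : ℝ) ≤ η * X := by
    have h1 : (S.card : ℝ) ≤ η / 2 * X := by
      refine le_of_mul_le_mul_left (hl.trans ?_) hτ0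
      rw [hup2]
      exact hup
    have : 0 ≤ η * X := by positivity
    linarith
  have hτH : ∀ H : ℕ, τ * ((2 * H : ℕ) : ℝ) = Lam / L * H := by
    intro H; rw [hτ]; push_cast; field_simp
  -- exceptional elements
  obtain ⟨E1, hE1⟩ : ∃ E1, E1 = (Ioc (X + T) (2 * X)).filter (fun p => P p ∧
      Kb + 1 < ((range (Nat.log 2 X + 1)).filter (fun j => L ≤ (2 : ℝ) ^ j ∧
          ¬ Good P 0 Lam δ L p j)).card) := ⟨_, rfl⟩
  obtain ⟨E2, hE2⟩ : ∃ E2, E2 = (Ioc (X + T) (2 * X)).filter (fun p => P p ∧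
      ∃ H : ℕ, T ≤ H ∧ H ≤ X ∧ Lam / L * H < (co P' p (p + H) : ℝ)) := ⟨_, rfl⟩
  obtain ⟨E3, hE3⟩ : ∃ E3, E3 = (Ioc (X + T) (2 * X)).filter (fun p => P p ∧
      ∃ H : ℕ, T ≤ H ∧ H ≤ X ∧ Lam / L * H < (co P' (p - H) p : ℝ)) := ⟨_, rfl⟩
  have hmom' : ∑ n ∈ Finset.Ico X (2 * X + 1), ((co P' n (n + T) : ℝ)) ^ 2 ≤ C2 * X := by
    rw [hT]; exact hmom
  have b1 : (E1.card : ℝ) ≤ ε / 8 * X / L := by
    apply few_near P' X T L (ε / 8) C2 hL2 (by positivity) hC2 hT hXn hmom' E1 F1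
    · intro g hg
      rw [hE1, mem_filter, mem_Ioc] at hg
      exact ⟨by omega, by omega, hPP g hg.2.1⟩
    · rintro m hm1 hm2 ⟨g, hg, hmg, hgm⟩
      rw [hE1, mem_filter, mem_Ioc] at hg
      rw [hF1, mem_filter, mem_Ioc]
      refine ⟨⟨hm1, hm2⟩, ?_⟩
      have hcard : ((range (Nat.log 2 X + 1)).filter (fun j => L ≤ (2 : ℝ) ^ j ∧
          ¬ Good P 0 Lam δ L g j)).card ≤ ((range (Nat.log 2 X + 1)).filter (fun j =>
          L ≤ (2 : ℝ) ^ j ∧ ¬ Good P 0 Lam (δ / 2) L m j)).card + 1 := by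
        have hsub : (range (Nat.log 2 X + 1)).filter (fun j => L ≤ (2 : ℝ) ^ j ∧
          ¬ Good P 0 Lam δ L g j) ⊆ {Nat.log 2 X} ∪ ((range (Nat.log 2 X)).filter (fun j =>
            L ≤ (2 : ℝ) ^ j ∧ ¬ Good P 0 Lam δ L g j)) := by
          intro j hj
          rw [mem_filter, mem_range] at hj
          rw [mem_union, mem_singleton, mem_filter, mem_range]
          rcases Nat.lt_or_ge j (Nat.log 2 X) with h | h
          · exact Or.inr ⟨h, hj.2⟩
          · exact Or.inl (by omega)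
        have h1 := (card_le_card hsub).trans (card_union_le _ _)
        rw [card_singleton] at h1
        have h2 : ((range (Nat.log 2 X)).filter (fun j =>
            L ≤ (2 : ℝ) ^ j ∧ ¬ Good P 0 Lam δ L g j)).card ≤
            ((range (Nat.log 2 X + 1)).filter (fun j =>
          L ≤ (2 : ℝ) ^ j ∧ ¬ Good P 0 Lam (δ / 2) L m j)).card := by
          apply Finset.card_le_card_of_injOn (fun j => j + 1)
          · intro j hj
            rw [Finset.mem_coe, mem_filter, mem_range] at hj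
            rw [Finset.mem_coe, mem_filter, mem_range]
            beta_reduce
            obtain ⟨h1, h2, h3⟩ := hj
            refine ⟨by omega, ?_, ?_⟩
            · have : (2 : ℝ) ^ j ≤ 2 ^ (j + 1) := by
                rw [pow_succ]; have : (0 : ℝ) < 2 ^ j := by positivity
                linarith
              linarith
            · intro hgood
              apply h3
              refine good_near P 0 Lam δ L m g j T hmg hgm ?_ hgood
              have : (T : ℝ) ≤ ((2 ^ j : ℕ) : ℝ) := by push_cast; linarith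
              exact_mod_cast this
          · intro a _ b _ h
            simpa using h
        omega
      have := hg.2.2
      omega
    · rw [← hη]; exact hscale
  have b2 : (E2.card : ℝ) ≤ ε / 8 * X / L := by
    apply few_near P' X T L (ε / 8) C2 hL2 (by positivity) hC2 hT hXn hmom' E2 R
    · intro g hg
      rw [hE2, mem_filter, mem_Ioc] at hg
      exact ⟨by omega, by omega, hPP g hg.2.1⟩
    · rintro m hm1 hm2 ⟨g, hg, hmg, hgm⟩
      rw [hE2, mem_filter, mem_Ioc] at hg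
      obtain ⟨hg1, hg2, H, hH1, hH2, hH3⟩ := hg
      rw [hR, mem_filter, mem_Ico]
      refine ⟨⟨hm1.le, by omega⟩, 2 * H, by omega, by omega, ?_⟩
      rw [hτH]
      refine lt_of_lt_of_le hH3 ?_
      have h1 : co P' g (g + H) ≤ co P' m (m + 2 * H) :=
        (co_mono (by omega)).trans (co_anti (by omega))
      exact_mod_cast h1
    · rw [← hη]; exact hRc
  have b3 : (E3.card : ℝ) ≤ ε / 8 * X / L := by
    apply few_near P' X T L (ε / 8) C2 hL2 (by positivity) hC2 hT hXn hmom' E3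
      ((Ioc X (2 * X)).filter (fun m => m + T + 1 ∈ S))
    · intro g hg
      rw [hE3, mem_filter, mem_Ioc] at hg
      exact ⟨by omega, by omega, hPP g hg.2.1⟩
    · rintro m hm1 hm2 ⟨g, hg, hmg, hgm⟩
      rw [hE3, mem_filter, mem_Ioc] at hg
      obtain ⟨hg1, hg2, H, hH1, hH2, hH3⟩ := hg
      rw [mem_filter, mem_Ioc, hS, mem_filter, mem_Ioc]
      refine ⟨⟨hm1, hm2⟩, ⟨by omega, by omega⟩, min (2 * H) (m + T + 1), ?_, ?_, ?_⟩
      · exact le_min (by omega) (by omega)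
      · rw [zero_add]; exact min_le_right _ _
      · have h1 : co P' (g - H) g ≤ co P' (m + T + 1 - min (2 * H) (m + T + 1)) (m + T + 1) := by
          refine (co_mono (by omega)).trans (co_anti ?_)
          rcases le_total (2 * H) (m + T + 1) with h | h
          · rw [min_eq_left h]; omega
          · rw [min_eq_right h]; omega
        have h2 : τ * ((min (2 * H) (m + T + 1) : ℕ) : ℝ) ≤ τ * ((2 * H : ℕ) : ℝ) := by
          have : ((min (2 * H) (m + T + 1) : ℕ) : ℝ) ≤ ((2 * H : ℕ) : ℝ) := by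
            exact_mod_cast min_le_left _ _
          gcongr
        rw [hτH] at h2
        have h3 : (co P' (g - H) g : ℝ) ≤ co P' (m + T + 1 - min (2 * H) (m + T + 1)) (m + T + 1) := by
          exact_mod_cast h1
        linarith
    · rw [← hη]
      refine le_trans ?_ hSc
      have : ((Ioc X (2 * X)).filter (fun m => m + T + 1 ∈ S)).card ≤ S.card := by
        apply Finset.card_le_card_of_injOn (fun m => m + T + 1)
        · intro m hm
          rw [Finset.mem_coe, mem_filter] at hm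
          exact hm.2
        · intro a _ b _ h
          simp only at h
          omega
      exact_mod_cast this
  have b4 : ((Ioc X (X + T)).card : ℝ) ≤ ε / 8 * X / L := by
    rw [Nat.card_Ioc, Nat.add_sub_cancel_left, le_div_iff₀ hL0]
    have h1 : 8 / ε * L ^ 2 ≤ X := by linarith
    have h2 : L ^ 2 ≤ ε / 8 * X := by
      calc L ^ 2 = ε / 8 * (8 / ε * L ^ 2) := by field_simp
        _ ≤ ε / 8 * X := by gcongr
    nlinarith
  have b5 := lower_points (P := P) X (ε / 80 / L) (by positivity)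
  obtain ⟨E5, hE5⟩ : ∃ E5, E5 = ((Ioc X (2 * X)).filter (fun n => P n ∧ ¬ (∀ H : ℕ, 1 ≤ H → H ≤ X →
      ε / 80 / L * H ≤ cl P n (n + H) ∧ ε / 80 / L * H ≤ cl P (n + 1 - H) (n + 1)))) := ⟨_, rfl⟩
  rw [← hE5] at b5
  have b5' : (E5.card : ℝ) ≤ ε / 8 * X / L := by
    refine b5.trans (le_of_eq ?_)
    field_simp
    ring
  have hsub : (Finset.Ioc X (2 * X)).filter (fun p => P p ∧ ¬ (
        (∀ H : ℕ, 1 ≤ H → H ≤ X →
          ε / 80 / L * H ≤ cl P p (p + H) ∧ ε / 80 / L * H ≤ cl P (p + 1 - H) (p + 1)) ∧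
        (∀ H : ℕ, T ≤ H → H ≤ X →
          (co P' p (p + H) : ℝ) ≤ Lam / L * H ∧ (co P' (p - H) p : ℝ) ≤ Lam / L * H) ∧
        ((range (Nat.log 2 X + 1)).filter (fun j => L ≤ (2 : ℝ) ^ j ∧
          ¬ Good P 0 Lam δ L p j)).card ≤ Kb + 1)) ⊆
      (E1 ∪ E2) ∪ (E3 ∪ (Ioc X (X + T) ∪ E5)) := by
    intro p hp
    rw [mem_filter] at hp
    obtain ⟨hp1, hp2, hp3⟩ := hp
    have hp1' := mem_Ioc.1 hp1
    by_contra hcon
    rw [mem_union, mem_union, mem_union, mem_union, not_or, not_or, not_or, not_or] at hcon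
    obtain ⟨⟨n1, n2⟩, n3, n4, n5⟩ := hcon
    rw [mem_Ioc, not_and, not_le] at n4
    have hpT := n4 hp1'.1
    apply hp3
    refine ⟨?_, ?_, ?_⟩
    · rw [hE5, mem_filter] at n5
      by_contra h
      exact n5 ⟨hp1, hp2, h⟩
    · intro H hH1 hH2
      rw [hE2, mem_filter, mem_Ioc] at n2
      rw [hE3, mem_filter, mem_Ioc] at n3
      constructor
      · by_contra h
        rw [not_le] at h
        exact n2 ⟨⟨hpT, hp1'.2⟩, hp2, H, hH1, hH2, h⟩
      · by_contra h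
        rw [not_le] at h
        exact n3 ⟨⟨hpT, hp1'.2⟩, hp2, H, hH1, hH2, h⟩
    · rw [hE1, mem_filter, mem_Ioc] at n1
      by_contra h
      rw [not_le] at h
      exact n1 ⟨⟨hpT, hp1'.2⟩, hp2, h⟩
  rw [hT] at hsub
  have h1 := card_le_card hsub
  have h2 := card_union_le (E1 ∪ E2) (E3 ∪ (Ioc X (X + ⌊L⌋₊) ∪ E5))
  have h3 := card_union_le E1 E2
  have h4 := card_union_le E3 (Ioc X (X + ⌊L⌋₊) ∪ E5)
  have h5 := card_union_le (Ioc X (X + ⌊L⌋₊)) E5
  rw [hT] at b4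
  have h6 := h1.trans (h2.trans (Nat.add_le_add h3 (h4.trans (Nat.add_le_add_left h5 _))))
  have h7 : ((((Finset.Ioc X (2 * X)).filter (fun p => P p ∧ ¬ (
        (∀ H : ℕ, 1 ≤ H → H ≤ X →
          ε / 80 / L * H ≤ cl P p (p + H) ∧ ε / 80 / L * H ≤ cl P (p + 1 - H) (p + 1)) ∧
        (∀ H : ℕ, ⌊L⌋₊ ≤ H → H ≤ X →
          (co P' p (p + H) : ℝ) ≤ Lam / L * H ∧ (co P' (p - H) p : ℝ) ≤ Lam / L * H) ∧
        ((range (Nat.log 2 X + 1)).filter (fun j => L ≤ (2 : ℝ) ^ j ∧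
          ¬ Good P 0 Lam δ L p j)).card ≤ Kb + 1))).card : ℕ) : ℝ) ≤
      ((E1.card : ℝ) + E2.card) + (E3.card + ((Ioc X (X + ⌊L⌋₊)).card + E5.card)) := by
    exact_mod_cast h6
  have h8 : 0 ≤ ε / 8 * X / L := by positivity
  have h9 : ε * X / L = 8 * (ε / 8 * X / L) := by ring
  rw [h9]
  refine h7.trans ?_
  linarith

end Pool.Agent.W123.PP
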