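import Pool.Agent.W123.PP.Abs
import Pool.Agent.W123.LR.Fin

set_option autoImplicit false

/-!
# Close primes are rare; from windows to gaps
-/

namespace Pool.Agent.W123.PP

open Finset Pool.Agent.W123.RP Pool.Agent.W123.GS Pool.Agent.H357R2.SI

open Classical in
/-- few primes have another prime very close -/
lemma few_close (θ : ℝ) (hθ0 : 0 < θ) : ∃ C : ℝ, 1 ≤ C ∧ ∃ u0 : ℕ,
    ∀ X Y T : ℕ, 3 ≤ X → (X : ℝ) ^ θ ≤ Y → u0 ≤ Y → T ≤ Y →
      (((Ioc X (X + Y)).filter (fun p => p.Prime ∧ ∃ h : ℕ, 1 ≤ h ∧ h ≤ T ∧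
        ((p + h).Prime ∨ (h ≤ p ∧ (p - h).Prime)))).card : ℝ) ≤ C * Y * T / Real.log X ^ 2 + T := by
  obtain ⟨C1, hC1, u0, hps⟩ := pair_sieve
  obtain ⟨C2, hC2, hsg⟩ := sum_sg_sq
  refine ⟨2 * (C1 * C2 / θ ^ 2) + 1, by
    have : 0 ≤ 2 * (C1 * C2 / θ ^ 2) := by positivity
    linarith, u0, ?_⟩
  intro X Y T hX3 hXY hYu hTY
  have hX3r : (3 : ℝ) ≤ X := by exact_mod_cast hX3
  set L : ℝ := Real.log X with hL
  have hL0 : 0 < L := Real.log_pos (by linarith)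
  have hYpos : (0 : ℝ) < Y := lt_of_lt_of_le (by positivity) hXY
  have hlogZ : θ * L ≤ Real.log (Y : ℝ) := by
    rw [hL, ← Real.log_rpow (by linarith)]
    exact Real.log_le_log (by positivity) hXY
  have h3 : ∀ h ∈ Finset.Icc 1 T,
      (((Finset.Ioc X (X + Y)).filter
        (fun n => n.Prime ∧ (n + h).Prime)).card : ℝ) ≤
      C1 * Y / (θ * L) ^ 2 * sg h ^ 2 := by
    intro h hh
    rw [Finset.mem_Icc] at hh
    refine (hps h X Y (by omega) (by omega)).trans ?_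
    calc C1 * sg h ^ 2 * (Y : ℝ) / Real.log (Y : ℝ) ^ 2
        ≤ C1 * sg h ^ 2 * Y / (θ * L) ^ 2 := by
          apply div_le_div₀ (by positivity) le_rfl (by positivity)
          gcongr
      _ = C1 * Y / (θ * L) ^ 2 * sg h ^ 2 := by ring
  have h4 : ∑ h ∈ Finset.Icc 1 T,
      (((Finset.Ioc X (X + Y)).filter
        (fun n => n.Prime ∧ (n + h).Prime)).card : ℝ) ≤
      C1 * Y / (θ * L) ^ 2 * (C2 * T) := by
    refine (Finset.sum_le_sum h3).trans ?_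
    rw [← Finset.mul_sum]
    exact mul_le_mul_of_nonneg_left (hsg T) (by positivity)
  have h5 : C1 * Y / (θ * L) ^ 2 * (C2 * T) = C1 * C2 / θ ^ 2 * Y * T / L ^ 2 := by
    field_simp
  rw [h5] at h4
  -- right neighbours
  have r1 : ((Ioc X (X + Y)).filter (fun p => p.Prime ∧ ∃ h : ℕ, 1 ≤ h ∧ h ≤ T ∧
      (p + h).Prime)).card ≤ ∑ h ∈ Finset.Icc 1 T,
      ((Finset.Ioc X (X + Y)).filter (fun n => n.Prime ∧ (n + h).Prime)).card := by
    refine le_trans ?_ (Finset.card_biUnion_le)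
    apply card_le_card
    intro p hp
    rw [mem_filter] at hp
    obtain ⟨hp1, hp2, h, hh1, hh2, hh3⟩ := hp
    rw [mem_biUnion]
    exact ⟨h, mem_Icc.2 ⟨hh1, hh2⟩, mem_filter.2 ⟨hp1, hp2, hh3⟩⟩
  -- left neighbours
  have r2 : ((Ioc (X + T) (X + Y)).filter (fun p => p.Prime ∧ ∃ h : ℕ, 1 ≤ h ∧ h ≤ T ∧
      (h ≤ p ∧ (p - h).Prime))).card ≤ ∑ h ∈ Finset.Icc 1 T,
      ((Finset.Ioc X (X + Y)).filter (fun n => n.Prime ∧ (n + h).Prime)).card := by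
    have e1 : ((Ioc (X + T) (X + Y)).filter (fun p => p.Prime ∧ ∃ h : ℕ, 1 ≤ h ∧ h ≤ T ∧
      (h ≤ p ∧ (p - h).Prime))).card ≤ ((Icc 1 T).biUnion (fun h =>
        ((Finset.Ioc X (X + Y)).filter (fun n => n.Prime ∧ (n + h).Prime)).image
          (fun n => n + h))).card := by
      apply card_le_card
      intro p hp
      rw [mem_filter, mem_Ioc] at hp
      obtain ⟨hp1, hp2, h, hh1, hh2, hh3, hh4⟩ := hp
      rw [mem_biUnion]
      refine ⟨h, mem_Icc.2 ⟨hh1, hh2⟩, ?_⟩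
      rw [mem_image]
      have e : p - h + h = p := by omega
      refine ⟨p - h, mem_filter.2 ⟨mem_Ioc.2 ⟨by omega, by omega⟩, hh4, ?_⟩, e⟩
      rw [e]; exact hp2
    refine e1.trans (Finset.card_biUnion_le.trans (Finset.sum_le_sum ?_))
    intro h _
    exact card_image_le
  have hsub : (Ioc X (X + Y)).filter (fun p => p.Prime ∧ ∃ h : ℕ, 1 ≤ h ∧ h ≤ T ∧
        ((p + h).Prime ∨ (h ≤ p ∧ (p - h).Prime))) ⊆
      ((Ioc X (X + Y)).filter (fun p => p.Prime ∧ ∃ h : ℕ, 1 ≤ h ∧ h ≤ T ∧ (p + h).Prime)) ∪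
      (((Ioc (X + T) (X + Y)).filter (fun p => p.Prime ∧ ∃ h : ℕ, 1 ≤ h ∧ h ≤ T ∧
      (h ≤ p ∧ (p - h).Prime))) ∪ Ioc X (X + T)) := by
    intro p hp
    rw [mem_filter] at hp
    obtain ⟨hp1, hp2, h, hh1, hh2, hh3⟩ := hp
    rw [mem_union, mem_union]
    rcases hh3 with hh3 | hh3
    · exact Or.inl (mem_filter.2 ⟨hp1, hp2, h, hh1, hh2, hh3⟩)
    · right
      rw [mem_Ioc] at hp1
      rcases le_or_gt p (X + T) with h6 | h6
      · right; rw [mem_Ioc]; exact ⟨hp1.1, h6⟩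
      · left; rw [mem_filter, mem_Ioc]; exact ⟨⟨h6, hp1.2⟩, hp2, h, hh1, hh2, hh3⟩
  have c1 := (card_le_card hsub).trans ((card_union_le _ _).trans
    (Nat.add_le_add_left (card_union_le _ _) _))
  rw [Nat.card_Ioc, Nat.add_sub_cancel_left] at c1
  have c2 : (((Ioc X (X + Y)).filter (fun p => p.Prime ∧ ∃ h : ℕ, 1 ≤ h ∧ h ≤ T ∧
        ((p + h).Prime ∨ (h ≤ p ∧ (p - h).Prime)))).card : ℝ) ≤
      (∑ h ∈ Finset.Icc 1 T, (((Finset.Ioc X (X + Y)).filter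
        (fun n => n.Prime ∧ (n + h).Prime)).card : ℝ)) +
      ((∑ h ∈ Finset.Icc 1 T, (((Finset.Ioc X (X + Y)).filter
        (fun n => n.Prime ∧ (n + h).Prime)).card : ℝ)) + T) := by
    exact_mod_cast c1.trans (Nat.add_le_add r1 (Nat.add_le_add_right r2 _))
  refine c2.trans ?_
  have h7 : 0 ≤ (Y : ℝ) * T / L ^ 2 := by positivity
  have h8 : (2 * (C1 * C2 / θ ^ 2) + 1) * Y * T / L ^ 2 =
      2 * (C1 * C2 / θ ^ 2 * Y * T / L ^ 2) + Y * T / L ^ 2 := by ring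
  rw [h8]
  linarith

end Pool.Agent.W123.PP
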