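import Pool.Agent.W123.PP.Win

set_option autoImplicit false

/-!
# Windows around almost all elements of every set of primes
-/

namespace Pool.Agent.W123.PP

open Finset Filter Pool.Agent.W123.RP Pool.Agent.W123.GS

/-- the shifted set -/
def SX (S : ℕ → Prop) (s n : ℕ) : Prop := S (n + s)

open Classical in
lemma cl_shiftS (S : ℕ → Prop) (s a b : ℕ) : cl (SX S s) a b = cl S (a + s) (b + s) := by
  unfold cl
  apply Finset.card_bij (fun n _ => n + s)
  · intro n hn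
    rw [mem_filter, mem_Ico] at hn ⊢
    exact ⟨⟨by omega, by omega⟩, hn.2⟩
  · intro n _ m _ h
    omega
  · intro m hm
    rw [mem_filter, mem_Ico] at hm
    refine ⟨m - s, ?_, by omega⟩
    rw [mem_filter, mem_Ico]
    have e : m - s + s = m := by omega
    unfold SX
    rw [e]
    exact ⟨⟨by omega, by omega⟩, hm.2⟩

open Classical in
lemma co_shiftS (S : ℕ → Prop) (s a b : ℕ) : co (SX S s) a b = co S (a + s) (b + s) := by
  unfold co
  apply Finset.card_bij (fun n _ => n + s)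
  · intro n hn
    rw [mem_filter, mem_Ioc] at hn ⊢
    exact ⟨⟨by omega, by omega⟩, hn.2⟩
  · intro n _ m _ h
    omega
  · intro m hm
    rw [mem_filter, mem_Ioc] at hm
    refine ⟨m - s, ?_, by omega⟩
    rw [mem_filter, mem_Ioc]
    have e : m - s + s = m := by omega
    unfold SX
    rw [e]
    exact ⟨⟨by omega, by omega⟩, hm.2⟩

open Classical in
/-- windows around almost all elements of every set of primes -/
theorem set_windows (θ : ℝ) (h0 : 0 < θ) (h1 : θ ≤ 1) (ε : ℝ) (hε : 0 < ε) :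
    ∃ c Lam : ℝ, 0 < c ∧ 0 < Lam ∧ ∀ δ : ℝ, 0 < δ → ∃ K : ℕ, ∀ᶠ X : ℕ in atTop,
      ∀ Y : ℕ, (X : ℝ) ^ θ ≤ Y → Y ≤ X → ∀ S : ℕ → Prop, (∀ n, S n → n.Prime) →
      (((Finset.Ioc X (X + Y)).filter (fun p => S p ∧ ¬ (
        (∀ H : ℕ, 1 ≤ H → H ≤ Y →
          c / Real.log X * H ≤ cl S p (p + H) ∧
          c / Real.log X * H ≤ cl S (p + 1 - H) (p + 1)) ∧
        (∀ H : ℕ, ⌊Real.log X⌋₊ ≤ H → H ≤ Y →
          (co Nat.Prime p (p + H) : ℝ) ≤ Lam / Real.log X * H ∧
          (co Nat.Prime (p - H) p : ℝ) ≤ Lam / Real.log X * H) ∧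
        ((range (Nat.log 2 Y + 1)).filter (fun j => Real.log X ≤ (2 : ℝ) ^ j ∧
          ¬ Good S 0 Lam δ (Real.log X) p j)).card ≤ K))).card : ℝ) ≤
      ε * Y / Real.log X := by
  obtain ⟨C1, C2, hC1, hC2, hin⟩ := input θ h0 h1
  obtain ⟨c, Lam, hc, hLam, hall⟩ := points C1 C2 hC1 hC2 ε hε
  refine ⟨c, Lam, hc, hLam, ?_⟩
  intro δ hδ
  obtain ⟨K, B0, hB0, hall⟩ := hall δ hδ
  refine ⟨K, ?_⟩
  filter_upwards [hin B0] with X hX
  intro Y hY hYX S hSp
  obtain ⟨hX3, hL2, hB, hup, hmom⟩ := hX Y hY hYX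
  have h2 := hall (SX S (X - Y)) (PX (X - Y)) Y (Real.log X) hL2 hB
    (fun n h => hSp _ h) hup hmom
  obtain ⟨s, hs⟩ : ∃ s, s = X - Y := ⟨_, rfl⟩
  rw [← hs] at h2
  refine le_trans ?_ h2
  have h3 := card_shift X Y hYX (fun p => S p ∧ ¬ (
        (∀ H : ℕ, 1 ≤ H → H ≤ Y →
          c / Real.log X * H ≤ cl S p (p + H) ∧
          c / Real.log X * H ≤ cl S (p + 1 - H) (p + 1)) ∧
        (∀ H : ℕ, ⌊Real.log X⌋₊ ≤ H → H ≤ Y →
          (co Nat.Prime p (p + H) : ℝ) ≤ Lam / Real.log X * H ∧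
          (co Nat.Prime (p - H) p : ℝ) ≤ Lam / Real.log X * H) ∧
        ((range (Nat.log 2 Y + 1)).filter (fun j => Real.log X ≤ (2 : ℝ) ^ j ∧
          ¬ Good S 0 Lam δ (Real.log X) p j)).card ≤ K))
    (fun p => SX S s p ∧ ¬ (
        (∀ H : ℕ, 1 ≤ H → H ≤ Y →
          c / Real.log X * H ≤ cl (SX S s) p (p + H) ∧
          c / Real.log X * H ≤ cl (SX S s) (p + 1 - H) (p + 1)) ∧
        (∀ H : ℕ, ⌊Real.log X⌋₊ ≤ H → H ≤ Y →
          (co (PX s) p (p + H) : ℝ) ≤ Lam / Real.log X * H ∧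
          (co (PX s) (p - H) p : ℝ) ≤ Lam / Real.log X * H) ∧
        ((range (Nat.log 2 Y + 1)).filter (fun j => Real.log X ≤ (2 : ℝ) ^ j ∧
          ¬ Good (SX S s) 0 Lam δ (Real.log X) p j)).card ≤ K)) ?_
  · exact cast_helper h3
  · intro n hn1 hn2 hn3
    rw [← hs] at hn3
    refine ⟨hn3.1, ?_⟩
    intro hgood
    apply hn3.2
    obtain ⟨g1, g2, g3⟩ := hgood
    refine ⟨?_, ?_, ?_⟩
    · intro H hH1 hH2
      have h4 := g1 H hH1 hH2
      rw [cl_shiftS, cl_shiftS] at h4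
      have e1 : n + H + s = n + s + H := by ring
      have e2 : n + 1 - H + s = n + s + 1 - H := by omega
      have e3 : n + 1 + s = n + s + 1 := by ring
      rw [e1, e2, e3] at h4
      exact h4
    · intro H hH1 hH2
      have h4 := g2 H hH1 hH2
      rw [co_shift, co_shift, pc_co, pc_co] at h4
      have e1 : n + H + s = n + s + H := by ring
      have e2 : n - H + s = n + s - H := by omega
      rw [e1, e2] at h4
      exact h4
    · refine le_trans (card_le_card ?_) g3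
      intro j hj
      rw [mem_filter, mem_range] at hj ⊢
      refine ⟨hj.1, hj.2.1, ?_⟩
      intro hg
      apply hj.2.2
      obtain ⟨lam, q1, q2, q3⟩ := hg
      refine ⟨lam, q1, q2, ?_⟩
      intro u v hu huv hv
      have hjY : 2 ^ j ≤ Y := by
        rcases Nat.eq_zero_or_pos Y with h | h
        · omega
        · have h4 : 2 ^ j ≤ 2 ^ (Nat.log 2 Y) := Nat.pow_le_pow_right (by norm_num) (by omega)
          exact h4.trans (Nat.pow_log_le_self 2 (by omega))
      obtain ⟨u', hu'⟩ : ∃ u', u = u' + s := ⟨u - s, by omega⟩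
      obtain ⟨v', hv'⟩ : ∃ v', v = v' + s := ⟨v - s, by omega⟩
      have h4 := q3 u' v' (by omega) (by omega) (by omega)
      rw [co_shiftS, ← hu', ← hv'] at h4
      have e1 : (v' : ℝ) - u' = (v : ℝ) - u := by rw [hu', hv']; push_cast; ring
      rw [e1] at h4
      exact h4

end Pool.Agent.W123.PP
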