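import Pool.Agent.W123.PP.NoCon
import Pool.Agent.W123.PP.SetWin

set_option autoImplicit false

/-!
# Local concentration of gaps at one resolution
-/

namespace Pool.Agent.W123.PP.Holder

open Finset Filter Pool.Agent.W123.PP Pool.Agent.W123.RP Pool.Agent.W123.GS Pool.Agent.W123.PP.NoCon
  Pool.Agent.W123.PP.Quad Pool.Agent.W123.PP.Vit

open Classical in
/-- one window: if `s + t` is large, the primes of the window are at least `c1 (s + t) / L` and the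
pairs of nearly equal gaps are few, then there is no concentration of gaps -/
theorem window2 (ρ c1 μ c L Lm D : ℝ) (a b ℓ Gm M E : ℕ) (hρ : 0 < ρ) (hc1 : 0 < c1) (hL : 2 ≤ L)
    (hμ1 : μ ≤ 1) (hc : 0 < c)
    (hba : b - a ≤ ℓ) (hℓ : L ≤ c * ℓ) (hcs : 16 * c ≤ ρ * c1)
    (hLm : 16 ≤ ρ * c1 * Lm) (hLm1 : 1 ≤ Lm) (hD : 32 ≤ ρ * c1 * D) (hD1 : 1 ≤ D)
    (hGm : Gm = ⌊(Lm + 1) * L⌋₊) (hM : M = ⌊D * L⌋₊) (hE : E = ⌊μ * L⌋₊)
    (hlow : c1 * ℓ / L ≤ (co Nat.Prime a b : ℝ))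
    (hW : (((Ioc a b).filter (fun q => W4 Gm M E q)).card : ℝ) ≤ ρ * c1 / 4 * ℓ / L) (lam : ℝ) :
    ((NoCon.Con a b (lam * L) ((lam + μ) * L)).card : ℝ) ≤ ρ * (co Nat.Prime a b : ℝ) := by
  have hL0 : 0 < L := by linarith
  have hρc : 0 < ρ * c1 := by positivity
  have hmain : ((NoCon.Con a b (lam * L) ((lam + μ) * L)).card : ℝ) ≤ ρ * c1 * ℓ / L →
      ((NoCon.Con a b (lam * L) ((lam + μ) * L)).card : ℝ) ≤ ρ * (co Nat.Prime a b : ℝ) := by
    intro h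
    refine h.trans ?_
    calc ρ * c1 * ℓ / L = ρ * (c1 * ℓ / L) := by ring
      _ ≤ _ := by gcongr
  apply hmain
  have hℓ0 : (0 : ℝ) ≤ ℓ := Nat.cast_nonneg ℓ
  have hdiv : ∀ (x : ℝ) (m : ℕ), 1 ≤ x → m = ⌊x * L⌋₊ →
      (((b - a) / m : ℕ) : ℝ) ≤ 2 * ℓ / (x * L) ∧ 1 ≤ m ∧ (m : ℝ) ≤ x * L := by
    intro x m hx hm
    have hxL : 2 ≤ x * L := by nlinarith
    have h1 : (m : ℝ) ≤ x * L := by rw [hm]; exact Nat.floor_le (by linarith)
    have h2 : x * L < m + 1 := by rw [hm]; exact Nat.lt_floor_add_one _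
    have h3 : x * L / 2 ≤ m := by linarith
    have h4 : (1 : ℝ) < (m : ℝ) + 1 := by linarith
    have h5 : (0 : ℝ) < m := by linarith
    refine ⟨?_, by exact_mod_cast h5, h1⟩
    calc (((b - a) / m : ℕ) : ℝ) ≤ ((b - a : ℕ) : ℝ) / m := Nat.cast_div_le
      _ ≤ (ℓ : ℝ) / m := by gcongr
      _ ≤ (ℓ : ℝ) / (x * L / 2) := by gcongr
      _ = 2 * ℓ / (x * L) := by field_simp
  have h2' : 1 ≤ c * ℓ / L := by rw [le_div_iff₀ hL0]; linarith
  rcases le_or_gt lam Lm with hlam | hlam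
  · obtain ⟨d1, d2, d3⟩ := hdiv D M hD1 hM
    have hG : (lam + μ) * L < Gm + 1 := by
      have : (lam + μ) * L ≤ (Lm + 1) * L := by gcongr
      refine this.trans_lt ?_
      rw [hGm]
      exact Nat.lt_floor_add_one _
    have hE' : (lam + μ) * L - lam * L < E + 1 := by
      have : (lam + μ) * L - lam * L = μ * L := by ring
      rw [this, hE]
      exact Nat.lt_floor_add_one _
    have h1 := con_small a b M Gm E (lam * L) ((lam + μ) * L) d2 hG hE'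
    have h2 : ((NoCon.Con a b (lam * L) ((lam + μ) * L)).card : ℝ) ≤ 2 * ((((b - a) / M : ℕ) : ℝ) + 2) +
        (((Ioc a b).filter (fun q => W4 Gm M E q)).card : ℝ) := by
      exact_mod_cast h1
    have h3 : 2 * (2 * (ℓ : ℝ) / (D * L)) ≤ ρ * c1 / 8 * (ℓ / L) := by
      have hD0 : D ≠ 0 := by linarith
      have : 2 * (2 * (ℓ : ℝ) / (D * L)) = 4 / D * (ℓ / L) := by field_simp; ring
      rw [this]
      refine mul_le_mul_of_nonneg_right ?_ (by positivity)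
      rw [div_le_iff₀ (by linarith)]
      linarith
    have h4 : 4 * (c * ℓ / L) ≤ ρ * c1 / 4 * (ℓ / L) := by
      have : 4 * (c * ℓ / L) = 4 * c * (ℓ / L) := by ring
      rw [this]
      refine mul_le_mul_of_nonneg_right ?_ (by positivity)
      linarith
    have e1 : ρ * c1 * ℓ / L = ρ * c1 / 8 * (ℓ / L) + ρ * c1 / 4 * (ℓ / L) + ρ * c1 / 4 * (ℓ / L) +
      3 * (ρ * c1) / 8 * (ℓ / L) := by ring
    have e2 : ρ * c1 / 4 * ℓ / L = ρ * c1 / 4 * (ℓ / L) := by ring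
    rw [e2] at hW
    rw [e1]
    have h5 : 0 ≤ 3 * (ρ * c1) / 8 * (ℓ / L) := by positivity
    linarith
  · obtain ⟨m, hm⟩ : ∃ m : ℕ, m = ⌊Lm * L⌋₊ := ⟨_, rfl⟩
    obtain ⟨d1, d2, d3⟩ := hdiv Lm m hLm1 hm
    have hmx : (m : ℝ) ≤ lam * L := d3.trans (by gcongr)
    have h1 := con_large a b m (lam * L) ((lam + μ) * L) d2 hmx
    have h2 : ((NoCon.Con a b (lam * L) ((lam + μ) * L)).card : ℝ) ≤ (((b - a) / m : ℕ) : ℝ) + 2 := by
      exact_mod_cast h1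
    have h3 : 2 * (ℓ : ℝ) / (Lm * L) ≤ ρ * c1 / 4 * (ℓ / L) := by
      have hD0 : Lm ≠ 0 := by linarith
      have : 2 * (ℓ : ℝ) / (Lm * L) = 2 / Lm * (ℓ / L) := by field_simp
      rw [this]
      refine mul_le_mul_of_nonneg_right ?_ (by positivity)
      rw [div_le_iff₀ (by linarith)]
      linarith
    have h4 : 2 * (c * ℓ / L) ≤ ρ * c1 / 4 * (ℓ / L) := by
      have : 2 * (c * ℓ / L) = 2 * c * (ℓ / L) := by ring
      rw [this]
      refine mul_le_mul_of_nonneg_right ?_ (by positivity)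
      linarith
    have e1 : ρ * c1 * ℓ / L = ρ * c1 / 4 * (ℓ / L) + ρ * c1 / 4 * (ℓ / L) +
      (ρ * c1) / 2 * (ℓ / L) := by ring
    rw [e1]
    have h5 : 0 ≤ (ρ * c1) / 2 * (ℓ / L) := by positivity
    linarith

/-- the primes -/
def PrP (n : ℕ) : Prop := n.Prime

open Classical in
lemma co_PrP (u v : ℕ) : co PrP u v = co Nat.Prime u v := by
  unfold co
  congr 1
  ext q
  rw [mem_filter, mem_filter]
  exact Iff.rfl

open Classical in
/-- the bad primes -/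
noncomputable def Bad (c Lam δ : ℝ) (K X Y : ℕ) : Finset ℕ :=
  (Finset.Ioc X (X + Y)).filter (fun p => PrP p ∧ ¬ (
        (∀ H : ℕ, 1 ≤ H → H ≤ Y →
          c / Real.log X * H ≤ cl PrP p (p + H) ∧
          c / Real.log X * H ≤ cl PrP (p + 1 - H) (p + 1)) ∧
        (∀ H : ℕ, ⌊Real.log X⌋₊ ≤ H → H ≤ Y →
          (co Nat.Prime p (p + H) : ℝ) ≤ Lam / Real.log X * H ∧
          (co Nat.Prime (p - H) p : ℝ) ≤ Lam / Real.log X * H) ∧
        ((range (Nat.log 2 Y + 1)).filter (fun j => Real.log X ≤ (2 : ℝ) ^ j ∧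
          ¬ Good PrP 0 Lam δ (Real.log X) p j)).card ≤ K))

lemma growth (θ : ℝ) (h0 : 0 < θ) : ∀ᶠ X : ℕ in atTop, 12 * Real.log X ^ 4 ≤ (X : ℝ) ^ (θ / 2) := by
  have h1 := isLittleO_log_rpow_rpow_atTop (4 : ℝ) (by positivity : 0 < θ / 2)
  have h2 := (h1.comp_tendsto tendsto_natCast_atTop_atTop).bound (by norm_num : (0 : ℝ) < 1 / 12)
  filter_upwards [h2, eventually_ge_atTop 1] with X hX hX1
  simp only [Function.comp] at hX
  have hX1r : (1 : ℝ) ≤ X := by exact_mod_cast hX1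
  have hlog : 0 ≤ Real.log X := Real.log_nonneg hX1r
  rw [Real.norm_of_nonneg (by positivity), Real.norm_of_nonneg (by positivity)] at hX
  have h3 : Real.log (X : ℝ) ^ (4 : ℝ) = Real.log X ^ 4 := by
    rw [← Real.rpow_natCast]; norm_num
  rw [h3] at hX
  linarith

/-- no concentration at resolution `μ` -/
def Sp (c1 ρ μ : ℝ) (X Y p : ℕ) : Prop :=
  ∀ s t : ℕ, s ≤ Y → t ≤ Y → Real.log X ≤ ρ * c1 / 16 * (s + t) → ∀ lam : ℝ,
    ((NoCon.Con (p - s) (p + t) (lam * Real.log X) ((lam + μ) * Real.log X)).card : ℝ) ≤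
      ρ * (co Nat.Prime (p - s) (p + t) : ℝ)

open Classical in
/-- the primes with a concentration at resolution `μ` -/
noncomputable def Bd (c Lam δ c1 ρ μ : ℝ) (K X Y : ℕ) : Finset ℕ :=
  (Finset.Ioc X (X + Y)).filter (fun p => p.Prime ∧ p ∉ Bad c Lam δ K X Y ∧ ¬ Sp c1 ρ μ X Y p)

open Classical in
/-- local windows around the primes outside `Bad` -/
lemma low (c00 Lam c0 c1 δ : ℝ) (K : ℕ) (hc0 : 0 < c0) (hc00' : c0 ≤ c00) (hc01 : c0 ≤ 1)
    (hLam : 0 < Lam) (hc1 : 0 < c1) (hc1a : c1 ≤ c0 / 4) (hc1b : c1 ≤ 1 / (3 * Lam))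
    (hδ : δ = min 1 (c0 / 4)) (X Y p : ℕ) (hL2 : 2 ≤ Real.log X) (hLY : Real.log X ≤ Y)
    (hYX : Y ≤ X) (hp : p ∈ Finset.Ioc X (X + Y)) (hpp : p.Prime) (hpB : p ∉ Bad c00 Lam δ K X Y) :
    (∀ H : ℕ, ⌊Real.log X⌋₊ ≤ H → H ≤ Y →
      (co Nat.Prime (p - H) (p + H) : ℝ) ≤ 2 * Lam * H / Real.log X) ∧
    ∀ s t : ℕ, s ≤ Y → t ≤ Y → Real.log X ≤ c1 * (s + t) →
      c1 * (s + t) / Real.log X ≤ (co Nat.Prime (p - s) (p + t) : ℝ) := by
  obtain ⟨s0, hs0⟩ : ∃ s0 : ℕ, 2 / c0 ≤ (2 : ℝ) ^ s0 := by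
    obtain ⟨n, hn⟩ := pow_unbounded_of_one_lt (2 / c0) (by norm_num : (1 : ℝ) < 2)
    exact ⟨n, hn.le⟩
  have hL0 : 0 < Real.log X := by linarith
  have hgood := hpB
  unfold Bad at hgood
  rw [mem_filter, not_and, not_and, not_not] at hgood
  obtain ⟨W1, W2, W3⟩ := hgood hp hpp
  rw [mem_Ioc] at hp
  refine ⟨?_, ?_⟩
  · intro H hH1 hH2
    have h3 : co Nat.Prime (p - H) p + co Nat.Prime p (p + H) = co Nat.Prime (p - H) (p + H) :=
      co_add (by omega) (by omega)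
    have h4 : (co Nat.Prime (p - H) (p + H) : ℝ) = co Nat.Prime (p - H) p + co Nat.Prime p (p + H) := by
      exact_mod_cast h3.symm
    obtain ⟨h5, h6⟩ := W2 H hH1 hH2
    have h7 : 2 * Lam * H / Real.log X = Lam / Real.log X * H + Lam / Real.log X * H := by ring
    rw [h4, h7]
    linarith
  · have hloc := (local_good PrP p Y (Real.log X) c0 Lam c1 1 K s0 hL2 hLY
      (by omega) hc0 hc01 hLam hc1 hc1a hc1b one_pos hs0 (by
        intro H hH1 hH2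
        obtain ⟨k1, k2⟩ := W1 H hH1 hH2
        have k3 : c0 / Real.log X * H ≤ c00 / Real.log X * H := by gcongr
        exact ⟨k3.trans k1, k3.trans k2⟩) (by
        intro H hH1 hH2
        rw [co_PrP, co_PrP]
        exact W2 H hH1 hH2) (by rw [hδ] at W3; exact W3)).1
    intro s t hs ht hst
    have hlow := (hloc s t hs ht hst).1
    rw [co_PrP] at hlow
    exact hlow

open Classical in
/-- the bad primes at one resolution -/
theorem one_scale (θ : ℝ) (h0 : 0 < θ) (c00 Lam c0 c1 δ : ℝ) (K : ℕ) (hc0 : 0 < c0)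
    (hc00' : c0 ≤ c00) (hc01 : c0 ≤ 1)
    (hLam : 0 < Lam) (hc1 : 0 < c1) (hc1a : c1 ≤ c0 / 4) (hc1b : c1 ≤ 1 / (3 * Lam))
    (hδ : δ = min 1 (c0 / 4)) : ∃ C6 : ℝ, 0 < C6 ∧ ∀ᶠ X : ℕ in atTop, ∀ Y : ℕ, (X : ℝ) ^ θ ≤ Y →
    Y ≤ X → ∀ μ ρ : ℝ, 1 ≤ μ * Real.log X → μ ≤ 1 → 0 < ρ → ρ ≤ 1 →
    ((Bd c00 Lam δ c1 ρ μ K X Y).card : ℝ) ≤ C6 * (μ / ρ ^ 3) * Y / Real.log X := by
  obtain ⟨C, hC, U0, T0, hcount⟩ := w4_count
  obtain ⟨κ, hκ⟩ : ∃ κ : ℝ, κ = 9 * C / θ ^ 4 + 1 := ⟨_, rfl⟩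
  have hκ0 : 0 < κ := by rw [hκ]; positivity
  have hc11 : c1 ≤ 1 := by linarith
  refine ⟨24 * Lam * 51 ^ 2 * κ / c1 ^ 3, by positivity, ?_⟩
  have hXr : Tendsto (fun X : ℕ => (X : ℝ)) atTop atTop := tendsto_natCast_atTop_atTop
  have hlogX : Tendsto (fun X : ℕ => Real.log (X : ℝ)) atTop atTop :=
    Real.tendsto_log_atTop.comp hXr
  have hXθ : Tendsto (fun X : ℕ => (X : ℝ) ^ θ) atTop atTop := (tendsto_rpow_atTop h0).comp hXr
  filter_upwards [hlogX.eventually_ge_atTop 2,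
    hlogX.eventually_ge_atTop ((T0 : ℝ) + 1), growth θ h0, hXθ.eventually_ge_atTop (U0 : ℝ),
    eventually_ge_atTop 3] with X hL2 hLT hgr hXU hX3
  intro Y hY hYX μ ρ hμL hμ1 hρ hρ1
  have hρc : 0 < ρ * c1 := by positivity
  have hρc1 : ρ * c1 ≤ 1 := by nlinarith
  obtain ⟨Lm, hLmdef⟩ : ∃ Lm : ℝ, Lm = 16 / (ρ * c1) + 1 := ⟨_, rfl⟩
  obtain ⟨D, hDdef⟩ : ∃ D : ℝ, D = 32 / (ρ * c1) + 1 := ⟨_, rfl⟩
  have hLm1 : 1 ≤ Lm := by rw [hLmdef]; linarith [div_nonneg (by norm_num : (0 : ℝ) ≤ 16) hρc.le]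
  have hD1 : 1 ≤ D := by rw [hDdef]; linarith [div_nonneg (by norm_num : (0 : ℝ) ≤ 32) hρc.le]
  have hLm : 16 ≤ ρ * c1 * Lm := by
    rw [hLmdef, mul_add, mul_div_cancel₀ _ hρc.ne']
    linarith
  have hD : 32 ≤ ρ * c1 * D := by
    rw [hDdef, mul_add, mul_div_cancel₀ _ hρc.ne']
    linarith
  obtain ⟨A, hA⟩ : ∃ A : ℝ, A = Lm + 1 + D := ⟨_, rfl⟩
  have hA0 : 0 < A := by rw [hA]; linarith
  have hA51 : A ≤ 51 / (ρ * c1) := by
    rw [hA, hLmdef, hDdef, le_div_iff₀ hρc]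
    have e : (16 / (ρ * c1) + 1 + 1 + (32 / (ρ * c1) + 1)) * (ρ * c1) = 48 + 3 * (ρ * c1) := by
      field_simp; ring
    rw [e]
    linarith
  obtain ⟨L, hLdef⟩ : ∃ L : ℝ, L = Real.log X := ⟨_, rfl⟩
  have hL0 : 0 < L := by rw [hLdef]; linarith
  have hμ0 : 0 < μ := by
    by_contra h
    have h1 : μ * Real.log X ≤ 0 := mul_nonpos_of_nonpos_of_nonneg (not_lt.1 h) (by linarith)
    linarith
  have hXpos : (0 : ℝ) < X := by exact_mod_cast (by omega : 0 < X)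
  have hYr : (0 : ℝ) < Y := lt_of_lt_of_le (Real.rpow_pos_of_pos hXpos θ) hY
  have hLY : L ≤ Y := by
    have k1 : L ≤ 12 * L ^ 4 := by
      have k2 : (1 : ℝ) ≤ L ^ 3 := one_le_pow₀ (by rw [hLdef]; linarith)
      nlinarith
    have hX1r : (1 : ℝ) ≤ X := by exact_mod_cast (by omega : 1 ≤ X)
    have k3 : (X : ℝ) ^ (θ / 2) ≤ (X : ℝ) ^ θ := Real.rpow_le_rpow_of_exponent_le hX1r (by linarith)
    rw [← hLdef] at hgr
    linarith
  -- the crowded pairs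
  obtain ⟨Gm, hGm⟩ : ∃ Gm : ℕ, Gm = ⌊(Lm + 1) * L⌋₊ := ⟨_, rfl⟩
  obtain ⟨M, hM⟩ : ∃ M : ℕ, M = ⌊D * L⌋₊ := ⟨_, rfl⟩
  obtain ⟨E, hE⟩ : ∃ E : ℕ, E = ⌊μ * L⌋₊ := ⟨_, rfl⟩
  obtain ⟨W, hWdef⟩ : ∃ W : Finset ℕ, W = (Ioc (X - Y) (X - Y + 3 * Y)).filter
    (fun q => W4 Gm M E q) := ⟨_, rfl⟩
  have hWc : (W.card : ℝ) ≤ μ * (A ^ 2 * κ) * Y / L := by
    have hM1 : T0 ≤ Gm + M := by
      have h2 : (T0 : ℝ) ≤ D * L := by
        have : L ≤ D * L := by nlinarith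
        rw [← hLdef] at hLT
        linarith
      have h3 : T0 ≤ M := by rw [hM]; exact Nat.le_floor h2
      omega
    have hU : U0 ≤ 3 * Y := by
      have h2 : (U0 : ℝ) ≤ Y := hXU.trans hY
      have h3 : U0 ≤ Y := by exact_mod_cast h2
      omega
    have h2 := hcount (3 * Y) hU (X - Y) Gm M E (Gm + M) hM1 le_rfl
    rw [← hWdef] at h2
    have hT : ((Gm + M : ℕ) : ℝ) ≤ A * L := by
      push_cast
      have h3 : (Gm : ℝ) ≤ (Lm + 1) * L := by rw [hGm]; exact Nat.floor_le (by positivity)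
      have h4 : (M : ℝ) ≤ D * L := by rw [hM]; exact Nat.floor_le (by positivity)
      rw [hA]
      linarith
    have hE2 : 2 * (E : ℝ) + 1 ≤ 3 * (μ * L) := by
      have h3 : (E : ℝ) ≤ μ * L := by rw [hE]; exact Nat.floor_le (by positivity)
      have h4 : 1 ≤ μ * L := by rw [hLdef]; exact hμL
      linarith
    have hEP : (2 * (E : ℝ) + 1) * ((Gm + M : ℕ) : ℝ) ^ 2 ≤ 3 * μ * A ^ 2 * L ^ 3 := by
      calc (2 * (E : ℝ) + 1) * ((Gm + M : ℕ) : ℝ) ^ 2 ≤ (3 * (μ * L)) * (A * L) ^ 2 := by gcongr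
        _ = 3 * μ * A ^ 2 * L ^ 3 := by ring
    have hY1 : (1 : ℝ) ≤ Y := by
      have : 0 < Y := by exact_mod_cast hYr
      exact_mod_cast this
    have hlogY : θ * L ≤ Real.log ((3 * Y : ℕ) : ℝ) := by
      have h3 : Real.log ((X : ℝ) ^ θ) ≤ Real.log (((3 * Y : ℕ) : ℝ)) := by
        apply Real.log_le_log (Real.rpow_pos_of_pos hXpos θ)
        push_cast
        linarith
      rw [Real.log_rpow hXpos] at h3
      rw [hLdef]
      exact h3
    have hθL : 0 < θ * L := by positivity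
    have h5 : C * ((3 * Y : ℕ) : ℝ) / Real.log ((3 * Y : ℕ) : ℝ) ^ 4 ≤ 3 * C * Y / (θ * L) ^ 4 := by
      calc C * ((3 * Y : ℕ) : ℝ) / Real.log ((3 * Y : ℕ) : ℝ) ^ 4 ≤
          C * ((3 * Y : ℕ) : ℝ) / (θ * L) ^ 4 := by gcongr
        _ = 3 * C * Y / (θ * L) ^ 4 := by push_cast; ring
    have h6 : C * ((3 * Y : ℕ) : ℝ) / Real.log ((3 * Y : ℕ) : ℝ) ^ 4 *
        ((2 * (E : ℝ) + 1) * ((Gm + M : ℕ) : ℝ) ^ 2) ≤ μ * (A ^ 2 * (9 * C / θ ^ 4)) * Y / L := by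
      calc _ ≤ 3 * C * Y / (θ * L) ^ 4 * (3 * μ * A ^ 2 * L ^ 3) := by gcongr
        _ = μ * (A ^ 2 * (9 * C / θ ^ 4)) * Y / L := by field_simp; ring
    have h7 : 2 * ((3 * Y : ℕ) : ℝ) ^ (1 / 2 : ℝ) * ((2 * (E : ℝ) + 1) * ((Gm + M : ℕ) : ℝ) ^ 2) ≤
        μ * A ^ 2 * Y / L := by
      have h8 : ((3 * Y : ℕ) : ℝ) ^ (1 / 2 : ℝ) ≤ 2 * (Y : ℝ) ^ (1 / 2 : ℝ) := by
        push_cast
        rw [Real.mul_rpow (by norm_num) hYr.le]
        gcongr
        rw [← Real.sqrt_eq_rpow]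
        rw [Real.sqrt_le_left (by norm_num)]
        norm_num
      have h9 : 12 * L ^ 4 ≤ (Y : ℝ) ^ (1 / 2 : ℝ) := by
        rw [hLdef]
        refine hgr.trans ?_
        calc (X : ℝ) ^ (θ / 2) = ((X : ℝ) ^ θ) ^ (1 / 2 : ℝ) := by
              rw [← Real.rpow_mul hXpos.le]; congr 1; ring
          _ ≤ (Y : ℝ) ^ (1 / 2 : ℝ) := Real.rpow_le_rpow (by positivity) hY (by norm_num)
      have h10 : (Y : ℝ) ^ (1 / 2 : ℝ) * (Y : ℝ) ^ (1 / 2 : ℝ) = Y := by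
        rw [← Real.rpow_add hYr]; norm_num
      rw [le_div_iff₀ hL0]
      calc 2 * ((3 * Y : ℕ) : ℝ) ^ (1 / 2 : ℝ) * ((2 * (E : ℝ) + 1) * ((Gm + M : ℕ) : ℝ) ^ 2) * L
          ≤ 2 * (2 * (Y : ℝ) ^ (1 / 2 : ℝ)) * (3 * μ * A ^ 2 * L ^ 3) * L := by gcongr
        _ = μ * A ^ 2 * ((Y : ℝ) ^ (1 / 2 : ℝ) * (12 * L ^ 4)) := by ring
        _ ≤ μ * A ^ 2 * ((Y : ℝ) ^ (1 / 2 : ℝ) * (Y : ℝ) ^ (1 / 2 : ℝ)) := by gcongr
        _ = μ * A ^ 2 * Y := by rw [h10]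
    have e1 : μ * (A ^ 2 * κ) * Y / L = μ * (A ^ 2 * (9 * C / θ ^ 4)) * Y / L + μ * A ^ 2 * Y / L := by
      rw [hκ]; ring
    rw [e1]
    linarith
  -- the bad primes with a crowded window
  have hwindow : ∀ p ∈ Bd c00 Lam δ c1 ρ μ K X Y, (∀ H : ℕ, ⌊L⌋₊ ≤ H → H ≤ Y →
      (co Nat.Prime (p - H) (p + H) : ℝ) ≤ 2 * Lam * H / L) ∧
      ∃ r : ℕ, 1 ≤ r ∧ r ≤ Y ∧ L ≤ 2 * r + 1 ∧
        ρ * c1 / 4 / L * r ≤ ((W.filter (fun q => p ≤ q + r ∧ q ≤ p + r)).card : ℝ) := by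
    intro p hp
    unfold Bd at hp
    rw [mem_filter] at hp
    obtain ⟨hpI, hpp, hpB, hpS⟩ := hp
    obtain ⟨hup, hlow⟩ := low c00 Lam c0 c1 δ K hc0 hc00' hc01 hLam hc1 hc1a hc1b hδ X Y p hL2
      (by rw [← hLdef]; exact hLY) hYX hpI hpp hpB
    rw [← hLdef] at hup hlow
    rw [mem_Ioc] at hpI
    refine ⟨hup, ?_⟩
    by_contra hcon
    push Not at hcon
    apply hpS
    intro s t hs ht hst
    rw [← hLdef] at hst ⊢
    have hρ1c : ρ * c1 ≤ c1 := by nlinarith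
    have hst16 : ρ * c1 / 16 * ((s : ℝ) + t) ≤ c1 * (s + t) :=
      mul_le_mul_of_nonneg_right (by linarith) (by positivity)
    have hlow' := hlow s t hs ht (hst.trans hst16)
    intro lam
    have hWw : (((Ioc (p - s) (p + t)).filter (fun q => W4 Gm M E q)).card : ℝ) ≤
        ρ * c1 / 4 * ((s + t : ℕ) : ℝ) / L := by
      have hr2 : L ≤ 2 * ((max s t : ℕ) : ℝ) + 1 := by
        have k1 : ((s : ℝ) + t) ≤ 2 * ((max s t : ℕ) : ℝ) := by
          have : s + t ≤ 2 * max s t := by omega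
          exact_mod_cast this
        have k2 : ρ * c1 / 16 * ((s : ℝ) + t) ≤ 1 / 2 * (2 * ((max s t : ℕ) : ℝ)) := by
          gcongr
          linarith
        have k3 : (0 : ℝ) ≤ ((max s t : ℕ) : ℝ) := Nat.cast_nonneg _
        linarith
      have hr1 : 1 ≤ max s t := by
        by_contra k
        have k1 : s = 0 ∧ t = 0 := by omega
        rw [k1.1, k1.2] at hst
        push_cast at hst
        linarith
      have k4 := hcon (max s t) hr1 (by omega) hr2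
      have k5 : (Ioc (p - s) (p + t)).filter (fun q => W4 Gm M E q) ⊆
          W.filter (fun q => p ≤ q + max s t ∧ q ≤ p + max s t) := by
        intro q hq
        rw [mem_filter, mem_Ioc] at hq
        rw [hWdef, mem_filter, mem_filter, mem_Ioc]
        refine ⟨⟨⟨by omega, by omega⟩, hq.2⟩, by omega, by omega⟩
      have k6 : (((Ioc (p - s) (p + t)).filter (fun q => W4 Gm M E q)).card : ℝ) ≤
          ((W.filter (fun q => p ≤ q + max s t ∧ q ≤ p + max s t)).card : ℝ) := by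
        exact_mod_cast card_le_card k5
      refine k6.trans (k4.le.trans ?_)
      have k7 : ((max s t : ℕ) : ℝ) ≤ ((s + t : ℕ) : ℝ) := by exact_mod_cast (by omega : max s t ≤ s + t)
      calc ρ * c1 / 4 / L * ((max s t : ℕ) : ℝ) ≤ ρ * c1 / 4 / L * ((s + t : ℕ) : ℝ) := by gcongr
        _ = _ := by ring
    exact window2 ρ c1 μ (ρ * c1 / 16) L Lm D (p - s) (p + t) (s + t) Gm M E hρ hc1
      (by rw [hLdef]; exact hL2) hμ1 (by positivity) (by omega) (by push_cast; exact hst)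
      (by linarith) hLm hLm1 hD hD1 hGm hM hE (by push_cast; exact hlow') hWw lam
  choose! hup r hr1 hrY hrL hrW using hwindow
  have hcov := cover (ρ * c1 / 4 / L) (6 * Lam / L) r (by positivity) (by positivity)
    (Bd c00 Lam δ c1 ρ μ K X Y).card (Bd c00 Lam δ c1 ρ μ K X Y) W le_rfl
    hrW (by
      intro p hp
      have hpI := hp
      unfold Bd at hpI
      rw [mem_filter, mem_Ioc] at hpI
      obtain ⟨hpI, -⟩ := hpI
      have hr1' : (1 : ℝ) ≤ r p := by exact_mod_cast hr1 p hp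
      rcases le_or_gt (2 * r p + 1) Y with h | h
      · have k1 := hup p hp (2 * r p + 1) (Nat.floor_le_of_le (by push_cast; exact hrL p hp)) h
        have k2 : (Bd c00 Lam δ c1 ρ μ K X Y).filter (fun q => p ≤ q + 2 * r p ∧ q ≤ p + 2 * r p) ⊆
            (Ioc (p - (2 * r p + 1)) (p + (2 * r p + 1))).filter Nat.Prime := by
          intro q hq
          unfold Bd at hq
          rw [mem_filter, mem_filter, mem_Ioc] at hq
          rw [mem_filter, mem_Ioc]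
          refine ⟨⟨by omega, by omega⟩, hq.1.2.1⟩
        have k3 : (((Bd c00 Lam δ c1 ρ μ K X Y).filter
            (fun q => p ≤ q + 2 * r p ∧ q ≤ p + 2 * r p)).card : ℝ) ≤
            (co Nat.Prime (p - (2 * r p + 1)) (p + (2 * r p + 1)) : ℝ) := by
          unfold co
          have := card_le_card k2
          exact_mod_cast this.trans (le_of_eq (by congr!))
        refine k3.trans (k1.trans ?_)
        push_cast
        rw [div_mul_eq_mul_div]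
        refine div_le_div_of_nonneg_right ?_ hL0.le
        nlinarith
      · have hYfl : ⌊L⌋₊ ≤ Y := Nat.floor_le_of_le hLY
        have k1 := hup p hp Y hYfl le_rfl
        have k2 : (Bd c00 Lam δ c1 ρ μ K X Y).filter (fun q => p ≤ q + 2 * r p ∧ q ≤ p + 2 * r p) ⊆
            (Ioc (p - Y) (p + Y)).filter Nat.Prime := by
          intro q hq
          unfold Bd at hq
          rw [mem_filter, mem_filter, mem_Ioc] at hq
          rw [mem_filter, mem_Ioc]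
          refine ⟨⟨by omega, by omega⟩, hq.1.2.1⟩
        have k3 : (((Bd c00 Lam δ c1 ρ μ K X Y).filter
            (fun q => p ≤ q + 2 * r p ∧ q ≤ p + 2 * r p)).card : ℝ) ≤
            (co Nat.Prime (p - Y) (p + Y) : ℝ) := by
          unfold co
          have := card_le_card k2
          exact_mod_cast this.trans (le_of_eq (by congr!))
        refine k3.trans (k1.trans ?_)
        have k4 : (Y : ℝ) < 2 * r p + 1 := by exact_mod_cast h
        rw [div_mul_eq_mul_div]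
        refine div_le_div_of_nonneg_right ?_ hL0.le
        nlinarith)
  have k1 : ρ * c1 / 4 / L * ((Bd c00 Lam δ c1 ρ μ K X Y).card : ℝ) ≤
      6 * Lam / L * (μ * ((51 / (ρ * c1)) ^ 2 * κ) * Y / L) :=
    hcov.trans (by
      refine mul_le_mul_of_nonneg_left (hWc.trans ?_) (by positivity)
      gcongr)
  rw [← hLdef]
  have k3 : ρ * c1 / 4 / L * ((Bd c00 Lam δ c1 ρ μ K X Y).card : ℝ) ≤
      ρ * c1 / 4 / L * (24 * Lam * 51 ^ 2 * κ / c1 ^ 3 * (μ / ρ ^ 3) * Y / L) := by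
    refine k1.trans (le_of_eq ?_)
    field_simp
    ring
  exact le_of_mul_le_mul_left k3 (by positivity)

end Pool.Agent.W123.PP.Holder
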