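import Pool.Agent.W123.PP.SetWin

set_option autoImplicit false

/-!
# From sets to weights
-/

namespace Pool.Agent.W123.PP

open Finset Filter Pool.Agent.W123.RP Pool.Agent.W123.GS

open Classical in
lemma level_approx (x : ℝ) (hx : |x| ≤ 1) (m : ℕ) (hm : 1 ≤ m) :
    |x - (-1 + 2 / m * (((range m).filter (fun i : ℕ => -1 + 2 * ((i : ℝ) + 1) / m ≤ x)).card : ℝ))| ≤
      2 / m := by
  have hm0 : (0 : ℝ) < m := by exact_mod_cast hm
  obtain ⟨hx1, hx2⟩ := abs_le.1 hx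
  obtain ⟨F, hF⟩ : ∃ F, F = ⌊(x + 1) * m / 2⌋₊ := ⟨_, rfl⟩
  have hnn : 0 ≤ (x + 1) * m / 2 := by
    have : 0 ≤ x + 1 := by linarith
    positivity
  have h1 : (F : ℝ) ≤ (x + 1) * m / 2 := by rw [hF]; exact Nat.floor_le hnn
  have h2 : (x + 1) * m / 2 < F + 1 := by rw [hF]; exact Nat.lt_floor_add_one _
  have hset : (range m).filter (fun i : ℕ => -1 + 2 * ((i : ℝ) + 1) / m ≤ x) = range F := by
    ext i
    rw [mem_filter, mem_range, mem_range]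
    constructor
    · rintro ⟨_, h⟩
      have h3 : 2 * ((i : ℝ) + 1) / m ≤ x + 1 := by linarith
      rw [div_le_iff₀ hm0] at h3
      have h4 : i + 1 ≤ F := by
        rw [hF]
        apply Nat.le_floor
        push_cast
        linarith
      omega
    · intro h
      have h3 : ((i : ℝ) + 1) ≤ F := by exact_mod_cast h
      have h4 : ((i : ℝ) + 1) ≤ (x + 1) * m / 2 := h3.trans h1
      refine ⟨?_, ?_⟩
      · have h5 : (x + 1) * m / 2 ≤ m := by nlinarith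
        have h6 : ((i : ℝ) + 1) ≤ m := h4.trans h5
        have h7 : i + 1 ≤ m := by exact_mod_cast h6
        omega
      · have h5 : 2 * ((i : ℝ) + 1) / m ≤ x + 1 := by
          rw [div_le_iff₀ hm0]; linarith
        linarith
  rw [hset, card_range]
  have e : x - (-1 + 2 / m * (F : ℝ)) = 2 / m * ((x + 1) * m / 2 - F) := by field_simp; ring
  rw [e, abs_mul, abs_of_pos (by positivity : (0 : ℝ) < 2 / m)]
  have h3 : |(x + 1) * m / 2 - F| ≤ 1 := by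
    rw [abs_le]; constructor <;> linarith
  calc 2 / (m : ℝ) * |(x + 1) * m / 2 - F| ≤ 2 / m * 1 := by gcongr
    _ = 2 / m := mul_one _

/-- the level sets -/
def Lev (f : ℕ → ℝ) (m i q : ℕ) : Prop := q.Prime ∧ -1 + 2 * ((i : ℝ) + 1) / m ≤ f q

open Classical in
lemma linear_of_levels (f : ℕ → ℝ) (hf : ∀ n, |f n| ≤ 1) (m : ℕ) (hm : 1 ≤ m) (p j : ℕ)
    (L e D : ℝ)
    (hD : (co Nat.Prime (p - 2 ^ j) (p + 2 ^ j) : ℝ) ≤ D)
    (hall : ∃ θ : ℝ, ∀ u v : ℕ, p ≤ u + 2 ^ j → u ≤ v → v ≤ p + 2 ^ j →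
      |(co Nat.Prime u v : ℝ) - θ * ((v : ℝ) - u) / L| ≤ e)
    (hlev : ∀ i ∈ range m, ∃ θ : ℝ, ∀ u v : ℕ, p ≤ u + 2 ^ j → u ≤ v → v ≤ p + 2 ^ j →
      |(co (Lev f m i) u v : ℝ) - θ * ((v : ℝ) - u) / L| ≤ 2 * e) :
    ∃ lam : ℝ, ∀ u v : ℕ, p ≤ u + 2 ^ j → u ≤ v → v ≤ p + 2 ^ j →
      |∑ q ∈ (Finset.Ioc u v).filter Nat.Prime, f q - lam * ((v : ℝ) - u) / L| ≤
        5 * e + 2 / m * D := by
  have hm0 : (0 : ℝ) < m := by exact_mod_cast hm
  obtain ⟨θ, hθ⟩ := hall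
  choose! th hth using hlev
  refine ⟨-θ + 2 / m * ∑ i ∈ range m, th i, ?_⟩
  intro u v hu huv hv
  obtain ⟨A, hA⟩ : ∃ A, A = (Finset.Ioc u v).filter Nat.Prime := ⟨_, rfl⟩
  have hN : (A.card : ℝ) = co Nat.Prime u v := by
    rw [hA]; unfold co; congr!
  have hND : (A.card : ℝ) ≤ D := by
    rw [hN]
    refine le_trans ?_ hD
    exact_mod_cast (co_mono (P := Nat.Prime) hv).trans (co_anti (by omega))
  have hswap : ∑ q ∈ A, (((range m).filter (fun i : ℕ => -1 + 2 * ((i : ℝ) + 1) / m ≤ f q)).card : ℝ) =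
      ∑ i ∈ range m, (co (Lev f m i) u v : ℝ) := by
    have h1 : ∀ q ∈ A, (((range m).filter (fun i : ℕ => -1 + 2 * ((i : ℝ) + 1) / m ≤ f q)).card : ℝ) =
        ∑ i ∈ range m, if -1 + 2 * ((i : ℝ) + 1) / m ≤ f q then (1 : ℝ) else 0 := by
      intro q _
      rw [Finset.sum_boole]
    rw [Finset.sum_congr rfl h1, Finset.sum_comm]
    apply Finset.sum_congr rfl
    intro i _
    rw [Finset.sum_boole, hA, Finset.filter_filter]
    unfold co Lev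
    congr!
  have happ : |∑ q ∈ A, f q - (-(A.card : ℝ) + 2 / m * ∑ i ∈ range m, (co (Lev f m i) u v : ℝ))| ≤
      2 / m * D := by
    rw [← hswap]
    have e1 : ∑ q ∈ A, f q - (-(A.card : ℝ) + 2 / m *
        ∑ q ∈ A, (((range m).filter (fun i : ℕ => -1 + 2 * ((i : ℝ) + 1) / m ≤ f q)).card : ℝ)) =
        ∑ q ∈ A, (f q - (-1 + 2 / m *
          (((range m).filter (fun i : ℕ => -1 + 2 * ((i : ℝ) + 1) / m ≤ f q)).card : ℝ))) := by
      rw [Finset.sum_sub_distrib, Finset.sum_add_distrib, ← Finset.mul_sum, Finset.sum_const,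
        nsmul_eq_mul]
      ring
    rw [e1]
    refine (Finset.abs_sum_le_sum_abs _ _).trans ?_
    refine (Finset.sum_le_sum (fun q _ => level_approx (f q) (hf q) m hm)).trans ?_
    rw [Finset.sum_const, nsmul_eq_mul, mul_comm]
    gcongr
  have hl1 := hθ u v hu huv hv
  rw [← hN] at hl1
  have hl2 : |∑ i ∈ range m, (co (Lev f m i) u v : ℝ) -
      (∑ i ∈ range m, th i) * ((v : ℝ) - u) / L| ≤ m * (2 * e) := by
    have e1 : ∑ i ∈ range m, (co (Lev f m i) u v : ℝ) - (∑ i ∈ range m, th i) * ((v : ℝ) - u) / L =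
        ∑ i ∈ range m, ((co (Lev f m i) u v : ℝ) - th i * ((v : ℝ) - u) / L) := by
      rw [Finset.sum_sub_distrib, Finset.sum_mul, Finset.sum_div]
    rw [e1]
    refine (Finset.abs_sum_le_sum_abs _ _).trans ?_
    refine (Finset.sum_le_sum (fun i hi => hth i hi u v hu huv hv)).trans ?_
    rw [Finset.sum_const, nsmul_eq_mul, card_range]
  obtain ⟨a1, a2⟩ := abs_le.1 happ
  obtain ⟨b1, b2⟩ := abs_le.1 hl1
  obtain ⟨d1, d2⟩ := abs_le.1 hl2
  rw [← hA]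
  obtain ⟨Sf, hSf⟩ : ∃ Sf, Sf = ∑ q ∈ A, f q := ⟨_, rfl⟩
  obtain ⟨Sc, hSc⟩ : ∃ Sc, Sc = ∑ i ∈ range m, (co (Lev f m i) u v : ℝ) := ⟨_, rfl⟩
  obtain ⟨St, hSt⟩ : ∃ St, St = ∑ i ∈ range m, th i := ⟨_, rfl⟩
  obtain ⟨w, hw⟩ : ∃ w : ℝ, w = ((v : ℝ) - u) / L := ⟨_, rfl⟩
  have e2 : ∀ t : ℝ, t * ((v : ℝ) - u) / L = t * w := by
    intro t; rw [hw]; ring
  rw [e2] at b1 b2 d1 d2 ⊢
  rw [← hSf, ← hSc] at a1 a2
  rw [← hSc, ← hSt] at d1 d2
  rw [← hSf, ← hSt]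
  have k1 : 2 / (m : ℝ) * (Sc - St * w) ≤ 4 * e := by
    calc 2 / (m : ℝ) * (Sc - St * w) ≤ 2 / m * (m * (2 * e)) := by gcongr
      _ = 4 * e := by field_simp; ring
  have k2 : -(4 * e) ≤ 2 / (m : ℝ) * (Sc - St * w) := by
    calc -(4 * e) = 2 / (m : ℝ) * (-(m * (2 * e))) := by field_simp; ring
      _ ≤ 2 / (m : ℝ) * (Sc - St * w) := by gcongr
  have e3 : (-θ + 2 / (m : ℝ) * St) * w = -(θ * w) + 2 / m * (St * w) := by ring
  have e4 : 2 / (m : ℝ) * (Sc - St * w) = 2 / m * Sc - 2 / m * (St * w) := by ring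
  rw [e3, abs_le]
  rw [e4] at k1 k2
  constructor <;> linarith

end Pool.Agent.W123.PP
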