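import Pool.Agent.W123.PP.QuadSum

set_option autoImplicit false

/-!
# Many nearly equal gaps between primes close to each other are rare
-/

namespace Pool.Agent.W123.PP.Multi

open Finset Filter Pool.Agent.W123.PP.Quad

/-- `m + 1` nearly equal gaps close to `q` -/
def WK (m Gm Dn E q : ℕ) : Prop := ∃ g d : Fin (m + 1) → ℕ, (∀ i, 1 ≤ g i ∧ g i ≤ Gm) ∧
  (∀ i j, g i ≤ g j + E) ∧ d 0 = 0 ∧ (∀ i, d i ≤ Dn) ∧ (∀ i j, i < j → d i + g i < d j) ∧
  ∀ i, (q + d i).Prime ∧ (q + d i + g i).Prime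

/-- the shifts -/
def shm (m : ℕ) (x : (Fin (m + 1) → ℕ) × (Fin (m + 1) → ℕ)) (j : Fin (2 * (m + 1))) : ℕ :=
  x.2 ⟨j / 2, by omega⟩ + (if (j : ℕ) % 2 = 1 then x.1 ⟨j / 2, by omega⟩ else 0)

lemma sum_le_inj {β γ : Type} [DecidableEq γ] (P : Finset β) (F : ℕ → ℝ) (hF : ∀ h, 0 ≤ F h)
    (f : β → ℕ) (ρ : β → γ) (R : Finset γ) (T : ℕ) (hf : ∀ x ∈ P, 1 ≤ f x ∧ f x ≤ T)
    (hρ : ∀ x ∈ P, ρ x ∈ R)
    (hinj : ∀ x ∈ P, ∀ y ∈ P, f x = f y → ρ x = ρ y → x = y) :
    ∑ x ∈ P, F (f x) ≤ R.card * ∑ h ∈ Icc 1 T, F h := by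
  have h1 : ∑ x ∈ P, F (f x) = ∑ z ∈ P.image (fun x => (f x, ρ x)), F z.1 := by
    rw [Finset.sum_image]
    intro x hx y hy hxy
    simp only [Prod.mk.injEq] at hxy
    exact hinj x hx y hy hxy.1 hxy.2
  rw [h1]
  have h2 : ∑ z ∈ P.image (fun x => (f x, ρ x)), F z.1 ≤ ∑ z ∈ Icc 1 T ×ˢ R, F z.1 := by
    apply Finset.sum_le_sum_of_subset_of_nonneg
    · intro z hz
      rw [mem_image] at hz
      obtain ⟨x, hx, rfl⟩ := hz
      rw [mem_product, mem_Icc]
      exact ⟨hf x hx, hρ x hx⟩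
    · intro z _ _
      exact hF _
  refine h2.trans (le_of_eq ?_)
  rw [Finset.sum_product]
  simp only [Finset.sum_const, nsmul_eq_mul]
  rw [Finset.mul_sum]

/-- the parameters -/
def Par (m Gm Dn E : ℕ) : Finset ((Fin (m + 1) → ℕ) × (Fin (m + 1) → ℕ)) :=
  ((Fintype.piFinset (fun _ : Fin (m + 1) => Icc 1 Gm)) ×ˢ
    (Fintype.piFinset (fun _ : Fin (m + 1) => Icc 0 Dn))).filter
    (fun x => (∀ i j, x.1 i ≤ x.1 j + E) ∧ x.2 0 = 0 ∧ ∀ i j, i < j → x.2 i + x.1 i < x.2 j)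

lemma mem_Par (m Gm Dn E : ℕ) (x : (Fin (m + 1) → ℕ) × (Fin (m + 1) → ℕ)) : x ∈ Par m Gm Dn E ↔
    ((∀ i, 1 ≤ x.1 i ∧ x.1 i ≤ Gm) ∧ (∀ i, x.2 i ≤ Dn)) ∧ (∀ i j, x.1 i ≤ x.1 j + E) ∧
    x.2 0 = 0 ∧ ∀ i j, i < j → x.2 i + x.1 i < x.2 j := by
  unfold Par
  rw [mem_filter, mem_product, Fintype.mem_piFinset, Fintype.mem_piFinset]
  simp only [mem_Icc, Nat.zero_le, true_and]

/-- encoding of the gaps relative to the `i`-th one -/
def enc (m E : ℕ) (i : Fin (m + 1)) (g : Fin (m + 1) → ℕ) (l : Fin (m + 1)) : ℕ := g l + E - g i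

lemma enc_inj (m E : ℕ) (i : Fin (m + 1)) (g g' : Fin (m + 1) → ℕ)
    (hg : ∀ i j, g i ≤ g j + E) (hg' : ∀ i j, g' i ≤ g' j + E) (h : g i = g' i)
    (he : enc m E i g = enc m E i g') : g = g' := by
  funext l
  have h1 := congrFun he l
  unfold enc at h1
  have h2 := hg i l
  have h3 := hg' i l
  omega

lemma card_enc (m E : ℕ) (i : Fin (m + 1)) :
    (Fintype.piFinset (fun l : Fin (m + 1) => if l = i then ({E} : Finset ℕ) else Icc 0 (2 * E))).card =
      (2 * E + 1) ^ m := by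
  rw [Fintype.card_piFinset, ← Finset.mul_prod_erase Finset.univ _ (Finset.mem_univ i)]
  rw [if_pos rfl, card_singleton, one_mul]
  have h1 : ∀ l ∈ Finset.univ.erase i, (if l = i then ({E} : Finset ℕ) else Icc 0 (2 * E)).card =
      2 * E + 1 := by
    intro l hl
    rw [if_neg (Finset.ne_of_mem_erase hl), Nat.card_Icc]
    omega
  rw [Finset.prod_congr rfl h1, Finset.prod_const, Finset.card_erase_of_mem (Finset.mem_univ i),
    Finset.card_univ, Fintype.card_fin, Nat.add_sub_cancel]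

lemma mem_enc (m E : ℕ) (i : Fin (m + 1)) (g : Fin (m + 1) → ℕ) (hg : ∀ i j, g i ≤ g j + E) :
    enc m E i g ∈ Fintype.piFinset
      (fun l : Fin (m + 1) => if l = i then ({E} : Finset ℕ) else Icc 0 (2 * E)) := by
  rw [Fintype.mem_piFinset]
  intro l
  unfold enc
  by_cases h : l = i
  · subst h
    rw [if_pos rfl, mem_singleton]
    omega
  · rw [if_neg h, mem_Icc]
    have := hg l i
    omega

lemma card_d1 (m Dn : ℕ) :
    (Fintype.piFinset (fun l : Fin (m + 1) => if l = 0 then ({0} : Finset ℕ) else Icc 0 Dn)).card =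
      (Dn + 1) ^ m := by
  rw [Fintype.card_piFinset, ← Finset.mul_prod_erase Finset.univ _ (Finset.mem_univ 0)]
  rw [if_pos rfl, card_singleton, one_mul]
  have h1 : ∀ l ∈ Finset.univ.erase (0 : Fin (m + 1)),
      (if l = 0 then ({0} : Finset ℕ) else Icc 0 Dn).card = Dn + 1 := by
    intro l hl
    rw [if_neg (Finset.ne_of_mem_erase hl), Nat.card_Icc]
    omega
  rw [Finset.prod_congr rfl h1, Finset.prod_const, Finset.card_erase_of_mem (Finset.mem_univ _),
    Finset.card_univ, Fintype.card_fin, Nat.add_sub_cancel]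

lemma card_d2 (m Dn : ℕ) (i : Fin (m + 1)) (hi : i ≠ 0) :
    (Fintype.piFinset (fun l : Fin (m + 1) => if l = 0 ∨ l = i then ({0} : Finset ℕ)
      else Icc 0 Dn)).card * (Dn + 1) = (Dn + 1) ^ m := by
  have hm : 1 ≤ m := by
    by_contra h
    apply hi
    apply Fin.ext
    have := i.2
    rw [Fin.val_zero]
    omega
  rw [Fintype.card_piFinset, ← Finset.mul_prod_erase Finset.univ _ (Finset.mem_univ i)]
  rw [if_pos (Or.inr rfl), card_singleton, one_mul,
    ← Finset.mul_prod_erase (Finset.univ.erase i) _ (Finset.mem_erase.2 ⟨Ne.symm hi, Finset.mem_univ 0⟩)]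
  rw [if_pos (Or.inl rfl), card_singleton, one_mul]
  have h1 : ∀ l ∈ (Finset.univ.erase i).erase (0 : Fin (m + 1)),
      (if l = 0 ∨ l = i then ({0} : Finset ℕ) else Icc 0 Dn).card = Dn + 1 := by
    intro l hl
    rw [mem_erase, mem_erase] at hl
    rw [if_neg (by tauto), Nat.card_Icc]
    omega
  rw [Finset.prod_congr rfl h1, Finset.prod_const,
    Finset.card_erase_of_mem (Finset.mem_erase.2 ⟨Ne.symm hi, Finset.mem_univ 0⟩),
    Finset.card_erase_of_mem (Finset.mem_univ _),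
    Finset.card_univ, Fintype.card_fin, Nat.add_sub_cancel, ← pow_succ]
  congr 1
  omega

/-- number of parameters -/
lemma card_Par (m Gm Dn E : ℕ) : (Par m Gm Dn E).card ≤ Gm * (2 * E + 1) ^ m * (Dn + 1) ^ m := by
  have h1 : (Par m Gm Dn E).card ≤ (Icc 1 Gm ×ˢ ((Fintype.piFinset (fun l : Fin (m + 1) =>
      if l = 0 then ({E} : Finset ℕ) else Icc 0 (2 * E))) ×ˢ
      (Fintype.piFinset (fun l : Fin (m + 1) => if l = 0 then ({0} : Finset ℕ) else Icc 0 Dn)))).card := by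
    apply Finset.card_le_card_of_injOn (fun x => (x.1 0, enc m E 0 x.1, x.2))
    · intro x hx
      rw [Finset.mem_coe, mem_Par] at hx
      rw [Finset.mem_coe, mem_product, mem_product, mem_Icc]
      refine ⟨hx.1.1 0, mem_enc m E 0 x.1 hx.2.1, ?_⟩
      rw [Fintype.mem_piFinset]
      intro l
      by_cases h : l = 0
      · subst h
        rw [if_pos rfl, mem_singleton]
        exact hx.2.2.1
      · rw [if_neg h, mem_Icc]
        exact ⟨Nat.zero_le _, hx.1.2 l⟩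
    · intro x hx y hy hxy
      rw [Finset.mem_coe, mem_Par] at hx hy
      simp only [Prod.mk.injEq] at hxy
      exact Prod.ext (enc_inj m E 0 x.1 y.1 hx.2.1 hy.2.1 hxy.1 hxy.2.1) hxy.2.2
  refine h1.trans (le_of_eq ?_)
  rw [card_product, card_product, card_enc, card_d1, Nat.card_Icc]
  rw [Nat.add_sub_cancel]
  ring

/-- the sum over one pair -/
lemma pair_sum (m Gm Dn E T : ℕ) (F : ℕ → ℝ) (hF : ∀ h, 0 ≤ F h) (hT : Gm + Dn + 1 ≤ T)
    (il : Fin (2 * (m + 1)) × Fin (2 * (m + 1))) (hil : il ∈ prs (2 * (m + 1))) :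
    ∑ x ∈ Par m Gm Dn E, F (dif (shm m x) il) ≤
      (((2 * E + 1) ^ m * T ^ m : ℕ) : ℝ) * ∑ h ∈ Icc 1 T, F h := by
  obtain ⟨a, b⟩ := il
  unfold prs at hil
  rw [mem_filter] at hil
  have hab : (a : ℕ) < b := hil.2
  have hb := b.2
  have hS0 : 0 ≤ ∑ h ∈ Icc 1 T, F h := Finset.sum_nonneg fun h _ => hF h
  obtain ⟨i, hi⟩ : ∃ i : Fin (m + 1), i = ⟨(a : ℕ) / 2, by omega⟩ := ⟨_, rfl⟩
  obtain ⟨j, hj⟩ : ∃ j : Fin (m + 1), j = ⟨(b : ℕ) / 2, by omega⟩ := ⟨_, rfl⟩
  by_cases hij : i = j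
  · -- the difference is `g i`
    have h2 : (a : ℕ) / 2 = (b : ℕ) / 2 := by
      have := congrArg Fin.val hij
      rw [hi, hj] at this
      exact this
    have ha0 : ¬ ((a : ℕ) % 2 = 1) := by omega
    have hb0 : (b : ℕ) % 2 = 1 := by omega
    have hd : ∀ x, dif (shm m x) (a, b) = x.1 i := by
      intro x
      unfold dif shm
      simp only
      rw [if_neg ha0, if_pos hb0, ← hi, ← hj, ← hij]
      push_cast
      omega
    have h3 := sum_le_inj (Par m Gm Dn E) F hF (fun x => dif (shm m x) (a, b))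
      (fun x => (enc m E i x.1, x.2))
      ((Fintype.piFinset (fun l : Fin (m + 1) =>
        if l = i then ({E} : Finset ℕ) else Icc 0 (2 * E))) ×ˢ
      (Fintype.piFinset (fun l : Fin (m + 1) => if l = 0 then ({0} : Finset ℕ) else Icc 0 Dn))) T
      (by
        intro x hx
        rw [mem_Par] at hx
        rw [hd x]
        have := hx.1.1 i
        omega)
      (by
        intro x hx
        rw [mem_Par] at hx
        rw [mem_product]
        refine ⟨mem_enc m E i x.1 hx.2.1, ?_⟩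
        rw [Fintype.mem_piFinset]
        intro l
        by_cases h : l = 0
        · subst h
          rw [if_pos rfl, mem_singleton]
          exact hx.2.2.1
        · rw [if_neg h, mem_Icc]
          exact ⟨Nat.zero_le _, hx.1.2 l⟩)
      (by
        intro x hx y hy h4 h5
        rw [mem_Par] at hx hy
        rw [hd x, hd y] at h4
        simp only [Prod.mk.injEq] at h5
        exact Prod.ext (enc_inj m E i x.1 y.1 hx.2.1 hy.2.1 h4 h5.1) h5.2)
    refine h3.trans (mul_le_mul_of_nonneg_right ?_ hS0)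
    rw [card_product, card_enc, card_d1]
    have h6 : (Dn + 1) ^ m ≤ T ^ m := Nat.pow_le_pow_left (by omega) m
    exact_mod_cast Nat.mul_le_mul_left _ h6
  · -- the difference is injective in `d j`
    have hijlt : i < j := by
      have h2 : (a : ℕ) / 2 ≤ (b : ℕ) / 2 := Nat.div_le_div_right hab.le
      rw [Fin.lt_def]
      have h3 : (i : ℕ) = (a : ℕ) / 2 := by rw [hi]
      have h4 : (j : ℕ) = (b : ℕ) / 2 := by rw [hj]
      have h5 : (i : ℕ) ≠ (j : ℕ) := fun h => hij (Fin.ext h)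
      omega
    have hj0 : j ≠ 0 := by
      intro h
      rw [h] at hijlt
      exact absurd hijlt (Fin.not_lt_zero i)
    obtain ⟨ga, hga⟩ : ∃ ga : (Fin (m + 1) → ℕ) → ℕ,
      ga = fun g => if (a : ℕ) % 2 = 1 then g i else 0 := ⟨_, rfl⟩
    obtain ⟨gb, hgb⟩ : ∃ gb : (Fin (m + 1) → ℕ) → ℕ,
      gb = fun g => if (b : ℕ) % 2 = 1 then g j else 0 := ⟨_, rfl⟩
    have hga1 : ∀ g, ga g ≤ g i := by
      intro g; rw [hga]; simp only; split_ifs <;> omega
    have hgb1 : ∀ g, gb g ≤ g j := by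
      intro g; rw [hgb]; simp only; split_ifs <;> omega
    have hd : ∀ x ∈ Par m Gm Dn E, dif (shm m x) (a, b) + x.2 i + ga x.1 = x.2 j + gb x.1 := by
      intro x hx
      rw [mem_Par] at hx
      have h6 := hx.2.2.2 i j hijlt
      have h7 := hga1 x.1
      unfold dif shm
      simp only
      rw [← hi, ← hj]
      have e1 : (if (a : ℕ) % 2 = 1 then x.1 i else 0) = ga x.1 := by rw [hga]
      have e2 : (if (b : ℕ) % 2 = 1 then x.1 j else 0) = gb x.1 := by rw [hgb]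
      rw [e1, e2]
      push_cast
      omega
    have h3 := sum_le_inj (Par m Gm Dn E) F hF (fun x => dif (shm m x) (a, b))
      (fun x => (x.1 0, enc m E 0 x.1, fun l => if l = j then 0 else x.2 l))
      (Icc 1 Gm ×ˢ ((Fintype.piFinset (fun l : Fin (m + 1) =>
        if l = 0 then ({E} : Finset ℕ) else Icc 0 (2 * E))) ×ˢ
      (Fintype.piFinset (fun l : Fin (m + 1) => if l = 0 ∨ l = j then ({0} : Finset ℕ)
        else Icc 0 Dn)))) T
      (by
        intro x hx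
        have h6 := hd x hx
        rw [mem_Par] at hx
        have h7 := hx.2.2.2 i j hijlt
        have h8 := hga1 x.1
        have h9 := hgb1 x.1
        have h10 := hx.1.2 j
        have h11 := hx.1.1 j
        omega)
      (by
        intro x hx
        rw [mem_Par] at hx
        rw [mem_product, mem_product, mem_Icc]
        refine ⟨hx.1.1 0, mem_enc m E 0 x.1 hx.2.1, ?_⟩
        rw [Fintype.mem_piFinset]
        intro l
        by_cases h : l = 0 ∨ l = j
        · rw [if_pos h, mem_singleton]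
          rcases h with h | h
          · subst h
            simp only
            split_ifs
            · rfl
            · exact hx.2.2.1
          · simp only
            rw [if_pos h]
        · rw [if_neg h, mem_Icc]
          simp only
          rw [if_neg (by tauto)]
          exact ⟨Nat.zero_le _, hx.1.2 l⟩)
      (by
        intro x hx y hy h4 h5
        have hdx := hd x hx
        have hdy := hd y hy
        rw [mem_Par] at hx hy
        simp only [Prod.mk.injEq] at h5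
        obtain ⟨h6, h7, h8⟩ := h5
        have h9 := enc_inj m E 0 x.1 y.1 hx.2.1 hy.2.1 h6 h7
        refine Prod.ext h9 ?_
        have h10 : ∀ l, l ≠ j → x.2 l = y.2 l := by
          intro l hl
          have := congrFun h8 l
          rw [if_neg hl, if_neg hl] at this
          exact this
        funext l
        by_cases hl : l = j
        · subst hl
          have h11 := h10 i (ne_of_lt hijlt)
          rw [h9] at hdx
          omega
        · exact h10 l hl)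
    refine h3.trans (mul_le_mul_of_nonneg_right ?_ hS0)
    rw [card_product, card_product, card_enc, Nat.card_Icc, Nat.add_sub_cancel]
    have h6 := card_d2 m Dn j hj0
    obtain ⟨N2, hN2⟩ : ∃ N2 : ℕ, N2 = (Fintype.piFinset (fun l : Fin (m + 1) =>
      if l = 0 ∨ l = j then ({0} : Finset ℕ) else Icc 0 Dn)).card := ⟨_, rfl⟩
    rw [← hN2] at h6 ⊢
    have h7 : Gm * N2 ≤ T ^ m := by
      have hm : 1 ≤ m := by
        by_contra h
        apply hj0
        apply Fin.ext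
        have := j.2
        rw [Fin.val_zero]
        omega
      obtain ⟨m', rfl⟩ : ∃ m', m = m' + 1 := ⟨m - 1, by omega⟩
      have h8 : N2 = (Dn + 1) ^ m' := by
        rw [pow_succ] at h6
        exact Nat.eq_of_mul_eq_mul_right (by omega) h6
      rw [h8, pow_succ, mul_comm]
      exact Nat.mul_le_mul (Nat.pow_le_pow_left (by omega) m') (by omega)
    have h8 : Gm * ((2 * E + 1) ^ m * N2) ≤ (2 * E + 1) ^ m * T ^ m := by
      calc Gm * ((2 * E + 1) ^ m * N2) = (2 * E + 1) ^ m * (Gm * N2) := by ring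
        _ ≤ _ := Nat.mul_le_mul_left _ h7
    exact_mod_cast h8

open Classical in
/-- **crowds of nearly equal gaps are rare** -/
theorem wk_count (m : ℕ) : ∃ C : ℝ, 0 < C ∧ ∃ U0 T0 : ℕ, ∀ U : ℕ, U0 ≤ U → ∀ s Gm Dn E T : ℕ, T0 ≤ T →
    Gm + Dn + 1 ≤ T →
    (((Ioc s (s + U)).filter (fun q => WK m Gm Dn E q)).card : ℝ) ≤
      C * U / Real.log U ^ (2 * (m + 1)) * ((2 * E + 1) ^ m * T ^ (m + 1)) +
      2 * (U : ℝ) ^ (1 / 2 : ℝ) * ((2 * E + 1) ^ m * T ^ (m + 1)) := by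
  obtain ⟨C1, hC1, K1, U0, hcount⟩ := count_le (k := 2 * (m + 1)) (by omega)
  obtain ⟨C2, hC2, T0, hT0, havg⟩ := avgG K1 (2 * (2 * (m + 1)))
  obtain ⟨N, hN⟩ : ∃ N : ℕ, N = (prs (2 * (m + 1))).card := ⟨_, rfl⟩
  refine ⟨C1 * ((N + 1) * C2), by positivity, max U0 3, T0, ?_⟩
  intro U hU s Gm Dn E T hT hGD
  have hU3 : 3 ≤ U := (le_max_right _ _).trans hU
  have hU3r : (3 : ℝ) ≤ U := by exact_mod_cast hU3
  have hlogU : 0 < Real.log U := Real.log_pos (by linarith)
  obtain ⟨y, hy⟩ := hcount U ((le_max_left _ _).trans hU)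
  have hav := havg T hT y
  obtain ⟨F, hF⟩ : ∃ F : ℕ → ℝ, F = G K1 (2 * (2 * (m + 1))) y := ⟨_, rfl⟩
  rw [← hF] at hav
  have hF0 : ∀ h, 0 ≤ F h := fun h => by rw [hF]; exact zero_le_one.trans (one_le_G _ _ _ _)
  have hT0r : (0 : ℝ) ≤ T := Nat.cast_nonneg T
  have hE0 : (0 : ℝ) ≤ E := Nat.cast_nonneg E
  have hsub : (Ioc s (s + U)).filter (fun q => WK m Gm Dn E q) ⊆ (Par m Gm Dn E).biUnion (fun x =>
        (Ioc s (s + U)).filter (fun n => ∀ j, (n + shm m x j).Prime)) := by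
    intro q hq
    rw [mem_filter] at hq
    obtain ⟨hq1, g, d, h1, h2, h3, h4, h5, h6⟩ := hq
    rw [mem_biUnion]
    refine ⟨(g, d), ?_, ?_⟩
    · rw [mem_Par]
      exact ⟨⟨h1, h4⟩, h2, h3, h5⟩
    · rw [mem_filter]
      refine ⟨hq1, ?_⟩
      intro j
      unfold shm
      simp only
      have h7 := h6 ⟨(j : ℕ) / 2, by have := j.2; omega⟩
      split_ifs
      · rw [← add_assoc]
        exact h7.2
      · rw [add_zero]
        exact h7.1
  have hc1 := (card_le_card hsub).trans Finset.card_biUnion_le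
  have hc2 : (((Ioc s (s + U)).filter (fun q => WK m Gm Dn E q)).card : ℝ) ≤
      ∑ x ∈ Par m Gm Dn E, (((Ioc s (s + U)).filter (fun n => ∀ j, (n + shm m x j).Prime)).card : ℝ) := by
    exact_mod_cast hc1
  refine hc2.trans ?_
  obtain ⟨A, hA⟩ : ∃ A : ℝ, A = C1 * U / Real.log U ^ (2 * (m + 1)) := ⟨_, rfl⟩
  have hA0 : 0 ≤ A := by rw [hA]; positivity
  obtain ⟨R, hR⟩ : ∃ R : ℝ, R = 2 * (U : ℝ) ^ (1 / 2 : ℝ) := ⟨_, rfl⟩
  have hR0 : 0 ≤ R := by rw [hR]; positivity
  have h1 : ∀ x ∈ Par m Gm Dn E,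
      (((Ioc s (s + U)).filter (fun n => ∀ j, (n + shm m x j).Prime)).card : ℝ) ≤
      A * ∑ il ∈ prs (2 * (m + 1)), F (dif (shm m x) il) + R := by
    intro x _
    have h2 := hy s (shm m x)
    rw [← hF, ← hA, ← hR] at h2
    exact h2
  refine (Finset.sum_le_sum h1).trans ?_
  rw [Finset.sum_add_distrib, ← Finset.mul_sum, Finset.sum_const, nsmul_eq_mul, Finset.sum_comm]
  have h2 : ∑ il ∈ prs (2 * (m + 1)), ∑ x ∈ Par m Gm Dn E, F (dif (shm m x) il) ≤
      N * ((((2 * E + 1) ^ m * T ^ m : ℕ) : ℝ) * (C2 * T)) := by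
    have h3 : ∀ il ∈ prs (2 * (m + 1)), ∑ x ∈ Par m Gm Dn E, F (dif (shm m x) il) ≤
        (((2 * E + 1) ^ m * T ^ m : ℕ) : ℝ) * (C2 * T) := by
      intro il hil
      exact (pair_sum m Gm Dn E T F hF0 hGD il hil).trans
        (mul_le_mul_of_nonneg_left hav (Nat.cast_nonneg _))
    refine (Finset.sum_le_sum h3).trans (le_of_eq ?_)
    rw [Finset.sum_const, nsmul_eq_mul, hN]
  have h4 : ((Par m Gm Dn E).card : ℝ) ≤ (2 * E + 1) ^ m * T ^ (m + 1) := by
    have h5 := card_Par m Gm Dn E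
    have h6 : Gm * (2 * E + 1) ^ m * (Dn + 1) ^ m ≤ (2 * E + 1) ^ m * T ^ (m + 1) := by
      calc Gm * (2 * E + 1) ^ m * (Dn + 1) ^ m ≤ T * (2 * E + 1) ^ m * T ^ m :=
            Nat.mul_le_mul (Nat.mul_le_mul_right _ (by omega)) (Nat.pow_le_pow_left (by omega) m)
        _ = (2 * E + 1) ^ m * T ^ (m + 1) := by ring
    exact_mod_cast h5.trans h6
  have h5 : A * ∑ il ∈ prs (2 * (m + 1)), ∑ x ∈ Par m Gm Dn E, F (dif (shm m x) il) ≤
      A * (N * ((((2 * E + 1) ^ m * T ^ m : ℕ) : ℝ) * (C2 * T))) := mul_le_mul_of_nonneg_left h2 hA0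
  have h6 : ((Par m Gm Dn E).card : ℝ) * R ≤ ((2 * E + 1) ^ m * T ^ (m + 1)) * R :=
    mul_le_mul_of_nonneg_right h4 hR0
  have e1 : A * (N * ((((2 * E + 1) ^ m * T ^ m : ℕ) : ℝ) * (C2 * T))) =
      N * C2 * (A * ((2 * E + 1) ^ m * T ^ (m + 1))) := by push_cast; ring
  have e2 : C1 * ((N + 1) * C2) * U / Real.log U ^ (2 * (m + 1)) * ((2 * E + 1) ^ m * T ^ (m + 1)) =
      (N + 1) * C2 * (A * ((2 * E + 1) ^ m * (T : ℝ) ^ (m + 1))) := by rw [hA]; ring
  have h7 : (N : ℝ) * C2 * (A * ((2 * E + 1) ^ m * (T : ℝ) ^ (m + 1))) ≤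
      (N + 1) * C2 * (A * ((2 * E + 1) ^ m * (T : ℝ) ^ (m + 1))) := by
    have hC20 : 0 ≤ C2 := by linarith
    gcongr
    linarith
  rw [e2]
  rw [e1] at h5
  have e3 : 2 * (U : ℝ) ^ (1 / 2 : ℝ) * ((2 * E + 1) ^ m * (T : ℝ) ^ (m + 1)) =
      ((2 * E + 1) ^ m * (T : ℝ) ^ (m + 1)) * R := by rw [hR]; ring
  rw [e3]
  linarith

end Pool.Agent.W123.PP.Multi
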