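import Pool.Agent.W123.PP.Quad

set_option autoImplicit false

/-!
# Pairs of nearly equal gaps between primes are rare
-/

namespace Pool.Agent.W123.PP.Quad

open Finset Filter Pool.Agent.H373R2.T7 Pool.Agent.W123.RP Pool.Agent.W123.RU

/-- `q` and a larger prime `q + d` are followed by primes at nearly equal distances `g`, `g'` -/
def W4 (Gm Dn E q : ℕ) : Prop := ∃ g d g' : ℕ, 1 ≤ g ∧ g < d ∧ d ≤ Dn ∧ 1 ≤ g' ∧ g ≤ Gm ∧ g' ≤ Gm ∧
  g ≤ g' + E ∧ g' ≤ g + E ∧ q.Prime ∧ (q + g).Prime ∧ (q + d).Prime ∧ (q + d + g').Prime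

/-- nearly equal pairs -/
def PP2 (Gm E : ℕ) : Finset (ℕ × ℕ) :=
  (Icc 1 Gm ×ˢ Icc 1 Gm).filter (fun gg => gg.1 ≤ gg.2 + E ∧ gg.2 ≤ gg.1 + E)

lemma sum_fst (Gm E : ℕ) (F : ℕ → ℝ) (hF : ∀ h, 0 ≤ F h) :
    ∑ gg ∈ PP2 Gm E, F gg.1 ≤ (2 * E + 1) * ∑ g ∈ Icc 1 Gm, F g := by
  unfold PP2
  rw [Finset.sum_filter, Finset.sum_product, Finset.mul_sum]
  apply Finset.sum_le_sum
  intro g _
  simp only
  rw [← Finset.sum_filter, Finset.sum_const, nsmul_eq_mul]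
  have h1 : ((Icc 1 Gm).filter (fun g' => g ≤ g' + E ∧ g' ≤ g + E)).card ≤ 2 * E + 1 := by
    have h2 : (Icc 1 Gm).filter (fun g' => g ≤ g' + E ∧ g' ≤ g + E) ⊆ Icc (g - E) (g + E) := by
      intro x hx
      rw [mem_filter] at hx
      rw [mem_Icc]
      omega
    refine (card_le_card h2).trans ?_
    rw [Nat.card_Icc]
    omega
  have h3 : (((Icc 1 Gm).filter (fun g' => g ≤ g' + E ∧ g' ≤ g + E)).card : ℝ) ≤ 2 * E + 1 := by
    exact_mod_cast h1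
  exact mul_le_mul_of_nonneg_right h3 (hF g)

lemma sum_snd (Gm E : ℕ) (F : ℕ → ℝ) (hF : ∀ h, 0 ≤ F h) :
    ∑ gg ∈ PP2 Gm E, F gg.2 ≤ (2 * E + 1) * ∑ g ∈ Icc 1 Gm, F g := by
  unfold PP2
  rw [Finset.sum_filter, Finset.sum_product_right, Finset.mul_sum]
  apply Finset.sum_le_sum
  intro g _
  simp only
  rw [← Finset.sum_filter, Finset.sum_const, nsmul_eq_mul]
  have h1 : ((Icc 1 Gm).filter (fun g' => g' ≤ g + E ∧ g ≤ g' + E)).card ≤ 2 * E + 1 := by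
    have h2 : (Icc 1 Gm).filter (fun g' => g' ≤ g + E ∧ g ≤ g' + E) ⊆ Icc (g - E) (g + E) := by
      intro x hx
      rw [mem_filter] at hx
      rw [mem_Icc]
      omega
    refine (card_le_card h2).trans ?_
    rw [Nat.card_Icc]
    omega
  have h3 : (((Icc 1 Gm).filter (fun g' => g' ≤ g + E ∧ g ≤ g' + E)).card : ℝ) ≤ 2 * E + 1 := by
    exact_mod_cast h1
  exact mul_le_mul_of_nonneg_right h3 (hF g)

lemma card_PP2 (Gm E : ℕ) : ((PP2 Gm E).card : ℝ) ≤ (2 * E + 1) * Gm := by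
  have h := sum_fst Gm E (fun _ => 1) (fun _ => zero_le_one)
  rw [Finset.sum_const, Finset.sum_const, nsmul_eq_mul, nsmul_eq_mul, Nat.card_Icc] at h
  simpa using h

lemma sum_inj (F : ℕ → ℝ) (hF : ∀ h, 0 ≤ F h) (D : Finset ℕ) (v : ℕ → ℕ) (T : ℕ)
    (hv : ∀ d ∈ D, 1 ≤ v d ∧ v d ≤ T) (hinj : ∀ d ∈ D, ∀ d' ∈ D, v d = v d' → d = d') :
    ∑ d ∈ D, F (v d) ≤ ∑ h ∈ Icc 1 T, F h := by
  rw [← Finset.sum_image (f := F) (g := v) (fun d hd d' hd' h => hinj d hd d' hd' h)]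
  apply Finset.sum_le_sum_of_subset_of_nonneg
  · intro x hx
    rw [mem_image] at hx
    obtain ⟨d, hd, rfl⟩ := hx
    rw [mem_Icc]
    exact hv d hd
  · intro x _ _
    exact hF x

lemma prs4 : prs 4 = {(0, 1), (0, 2), (0, 3), (1, 2), (1, 3), (2, 3)} := by decide

/-- the shifts -/
def sh (g d g' : ℕ) : Fin 4 → ℕ := ![0, g, d, d + g']

lemma sum_prs4 (F : ℕ → ℝ) (g d g' : ℕ) (hgd : g < d) :
    ∑ il ∈ prs 4, F (dif (sh g d g') il) =
      F g + F d + F (d + g') + F (d - g) + F (d + g' - g) + F g' := by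
  rw [prs4]
  rw [Finset.sum_insert (by decide), Finset.sum_insert (by decide), Finset.sum_insert (by decide),
    Finset.sum_insert (by decide), Finset.sum_insert (by decide), Finset.sum_singleton]
  have e1 : dif (sh g d g') (0, 1) = g := by unfold dif sh; simp
  have e2 : dif (sh g d g') (0, 2) = d := by unfold dif sh; simp
  have e3 : dif (sh g d g') (0, 3) = d + g' := by
    have : dif (sh g d g') (0, 3) = ((0 : ℤ) - ((d + g' : ℕ) : ℤ)).natAbs := by unfold dif sh; simp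
    rw [this]; omega
  have e4 : dif (sh g d g') (1, 2) = d - g := by
    have : dif (sh g d g') (1, 2) = ((g : ℤ) - (d : ℤ)).natAbs := by unfold dif sh; simp
    rw [this]; omega
  have e5 : dif (sh g d g') (1, 3) = d + g' - g := by
    have : dif (sh g d g') (1, 3) = ((g : ℤ) - ((d + g' : ℕ) : ℤ)).natAbs := by unfold dif sh; simp
    rw [this]; omega
  have e6 : dif (sh g d g') (2, 3) = g' := by
    have : dif (sh g d g') (2, 3) = ((d : ℤ) - ((d + g' : ℕ) : ℤ)).natAbs := by unfold dif sh; simp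
    rw [this]; omega
  rw [e1, e2, e3, e4, e5, e6]
  ring

open Classical in
theorem w4_count : ∃ C : ℝ, 0 < C ∧ ∃ U0 T0 : ℕ, ∀ U : ℕ, U0 ≤ U → ∀ s Gm Dn E T : ℕ, T0 ≤ T →
    Gm + Dn ≤ T →
    (((Ioc s (s + U)).filter (fun q => W4 Gm Dn E q)).card : ℝ) ≤
      C * U / Real.log U ^ 4 * ((2 * E + 1) * T ^ 2) + 2 * (U : ℝ) ^ (1 / 2 : ℝ) * ((2 * E + 1) * T ^ 2) := by
  obtain ⟨C1, hC1, K1, U0, hcount⟩ := count_le (k := 4) (by norm_num)
  obtain ⟨C2, hC2, T0, hT0, havg⟩ := avgG K1 (2 * 4)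
  refine ⟨C1 * (6 * C2), by positivity, max U0 3, T0, ?_⟩
  intro U hU s Gm Dn E T hT hGD
  have hU3 : 3 ≤ U := (le_max_right _ _).trans hU
  have hU3r : (3 : ℝ) ≤ U := by exact_mod_cast hU3
  have hlogU : 0 < Real.log U := Real.log_pos (by linarith)
  obtain ⟨y, hy⟩ := hcount U ((le_max_left _ _).trans hU)
  have hav := havg T hT y
  obtain ⟨F, hF⟩ : ∃ F : ℕ → ℝ, F = G K1 (2 * 4) y := ⟨_, rfl⟩
  rw [← hF] at hav
  have hF0 : ∀ h, 0 ≤ F h := fun h => by rw [hF]; exact zero_le_one.trans (one_le_G _ _ _ _)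
  have hT0r : (0 : ℝ) ≤ T := Nat.cast_nonneg T
  have hE0 : (0 : ℝ) ≤ E := Nat.cast_nonneg E
  have hGT : (Gm : ℝ) ≤ T := by exact_mod_cast (by omega : Gm ≤ T)
  have hDT : (Dn : ℝ) ≤ T := by exact_mod_cast (by omega : Dn ≤ T)
  have hsub : (Ioc s (s + U)).filter (fun q => W4 Gm Dn E q) ⊆ (PP2 Gm E).biUnion (fun gg =>
      (Ioc gg.1 Dn).biUnion (fun d =>
        (Ioc s (s + U)).filter (fun m => ∀ i, (m + sh gg.1 d gg.2 i).Prime))) := by
    intro q hq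
    rw [mem_filter] at hq
    obtain ⟨hq1, g, d, g', h1, h2, h3, h4, h5, h6, h7, h8, h9, h10, h11, h12⟩ := hq
    rw [mem_biUnion]
    refine ⟨(g, g'), ?_, ?_⟩
    · unfold PP2
      rw [mem_filter, mem_product, mem_Icc, mem_Icc]
      exact ⟨⟨⟨h1, h5⟩, h4, h6⟩, h7, h8⟩
    · rw [mem_biUnion]
      refine ⟨d, mem_Ioc.2 ⟨h2, h3⟩, ?_⟩
      rw [mem_filter]
      refine ⟨hq1, ?_⟩
      intro i
      unfold sh
      fin_cases i
      · simpa using h9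
      · simpa using h10
      · simpa using h11
      · have e : q + (d + g') = q + d + g' := by ring
        simpa [e] using h12
  have hc1 := (card_le_card hsub).trans (Finset.card_biUnion_le.trans
    (Finset.sum_le_sum fun gg _ => Finset.card_biUnion_le))
  have hc2 : (((Ioc s (s + U)).filter (fun q => W4 Gm Dn E q)).card : ℝ) ≤
      ∑ gg ∈ PP2 Gm E, ∑ d ∈ Ioc gg.1 Dn,
        (((Ioc s (s + U)).filter (fun m => ∀ i, (m + sh gg.1 d gg.2 i).Prime)).card : ℝ) := by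
    exact_mod_cast hc1
  refine hc2.trans ?_
  obtain ⟨A, hA⟩ : ∃ A : ℝ, A = C1 * U / Real.log U ^ 4 := ⟨_, rfl⟩
  have hA0 : 0 ≤ A := by rw [hA]; positivity
  obtain ⟨R, hR⟩ : ∃ R : ℝ, R = 2 * (U : ℝ) ^ (1 / 2 : ℝ) := ⟨_, rfl⟩
  have hR0 : 0 ≤ R := by rw [hR]; positivity
  have hinner : ∀ gg ∈ PP2 Gm E, ∑ d ∈ Ioc gg.1 Dn,
        (((Ioc s (s + U)).filter (fun m => ∀ i, (m + sh gg.1 d gg.2 i).Prime)).card : ℝ) ≤
      A * (T * F gg.1 + T * F gg.2 + 4 * (C2 * T)) + T * R := by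
    intro gg hgg
    unfold PP2 at hgg
    rw [mem_filter, mem_product, mem_Icc, mem_Icc] at hgg
    obtain ⟨⟨⟨a1, a2⟩, a3, a4⟩, a5, a6⟩ := hgg
    have hcardD : ((Ioc gg.1 Dn).card : ℝ) ≤ T := by
      rw [Nat.card_Ioc]
      refine le_trans ?_ hDT
      exact_mod_cast Nat.sub_le _ _
    have h1 : ∀ d ∈ Ioc gg.1 Dn,
        (((Ioc s (s + U)).filter (fun m => ∀ i, (m + sh gg.1 d gg.2 i).Prime)).card : ℝ) ≤
        A * (F gg.1 + F d + F (d + gg.2) + F (d - gg.1) + F (d + gg.2 - gg.1) + F gg.2) + R := by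
      intro d hd
      rw [mem_Ioc] at hd
      have h2 := hy s (sh gg.1 d gg.2)
      rw [sum_prs4 _ gg.1 d gg.2 hd.1, ← hF, ← hA, ← hR] at h2
      exact h2
    refine (Finset.sum_le_sum h1).trans ?_
    rw [Finset.sum_add_distrib, ← Finset.mul_sum, Finset.sum_const, nsmul_eq_mul]
    have h3 : ∑ d ∈ Ioc gg.1 Dn,
        (F gg.1 + F d + F (d + gg.2) + F (d - gg.1) + F (d + gg.2 - gg.1) + F gg.2) ≤
        T * F gg.1 + T * F gg.2 + 4 * (C2 * T) := by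
      rw [Finset.sum_add_distrib, Finset.sum_add_distrib, Finset.sum_add_distrib,
        Finset.sum_add_distrib, Finset.sum_add_distrib, Finset.sum_const, Finset.sum_const,
        nsmul_eq_mul, nsmul_eq_mul]
      have i1 : ∑ d ∈ Ioc gg.1 Dn, F d ≤ C2 * T := (sum_inj F hF0 (Ioc gg.1 Dn) (fun d => d) T
        (fun d hd => by rw [mem_Ioc] at hd; omega) (fun d _ d' _ h => h)).trans hav
      have i2 : ∑ d ∈ Ioc gg.1 Dn, F (d + gg.2) ≤ C2 * T :=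
        (sum_inj F hF0 (Ioc gg.1 Dn) (fun d => d + gg.2) T
        (fun d hd => by rw [mem_Ioc] at hd; omega) (fun d _ d' _ h => by omega)).trans hav
      have i3 : ∑ d ∈ Ioc gg.1 Dn, F (d - gg.1) ≤ C2 * T :=
        (sum_inj F hF0 (Ioc gg.1 Dn) (fun d => d - gg.1) T
        (fun d hd => by rw [mem_Ioc] at hd; omega) (fun d hd d' hd' h => by
          rw [mem_Ioc] at hd hd'; omega)).trans hav
      have i4 : ∑ d ∈ Ioc gg.1 Dn, F (d + gg.2 - gg.1) ≤ C2 * T :=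
        (sum_inj F hF0 (Ioc gg.1 Dn) (fun d => d + gg.2 - gg.1) T
        (fun d hd => by rw [mem_Ioc] at hd; omega) (fun d hd d' hd' h => by
          rw [mem_Ioc] at hd hd'; omega)).trans hav
      have i5 : ((Ioc gg.1 Dn).card : ℝ) * F gg.1 ≤ T * F gg.1 :=
        mul_le_mul_of_nonneg_right hcardD (hF0 _)
      have i6 : ((Ioc gg.1 Dn).card : ℝ) * F gg.2 ≤ T * F gg.2 :=
        mul_le_mul_of_nonneg_right hcardD (hF0 _)
      linarith
    have h4 : A * ∑ d ∈ Ioc gg.1 Dn,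
        (F gg.1 + F d + F (d + gg.2) + F (d - gg.1) + F (d + gg.2 - gg.1) + F gg.2) ≤
        A * (T * F gg.1 + T * F gg.2 + 4 * (C2 * T)) := mul_le_mul_of_nonneg_left h3 hA0
    have h5 : ((Ioc gg.1 Dn).card : ℝ) * R ≤ T * R := mul_le_mul_of_nonneg_right hcardD hR0
    linarith
  refine (Finset.sum_le_sum hinner).trans ?_
  rw [Finset.sum_add_distrib, ← Finset.mul_sum, Finset.sum_add_distrib, Finset.sum_add_distrib,
    ← Finset.mul_sum, ← Finset.mul_sum, Finset.sum_const, Finset.sum_const, nsmul_eq_mul,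
    nsmul_eq_mul]
  have hcard : ((PP2 Gm E).card : ℝ) ≤ (2 * E + 1) * T :=
    (card_PP2 Gm E).trans (by gcongr)
  have hsubG : ∑ g ∈ Icc 1 Gm, F g ≤ C2 * T := by
    refine le_trans ?_ hav
    apply Finset.sum_le_sum_of_subset_of_nonneg
    · exact Finset.Icc_subset_Icc_right (by omega)
    · intro x _ _; exact hF0 x
  have j1 : ∑ gg ∈ PP2 Gm E, F gg.1 ≤ (2 * E + 1) * (C2 * T) :=
    (sum_fst Gm E F hF0).trans (by gcongr)
  have j2 : ∑ gg ∈ PP2 Gm E, F gg.2 ≤ (2 * E + 1) * (C2 * T) :=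
    (sum_snd Gm E F hF0).trans (by gcongr)
  have hC20 : 0 ≤ C2 := by linarith
  have j3 : (T : ℝ) * ∑ gg ∈ PP2 Gm E, F gg.1 ≤ T * ((2 * E + 1) * (C2 * T)) := by gcongr
  have j4 : (T : ℝ) * ∑ gg ∈ PP2 Gm E, F gg.2 ≤ T * ((2 * E + 1) * (C2 * T)) := by gcongr
  have j5 : ((PP2 Gm E).card : ℝ) * (4 * (C2 * T)) ≤ ((2 * E + 1) * T) * (4 * (C2 * T)) := by gcongr
  have j6 : ((PP2 Gm E).card : ℝ) * (T * R) ≤ ((2 * E + 1) * T) * (T * R) := by gcongr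
  have j7 : A * ((T : ℝ) * ∑ gg ∈ PP2 Gm E, F gg.1 + T * ∑ gg ∈ PP2 Gm E, F gg.2 +
      ((PP2 Gm E).card : ℝ) * (4 * (C2 * T))) ≤ A * (6 * C2 * ((2 * E + 1) * T ^ 2)) := by
    apply mul_le_mul_of_nonneg_left _ hA0
    have : 6 * C2 * ((2 * E + 1) * (T : ℝ) ^ 2) = T * ((2 * E + 1) * (C2 * T)) +
      T * ((2 * E + 1) * (C2 * T)) + ((2 * E + 1) * T) * (4 * (C2 * T)) := by ring
    rw [this]
    linarith
  have e1 : C1 * (6 * C2) * U / Real.log U ^ 4 * ((2 * E + 1) * (T : ℝ) ^ 2) =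
      A * (6 * C2 * ((2 * E + 1) * T ^ 2)) := by rw [hA]; ring
  have e2 : 2 * (U : ℝ) ^ (1 / 2 : ℝ) * ((2 * E + 1) * (T : ℝ) ^ 2) = ((2 * E + 1) * T) * (T * R) := by
    rw [hR]; ring
  rw [e1, e2]
  linarith

end Pool.Agent.W123.PP.Quad
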