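import Pool.Agent.W123.PP.Vit
import Pool.Agent.W123.PP.QuadSum
import Pool.Agent.W123.PP.Local

set_option autoImplicit false

/-!
# One window: a concentration of gaps gives many pairs of nearly equal gaps
-/

namespace Pool.Agent.W123.PP.NoCon

open Finset Pool.Agent.W123.PP.Quad Pool.Agent.W123.PP.Vit Pool.Agent.W123.RP

/-- the distance of `q` from the next prime -/
noncomputable def gp (q : ℕ) : ℕ := sInf {d : ℕ | 0 < d ∧ (q + d).Prime}

lemma gp_spec (q : ℕ) : 0 < gp q ∧ (q + gp q).Prime := by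
  have h : {d : ℕ | 0 < d ∧ (q + d).Prime}.Nonempty := by
    obtain ⟨p, hp1, hp2⟩ := Nat.exists_infinite_primes (q + 1)
    exact ⟨p - q, by omega, by rw [Nat.add_sub_cancel' (by omega)]; exact hp2⟩
  exact Nat.sInf_mem h

lemma gp_le (q q' : ℕ) (h : q < q') (hp : q'.Prime) : q + gp q ≤ q' := by
  have h1 : q' - q ∈ {d : ℕ | 0 < d ∧ (q + d).Prime} := by
    refine ⟨by omega, ?_⟩
    rw [Nat.add_sub_cancel' (by omega)]
    exact hp
  have h2 : gp q ≤ q' - q := Nat.sInf_le h1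
  omega

open Classical in
/-- the primes of `(a, b]` with gap in `[x, y]` -/
noncomputable def Con (a b : ℕ) (x y : ℝ) : Finset ℕ :=
  (Ioc a b).filter (fun q => q.Prime ∧ x ≤ (gp q : ℝ) ∧ (gp q : ℝ) ≤ y)

lemma mem_Con (a b : ℕ) (x y : ℝ) (q : ℕ) : q ∈ Con a b x y ↔
    (a < q ∧ q ≤ b) ∧ q.Prime ∧ x ≤ (gp q : ℝ) ∧ (gp q : ℝ) ≤ y := by
  unfold Con
  rw [mem_filter, mem_Ioc]

/-- large gaps are few -/
lemma con_large (a b m : ℕ) (x y : ℝ) (hm : 1 ≤ m) (hmx : (m : ℝ) ≤ x) :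
    (Con a b x y).card ≤ (b - a) / m + 2 := by
  apply few_sep _ a b m hm
  · intro q hq
    rw [mem_Con] at hq
    exact hq.1
  · intro q hq q' hq' hqq
    rw [mem_Con] at hq hq'
    have h1 := gp_le q q' hqq hq'.2.1
    have h2 : (m : ℝ) ≤ gp q := hmx.trans hq.2.2.1
    have h3 : m ≤ gp q := by exact_mod_cast h2
    omega

open Classical in
/-- a concentration of small gaps -/
lemma con_small (a b M Gm E : ℕ) (x y : ℝ) (hM : 1 ≤ M) (hG : y < Gm + 1) (hE : y - x < E + 1) :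
    (Con a b x y).card ≤ 2 * ((b - a) / M + 2) +
      ((Ioc a b).filter (fun q => W4 Gm M E q)).card := by
  have h1 := few_uncrowded (Con a b x y) a b M hM (fun q hq => ((mem_Con a b x y q).1 hq).1)
  have h2 := Finset.card_filter_add_card_filter_not (s := Con a b x y)
    (fun q => ∃ q' ∈ Con a b x y, ∃ q'' ∈ Con a b x y, q < q' ∧ q' < q'' ∧ q'' < q + M)
  have h3 : ((Con a b x y).filter (fun q => ∃ q' ∈ Con a b x y, ∃ q'' ∈ Con a b x y,
      q < q' ∧ q' < q'' ∧ q'' < q + M)).card ≤ ((Ioc a b).filter (fun q => W4 Gm M E q)).card := by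
    apply card_le_card
    intro q hq
    rw [mem_filter] at hq
    obtain ⟨hq0, q', hq1, q'', hq2, h5, h6, h7⟩ := hq
    rw [mem_Con] at hq0 hq1 hq2
    obtain ⟨hq01, hq02, hq03, hq04⟩ := hq0
    obtain ⟨hq11, hq12, hq13, hq14⟩ := hq1
    obtain ⟨hq21, hq22, hq23, hq24⟩ := hq2
    rw [mem_filter, mem_Ioc]
    refine ⟨hq01, gp q, q'' - q, gp q'', ?_⟩
    obtain ⟨g1, g2⟩ := gp_spec q
    obtain ⟨g3, g4⟩ := gp_spec q''
    have g5 := gp_le q q' h5 hq12
    have g6 : (gp q : ℝ) < Gm + 1 := by linarith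
    have g7 : (gp q'' : ℝ) < Gm + 1 := by linarith
    have g8 : (gp q : ℝ) < gp q'' + E + 1 := by linarith
    have g9 : (gp q'' : ℝ) < gp q + E + 1 := by linarith
    have g6' : gp q < Gm + 1 := by exact_mod_cast g6
    have g7' : gp q'' < Gm + 1 := by exact_mod_cast g7
    have g8' : gp q < gp q'' + E + 1 := by exact_mod_cast g8
    have g9' : gp q'' < gp q + E + 1 := by exact_mod_cast g9
    have e1 : q + (q'' - q) = q'' := by omega
    refine ⟨g1, by omega, by omega, g3, by omega, by omega, by omega, by omega, hq02, g2, ?_, ?_⟩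
    · rw [e1]; exact hq22
    · rw [e1]; exact g4
  omega

open Classical in
/-- one window: if `s + t` is large, the primes of the window are at least `c1 (s + t) / L` and the
pairs of nearly equal gaps are few, then there is no concentration of gaps -/
theorem window (ε c1 c L Lm D : ℝ) (a b ℓ Gm M E : ℕ) (hε : 0 < ε) (hc1 : 0 < c1) (hL : 2 ≤ L)
    (hc : 0 < c) (hc1' : c ≤ 1)
    (hba : b - a ≤ ℓ) (hℓ : L ≤ c * ℓ) (hcs : 16 * c ≤ ε * c1)
    (hLm : 16 ≤ ε * c1 * Lm) (hLm1 : 1 ≤ Lm) (hD : 32 ≤ ε * c1 * D) (hD1 : 1 ≤ D)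
    (hGm : Gm = ⌊(Lm + 1) * L⌋₊) (hM : M = ⌊D * L⌋₊) (hE : E = ⌊c * L⌋₊)
    (hlow : c1 * ℓ / L ≤ (co Nat.Prime a b : ℝ))
    (hW : (((Ioc a b).filter (fun q => W4 Gm M E q)).card : ℝ) ≤ ε * c1 / 4 * ℓ / L) (lam : ℝ) :
    ((Con a b (lam * L) ((lam + c) * L)).card : ℝ) ≤ ε * (co Nat.Prime a b : ℝ) := by
  have hL0 : 0 < L := by linarith
  have hεc : 0 < ε * c1 := by positivity
  have hmain : ((Con a b (lam * L) ((lam + c) * L)).card : ℝ) ≤ ε * c1 * ℓ / L → 
      ((Con a b (lam * L) ((lam + c) * L)).card : ℝ) ≤ ε * (co Nat.Prime a b : ℝ) := by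
    intro h
    refine h.trans ?_
    calc ε * c1 * ℓ / L = ε * (c1 * ℓ / L) := by ring
      _ ≤ _ := by gcongr
  apply hmain
  have hℓ0 : (0 : ℝ) ≤ ℓ := Nat.cast_nonneg ℓ
  have hdiv : ∀ (x : ℝ) (m : ℕ), 1 ≤ x → m = ⌊x * L⌋₊ →
      (((b - a) / m : ℕ) : ℝ) ≤ 2 * ℓ / (x * L) ∧ 1 ≤ m ∧ (m : ℝ) ≤ x * L := by
    intro x m hx hm
    have hxL : 2 ≤ x * L := by nlinarith
    have h1 : (m : ℝ) ≤ x * L := by rw [hm]; exact Nat.floor_le (by linarith)
    have h2 : x * L < m + 1 := by rw [hm]; exact Nat.lt_floor_add_one _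
    have h3 : x * L / 2 ≤ m := by linarith
    have h4 : (1 : ℝ) < (m : ℝ) + 1 := by linarith
    have h5 : (0 : ℝ) < m := by linarith
    refine ⟨?_, by exact_mod_cast h5, h1⟩
    calc (((b - a) / m : ℕ) : ℝ) ≤ ((b - a : ℕ) : ℝ) / m := Nat.cast_div_le
      _ ≤ (ℓ : ℝ) / m := by gcongr
      _ ≤ (ℓ : ℝ) / (x * L / 2) := by gcongr
      _ = 2 * ℓ / (x * L) := by field_simp
  have h2' : 1 ≤ c * ℓ / L := by rw [le_div_iff₀ hL0]; linarith
  rcases le_or_gt lam Lm with hlam | hlam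
  · obtain ⟨d1, d2, d3⟩ := hdiv D M hD1 hM
    have hG : (lam + c) * L < Gm + 1 := by
      have : (lam + c) * L ≤ (Lm + 1) * L := by gcongr
      refine this.trans_lt ?_
      rw [hGm]
      exact Nat.lt_floor_add_one _
    have hE' : (lam + c) * L - lam * L < E + 1 := by
      have : (lam + c) * L - lam * L = c * L := by ring
      rw [this, hE]
      exact Nat.lt_floor_add_one _
    have h1 := con_small a b M Gm E (lam * L) ((lam + c) * L) d2 hG hE'
    have h2 : ((Con a b (lam * L) ((lam + c) * L)).card : ℝ) ≤ 2 * ((((b - a) / M : ℕ) : ℝ) + 2) +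
        (((Ioc a b).filter (fun q => W4 Gm M E q)).card : ℝ) := by
      exact_mod_cast h1
    have h3 : 2 * (2 * (ℓ : ℝ) / (D * L)) ≤ ε * c1 / 8 * (ℓ / L) := by
      have hD0 : D ≠ 0 := by linarith
      have : 2 * (2 * (ℓ : ℝ) / (D * L)) = 4 / D * (ℓ / L) := by field_simp; ring
      rw [this]
      refine mul_le_mul_of_nonneg_right ?_ (by positivity)
      rw [div_le_iff₀ (by linarith)]
      linarith
    have h4 : 4 * (c * ℓ / L) ≤ ε * c1 / 4 * (ℓ / L) := by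
      have : 4 * (c * ℓ / L) = 4 * c * (ℓ / L) := by ring
      rw [this]
      refine mul_le_mul_of_nonneg_right ?_ (by positivity)
      linarith
    have e1 : ε * c1 * ℓ / L = ε * c1 / 8 * (ℓ / L) + ε * c1 / 4 * (ℓ / L) + ε * c1 / 4 * (ℓ / L) +
      3 * (ε * c1) / 8 * (ℓ / L) := by ring
    have e2 : ε * c1 / 4 * ℓ / L = ε * c1 / 4 * (ℓ / L) := by ring
    rw [e2] at hW
    rw [e1]
    have h5 : 0 ≤ 3 * (ε * c1) / 8 * (ℓ / L) := by positivity
    linarith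
  · obtain ⟨m, hm⟩ : ∃ m : ℕ, m = ⌊Lm * L⌋₊ := ⟨_, rfl⟩
    obtain ⟨d1, d2, d3⟩ := hdiv Lm m hLm1 hm
    have hmx : (m : ℝ) ≤ lam * L := d3.trans (by gcongr)
    have h1 := con_large a b m (lam * L) ((lam + c) * L) d2 hmx
    have h2 : ((Con a b (lam * L) ((lam + c) * L)).card : ℝ) ≤ (((b - a) / m : ℕ) : ℝ) + 2 := by
      exact_mod_cast h1
    have h3 : 2 * (ℓ : ℝ) / (Lm * L) ≤ ε * c1 / 4 * (ℓ / L) := by
      have hD0 : Lm ≠ 0 := by linarith
      have : 2 * (ℓ : ℝ) / (Lm * L) = 2 / Lm * (ℓ / L) := by field_simp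
      rw [this]
      refine mul_le_mul_of_nonneg_right ?_ (by positivity)
      rw [div_le_iff₀ (by linarith)]
      linarith
    have h4 : 2 * (c * ℓ / L) ≤ ε * c1 / 4 * (ℓ / L) := by
      have : 2 * (c * ℓ / L) = 2 * c * (ℓ / L) := by ring
      rw [this]
      refine mul_le_mul_of_nonneg_right ?_ (by positivity)
      linarith
    have e1 : ε * c1 * ℓ / L = ε * c1 / 4 * (ℓ / L) + ε * c1 / 4 * (ℓ / L) +
      (ε * c1) / 2 * (ℓ / L) := by ring
    rw [e1]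
    have h5 : 0 ≤ (ε * c1) / 2 * (ℓ / L) := by positivity
    linarith

end Pool.Agent.W123.PP.NoCon
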