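import Pool.Agent.W123.PP.Win

set_option autoImplicit false

/-!
# From windows to the distances of the neighbours
-/

namespace Pool.Agent.W123.PP

open Finset Filter Pool.Agent.W123.RP Pool.Agent.W123.GS Pool.Agent.H357R2.SI

/-- the `n`-th prime, `pr 0 = 2` -/
noncomputable abbrev pr (n : ℕ) : ℕ := Nat.nth Nat.Prime n

lemma pr_prime (n : ℕ) : (pr n).Prime := Nat.nth_mem_of_infinite Nat.infinite_setOfPred_prime n

lemma count_pr (n : ℕ) : Nat.count Nat.Prime (pr n) = n :=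
  Nat.count_nth_of_infinite Nat.infinite_setOfPred_prime n

lemma count_cl (a b : ℕ) (h : a ≤ b) :
    Nat.count Nat.Prime b = Nat.count Nat.Prime a + cl Nat.Prime a b := by
  rw [Nat.count_eq_card_filter_range, Nat.count_eq_card_filter_range]
  unfold cl
  rw [← card_union_of_disjoint]
  · congr 1
    ext x
    simp only [mem_filter, mem_range, mem_union, mem_Ico]
    constructor
    · rintro ⟨h1, h2⟩
      rcases Nat.lt_or_ge x a with h3 | h3
      · exact Or.inl ⟨h3, h2⟩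
      · exact Or.inr ⟨⟨h3, h1⟩, h2⟩
    · rintro (⟨h1, h2⟩ | ⟨⟨h1, h2⟩, h3⟩)
      · exact ⟨by omega, h2⟩
      · exact ⟨h2, h3⟩
  · rw [Finset.disjoint_left]
    intro x hx hx'
    simp only [mem_filter, mem_range, mem_Ico] at hx hx'
    omega

lemma count_pr_succ (n : ℕ) : Nat.count Nat.Prime (pr n + 1) = n + 1 := by
  rw [Nat.count_succ, count_pr, if_pos (pr_prime n)]

/-- enough primes in `[p, p + M)` -/
lemma pr_add_lt (n k M : ℕ) (h : k + 1 ≤ cl Nat.Prime (pr n) (pr n + M)) :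
    pr (n + k) < pr n + M := by
  apply Nat.nth_lt_of_lt_count
  rw [count_cl (pr n) (pr n + M) (by omega), count_pr]
  omega

/-- enough primes in `[p + 1 - M, p]` -/
lemma pr_sub_ge (n k M : ℕ) (h : k + 1 ≤ cl Nat.Prime (pr n + 1 - M) (pr n + 1)) :
    k ≤ n ∧ pr n + 1 ≤ pr (n - k) + M := by
  have h1 := count_cl (pr n + 1 - M) (pr n + 1) (by omega)
  rw [count_pr_succ] at h1
  refine ⟨by omega, ?_⟩
  have h3 : Nat.count Nat.Prime (pr n + 1 - M) ≤ n - k := by omega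
  have h2 : pr n + 1 - M ≤ pr (n - k) :=
    (Nat.count_le_iff_le_nth Nat.infinite_setOfPred_prime).1 h3
  omega

lemma co_pr (n k : ℕ) : co Nat.Prime (pr n) (pr (n + k)) = k := by
  have h0 : pr n ≤ pr (n + k) := Nat.nth_monotone Nat.infinite_setOfPred_prime (by omega)
  have h1 := count_cl (pr n + 1) (pr (n + k) + 1) (by omega)
  rw [count_pr_succ, count_pr_succ] at h1
  have h2 : cl Nat.Prime (pr n + 1) (pr (n + k) + 1) = co Nat.Prime (pr n) (pr (n + k)) :=
    cl_succ _ _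
  omega

lemma pr_lt (n k : ℕ) (hk : 1 ≤ k) : pr n < pr (n + k) :=
  Nat.nth_strictMono Nat.infinite_setOfPred_prime (by omega)

/-- distances of the neighbours from windows -/
lemma near_of (n Y k : ℕ) (L c0 Lam η : ℝ) (hL2 : 2 ≤ L) (hc0 : 0 < c0)
    (hLam : 0 < Lam) (hη : 0 < η) (hTY : L ≤ Y)
    (hw1 : ∀ H : ℕ, 1 ≤ H → H ≤ Y →
          c0 / L * H ≤ cl Nat.Prime (pr n) (pr n + H) ∧
          c0 / L * H ≤ cl Nat.Prime (pr n + 1 - H) (pr n + 1))
    (hw2 : ∀ H : ℕ, ⌊L⌋₊ ≤ H → H ≤ Y →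
          (co Nat.Prime (pr n) (pr n + H) : ℝ) ≤ Lam / L * H ∧
          (co Nat.Prime (pr n - H) (pr n) : ℝ) ≤ Lam / L * H)
    (hcl : ∀ h : ℕ, 1 ≤ h → h ≤ ⌊η * L⌋₊ → ¬ (pr n + h).Prime ∧ ¬ (h ≤ pr n ∧ (pr n - h).Prime))
    (hk1 : 1 ≤ k) (hkY : (k + 1 : ℝ) * L / c0 + 1 ≤ Y) :
    min (1 / Lam) (η / Lam) * k * L ≤ (pr (n + k) : ℝ) - pr n ∧
    (pr (n + k) : ℝ) - pr n ≤ 2 / c0 * k * L ∧ k ≤ n ∧
    min (1 / Lam) (η / Lam) * k * L ≤ (pr n : ℝ) - pr (n - k) ∧
    (pr n : ℝ) - pr (n - k) ≤ 2 / c0 * k * L := by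
  have hL0 : 0 < L := by linarith
  have hk1r : (1 : ℝ) ≤ k := by exact_mod_cast hk1
  obtain ⟨M, hM⟩ : ∃ M : ℕ, M = ⌈(k + 1 : ℝ) * L / c0⌉₊ := ⟨_, rfl⟩
  have hMpos : 0 < (k + 1 : ℝ) * L / c0 := by positivity
  have hM1 : (k + 1 : ℝ) * L / c0 ≤ M := by rw [hM]; exact Nat.le_ceil _
  have hM2 : (M : ℝ) < (k + 1 : ℝ) * L / c0 + 1 := by rw [hM]; exact Nat.ceil_lt_add_one hMpos.le
  have hM0 : 1 ≤ M := by
    have : (0 : ℝ) < M := by linarith
    exact_mod_cast this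
  have hMY : M ≤ Y := by
    have : (M : ℝ) ≤ Y := by linarith
    exact_mod_cast this
  obtain ⟨w1, w2⟩ := hw1 M hM0 hMY
  have hkM : ((k + 1 : ℕ) : ℝ) ≤ c0 / L * M := by
    rw [div_le_iff₀ hc0] at hM1
    rw [div_mul_eq_mul_div, le_div_iff₀ hL0]
    push_cast
    linarith
  have h1 : k + 1 ≤ cl Nat.Prime (pr n) (pr n + M) := by exact_mod_cast hkM.trans w1
  have h2 : k + 1 ≤ cl Nat.Prime (pr n + 1 - M) (pr n + 1) := by exact_mod_cast hkM.trans w2
  have r1 := pr_add_lt n k M h1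
  obtain ⟨hkn, r2⟩ := pr_sub_ge n k M h2
  have e2k : (k + 1 : ℝ) * L / c0 ≤ 2 / c0 * k * L := by
    have : (k + 1 : ℝ) ≤ 2 * k := by linarith
    calc (k + 1 : ℝ) * L / c0 ≤ (2 * k) * L / c0 := by gcongr
      _ = _ := by ring
  have hT1 : (⌊L⌋₊ : ℝ) ≤ L := Nat.floor_le hL0.le
  have hTY' : ⌊L⌋₊ ≤ Y := by
    have : (⌊L⌋₊ : ℝ) ≤ Y := by linarith
    exact_mod_cast this
  have hηT : η * L < (⌊η * L⌋₊ : ℝ) + 1 := Nat.lt_floor_add_one _
  -- the common lower bound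
  have key : ∀ H : ℕ, 1 ≤ H → H ≤ Y → (⌊L⌋₊ ≤ H → (k : ℝ) ≤ Lam / L * H) →
      (H ≤ ⌊L⌋₊ → (k : ℝ) ≤ Lam / L * ⌊L⌋₊) → ⌊η * L⌋₊ < H →
      min (1 / Lam) (η / Lam) * k * L ≤ H := by
    intro H hH1 hHY ha hb hηH
    rcases le_total ⌊L⌋₊ H with h | h
    · have h3 := ha h
      rw [div_mul_eq_mul_div, le_div_iff₀ hL0] at h3
      calc min (1 / Lam) (η / Lam) * k * L ≤ 1 / Lam * k * L := by
            gcongr; exact min_le_left _ _
        _ = (k * L) / Lam := by ring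
        _ ≤ (Lam * H) / Lam := by gcongr
        _ = H := by field_simp
    · have h3 := hb h
      have h4 : (k : ℝ) ≤ Lam := by
        refine h3.trans ?_
        rw [div_mul_eq_mul_div, div_le_iff₀ hL0]
        gcongr
      have h5 : η * L ≤ H := by
        have : ((⌊η * L⌋₊ + 1 : ℕ) : ℝ) ≤ H := by exact_mod_cast hηH
        push_cast at this
        linarith
      calc min (1 / Lam) (η / Lam) * k * L ≤ η / Lam * k * L := by
            gcongr; exact min_le_right _ _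
        _ ≤ η / Lam * Lam * L := by gcongr
        _ = η * L := by field_simp
        _ ≤ H := h5
  refine ⟨?_, ?_, hkn, ?_, ?_⟩
  · obtain ⟨H, hH⟩ : ∃ H, pr (n + k) = pr n + H := ⟨pr (n + k) - pr n, by have := pr_lt n k hk1; omega⟩
    have hlt := pr_lt n k hk1
    have hco := co_pr n k
    rw [hH] at hco r1 hlt
    have h3 := key H (by omega) (by omega) (fun hT => ?_) (fun hT => ?_) ?_
    · rw [hH]; push_cast; linarith
    · have := (hw2 H hT (by omega)).1
      rw [hco] at this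
      exact this
    · have h4 := (hw2 ⌊L⌋₊ le_rfl hTY').1
      have h5 : co Nat.Prime (pr n) (pr n + H) ≤ co Nat.Prime (pr n) (pr n + ⌊L⌋₊) := co_mono (by omega)
      rw [hco] at h5
      have h6 : (k : ℝ) ≤ co Nat.Prime (pr n) (pr n + ⌊L⌋₊) := by exact_mod_cast h5
      exact h6.trans h4
    · by_contra hcon
      rw [not_lt] at hcon
      have := (hcl H (by omega) hcon).1
      rw [← hH] at this
      exact this (pr_prime _)
  · have : (pr (n + k) : ℝ) + 1 ≤ pr n + M := by exact_mod_cast r1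
    linarith
  · obtain ⟨m, hm⟩ : ∃ m, n = m + k := ⟨n - k, by omega⟩
    have hmk : n - k = m := by omega
    rw [hmk] at r2 ⊢
    have hlt := pr_lt m k hk1
    have hco := co_pr m k
    rw [← hm] at hco hlt
    obtain ⟨H, hH⟩ : ∃ H, pr n = pr m + H := ⟨pr n - pr m, by omega⟩
    have hmH : pr m = pr n - H := by omega
    have h3 := key H (by omega) (by omega) (fun hT => ?_) (fun hT => ?_) ?_
    · rw [hH]; push_cast; linarith
    · have := (hw2 H hT (by omega)).2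
      rw [← hmH, hco] at this
      exact this
    · have h4 := (hw2 ⌊L⌋₊ le_rfl hTY').2
      have h5 : co Nat.Prime (pr m) (pr n) ≤ co Nat.Prime (pr n - ⌊L⌋₊) (pr n) := by
        rw [hmH]; exact co_anti (by omega)
      rw [hco] at h5
      have h6 : (k : ℝ) ≤ co Nat.Prime (pr n - ⌊L⌋₊) (pr n) := by exact_mod_cast h5
      exact h6.trans h4
    · by_contra hcon
      rw [not_lt] at hcon
      have := (hcl H (by omega) hcon).2
      apply this
      refine ⟨by omega, ?_⟩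
      rw [← hmH]
      exact pr_prime _
  · have : (pr n : ℝ) + 1 ≤ pr (n - k) + M := by exact_mod_cast r2
    linarith

/-- the linear law at a good scale -/
lemma linear_of (n Y j j' : ℕ) (L c0 Lam δ δ' : ℝ) (hL0 : 0 < L) (hc0 : 0 < c0)
    (hδ1 : δ' ≤ c0 / 4) (hδ2 : δ' ≤ δ * c0 ^ 2 / 16)
    (hδ0 : 0 < δ')
    (hw1 : ∀ H : ℕ, 1 ≤ H → H ≤ Y → c0 / L * H ≤ cl Nat.Prime (pr n) (pr n + H))
    (hg : Good Nat.Prime 0 Lam δ' L (pr n) j') (hDY : 2 ^ j' ≤ Y)
    (hD1 : 2 / c0 * 2 ^ j * L ≤ 2 ^ j') (hD2 : (2 : ℝ) ^ j' ≤ 4 / c0 * 2 ^ j * L)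
    (hup : ∀ k : ℕ, 1 ≤ k → k ≤ 2 ^ j → (pr (n + k) : ℝ) - pr n ≤ 2 / c0 * k * L ∧ k ≤ n ∧
      (pr n : ℝ) - pr (n - k) ≤ 2 / c0 * k * L) :
    ∃ lam : ℝ, 1 / Lam ≤ lam ∧ lam ≤ 4 / c0 ∧ ∀ k : ℕ, k ≤ 2 ^ j →
      |(pr (n + k) : ℝ) - pr n - lam * k * L| ≤ δ * 2 ^ j * L ∧
      |(pr n : ℝ) - pr (n - k) - lam * k * L| ≤ δ * 2 ^ j * L := by
  obtain ⟨θ, hθ1, hθ2, hθ⟩ := hg
  obtain ⟨D, hD⟩ : ∃ D : ℕ, D = 2 ^ j' := ⟨_, rfl⟩
  have hDr : (D : ℝ) = 2 ^ j' := by rw [hD]; push_cast; rfl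
  rw [← hDr] at hD1 hD2
  rw [← hD] at hθ hDY
  have hDpos : (0 : ℝ) < D := by rw [hDr]; positivity
  have hD1n : 1 ≤ D := by exact_mod_cast hDpos
  have h2j : (1 : ℝ) ≤ 2 ^ j := one_le_pow₀ (by norm_num)
  have hLD : L ≤ c0 / 2 * D := by
    have h1 : 2 / c0 * 1 * L ≤ D := le_trans (by gcongr) hD1
    calc L = c0 / 2 * (2 / c0 * 1 * L) := by field_simp
      _ ≤ c0 / 2 * D := by gcongr
  -- lower bound for the density
  have hθlow : c0 / 4 ≤ θ := by
    have h1 := hw1 D hD1n hDY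
    have h2 : cl Nat.Prime (pr n) (pr n + D) ≤ co Nat.Prime (pr n) (pr n + D) + 1 := by
      have e1 := count_cl (pr n) (pr n + D) (by omega)
      have e2 := count_cl (pr n + 1) (pr n + D + 1) (by omega)
      have e3 : cl Nat.Prime (pr n + 1) (pr n + D + 1) = co Nat.Prime (pr n) (pr n + D) :=
        cl_succ _ _
      have e4 : Nat.count Nat.Prime (pr n + D) ≤ Nat.count Nat.Prime (pr n + D + 1) :=
        Nat.count_monotone _ (by omega)
      rw [count_pr_succ] at e2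
      rw [count_pr] at e1
      omega
    have h2' : (cl Nat.Prime (pr n) (pr n + D) : ℝ) ≤ co Nat.Prime (pr n) (pr n + D) + 1 := by
      exact_mod_cast h2
    have h3 := hθ (pr n) (pr n + D) (by omega) (by omega) le_rfl
    have h4 := (abs_le.1 h3).2
    have e5 : ((pr n + D : ℕ) : ℝ) - (pr n : ℝ) = D := by push_cast; ring
    rw [e5] at h4
    have h5 : c0 / L * D ≤ θ * D / L + δ' * 2 ^ j' / L + 1 := by linarith
    rw [← hDr] at h5
    have h6 : c0 * D ≤ θ * D + δ' * D + L := by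
      have h7 := mul_le_mul_of_nonneg_right h5 hL0.le
      have e6 : c0 / L * D * L = c0 * D := by field_simp
      have e7 : (θ * D / L + δ' * D / L + 1) * L = θ * D + δ' * D + L := by field_simp
      rw [e6, e7] at h7
      exact h7
    have h8 : c0 * D ≤ (θ + c0 / 4 + c0 / 2) * D := by
      have : δ' * D ≤ c0 / 4 * D := by gcongr
      nlinarith
    have h9 := le_of_mul_le_mul_right h8 hDpos
    linarith
  have hθ0 : 0 < θ := by linarith
  have hbound : ∀ (H k : ℝ), |k - θ * H / L| ≤ δ' * D / L → |H - 1 / θ * k * L| ≤ δ * 2 ^ j * L := by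
    intro H k h
    have e1 : H - 1 / θ * k * L = -(L / θ) * (k - θ * H / L) := by field_simp; ring
    rw [e1, abs_mul, abs_neg, abs_of_pos (by positivity)]
    calc L / θ * |k - θ * H / L| ≤ L / θ * (δ' * D / L) := by gcongr
      _ = δ' * D / θ := by field_simp
      _ ≤ δ' * D / (c0 / 4) := by gcongr
      _ ≤ δ' * (4 / c0 * 2 ^ j * L) / (c0 / 4) := by gcongr
      _ = (16 * δ' / c0 ^ 2) * (2 ^ j * L) := by field_simp; ring
      _ ≤ δ * (2 ^ j * L) := by
        gcongr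
        rw [div_le_iff₀ (by positivity)]
        linarith
      _ = δ * 2 ^ j * L := by ring
  have hRH : ∀ k : ℕ, k ≤ 2 ^ j → pr (n + k) ≤ pr n + D ∧ k ≤ n ∧ pr n ≤ pr (n - k) + D := by
    intro k hk
    rcases Nat.eq_zero_or_pos k with h | h
    · subst h
      simp only [Nat.add_zero, Nat.sub_zero]
      exact ⟨by omega, by omega, by omega⟩
    · obtain ⟨a1, a2, a3⟩ := hup k h hk
      have hkr : (k : ℝ) ≤ 2 ^ j := by exact_mod_cast hk
      have h5 : 2 / c0 * k * L ≤ D := le_trans (by gcongr) hD1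
      refine ⟨?_, a2, ?_⟩
      · have : (pr (n + k) : ℝ) ≤ pr n + D := by linarith
        exact_mod_cast this
      · have : (pr n : ℝ) ≤ pr (n - k) + D := by linarith
        exact_mod_cast this
  refine ⟨1 / θ, ?_, ?_, ?_⟩
  · exact one_div_le_one_div_of_le hθ0 hθ2
  · rw [div_le_div_iff₀ hθ0 hc0]
    linarith
  · intro k hk
    obtain ⟨b1, b2, b3⟩ := hRH k hk
    have hmono : pr n ≤ pr (n + k) := Nat.nth_monotone Nat.infinite_setOfPred_prime (by omega)
    have hmono' : pr (n - k) ≤ pr n := Nat.nth_monotone Nat.infinite_setOfPred_prime (by omega)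
    constructor
    · apply hbound
      have h3 := hθ (pr n) (pr (n + k)) (by omega) hmono b1
      rw [co_pr, ← hDr] at h3
      exact h3
    · apply hbound
      have h3 := hθ (pr (n - k)) (pr n) b3 hmono' (by omega)
      have h4 := co_pr (n - k) k
      have e : n - k + k = n := by omega
      rw [e] at h4
      rw [h4, ← hDr] at h3
      exact h3

end Pool.Agent.W123.PP
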