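import Pool.Agent.W123.PP.AP
import Pool.Agent.W123.RU.Tup

set_option autoImplicit false

/-!
# Upper bounds for prime tuples, with a singular factor which is easy to average
-/

namespace Pool.Agent.W123.PP.Quad

open Finset Filter Pool.Agent.H373R2.T7 Pool.Agent.W123.RP Pool.Agent.W123.RU

open Classical in
/-- the singular factor of one difference -/
noncomputable def G (K p0 y h : ℕ) : ℝ :=
  ∏ p ∈ (pz y).filter (fun p => p0 < p ∧ p ∣ h), (1 + (K : ℝ) / p)

lemma one_le_G (K p0 y h : ℕ) : 1 ≤ G K p0 y h := by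
  classical
  unfold G
  have : ∏ p ∈ (pz y).filter (fun p => p0 < p ∧ p ∣ h), (1 : ℝ) ≤
      ∏ p ∈ (pz y).filter (fun p => p0 < p ∧ p ∣ h), (1 + (K : ℝ) / p) := by
    apply Finset.prod_le_prod
    · intros; norm_num
    · intro p _
      have : (0 : ℝ) ≤ (K : ℝ) / p := by positivity
      linarith
  simpa using this

lemma avgG (K p0 : ℕ) : ∃ C : ℝ, 1 ≤ C ∧ ∃ T0 : ℕ, 2 ≤ T0 ∧ ∀ T : ℕ, T0 ≤ T → ∀ y : ℕ,
    ∑ h ∈ Icc 1 T, G K p0 y h ≤ C * T := by
  classical
  obtain ⟨C, hC, T0, hT0, h⟩ := Pool.Agent.W123.RU.avg K 1 0 p0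
  refine ⟨C, hC, T0, hT0, ?_⟩
  intro T hT y
  obtain ⟨Co, hCo⟩ : ∃ Co : ℕ → ℕ → Prop, ∀ p h, Co p h ↔ p ∣ h := ⟨fun p h => p ∣ h, fun _ _ => Iff.rfl⟩
  have hcoll : Pool.Agent.W123.RU.Coll Co p0 1 := by
    constructor
    · intro p n
      rw [hCo, hCo]
      exact (Nat.dvd_mod_iff (dvd_refl p)).symm
    · intro p hp _
      rw [Finset.card_le_one]
      intro r hr s hs
      rw [mem_filter, mem_range, hCo] at hr hs
      rw [Nat.eq_zero_of_dvd_of_lt hr.2 hr.1, Nat.eq_zero_of_dvd_of_lt hs.2 hs.1]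
  have h1 := h T hT Co hcoll y (Icc 1 T) (Finset.Subset.refl _) (by
    intro m hm
    rw [mem_Icc] at hm
    rw [zero_mul, Nat.le_zero, Finset.card_eq_zero, Finset.filter_eq_empty_iff]
    rintro p _ ⟨h1, h2⟩
    rw [hCo] at h2
    have := Nat.le_of_dvd (by omega) h2
    omega)
  refine le_trans (le_of_eq ?_) h1
  apply Finset.sum_congr rfl
  intro m _
  unfold G
  apply Finset.prod_congr _ (fun _ _ => rfl)
  ext p
  rw [mem_filter, mem_filter, hCo]

/-- a product over the primes dividing one of several numbers -/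
lemma prod_union {ι : Type} (K p0 y : ℕ) (f : ι → ℕ) (S : Finset ι) [DecidableEq ι] :
    (∏ p ∈ (pz y).filter (fun p => p0 < p ∧ ∃ i ∈ S, p ∣ f i), (1 + (K : ℝ) / p)) ≤
      ∏ i ∈ S, G K p0 y (f i) := by
  classical
  induction S using Finset.induction_on with
  | empty => simp
  | insert j S hj ih =>
    rw [Finset.prod_insert hj]
    have h1 : (pz y).filter (fun p => p0 < p ∧ ∃ i ∈ insert j S, p ∣ f i) =
        (pz y).filter (fun p => p0 < p ∧ p ∣ f j) ∪
        (pz y).filter (fun p => p0 < p ∧ ∃ i ∈ S, p ∣ f i) := by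
      ext p
      rw [mem_union, mem_filter, mem_filter, mem_filter]
      constructor
      · rintro ⟨a1, a2, i, a3, a4⟩
        rw [mem_insert] at a3
        rcases a3 with rfl | a3
        · exact Or.inl ⟨a1, a2, a4⟩
        · exact Or.inr ⟨a1, a2, i, a3, a4⟩
      · rintro (⟨a1, a2, a3⟩ | ⟨a1, a2, i, a3, a4⟩)
        · exact ⟨a1, a2, j, mem_insert_self _ _, a3⟩
        · exact ⟨a1, a2, i, mem_insert_of_mem a3, a4⟩
    have h2 := Finset.prod_union_inter (s₁ := (pz y).filter (fun p => p0 < p ∧ p ∣ f j))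
      (s₂ := (pz y).filter (fun p => p0 < p ∧ ∃ i ∈ S, p ∣ f i)) (f := fun p : ℕ => (1 + (K : ℝ) / p))
    rw [h1]
    have hpos : ∀ p : ℕ, (1 : ℝ) ≤ 1 + (K : ℝ) / p := by
      intro p
      have : (0 : ℝ) ≤ (K : ℝ) / p := by positivity
      linarith
    have h3 : ∀ A : Finset ℕ, (1 : ℝ) ≤ ∏ p ∈ A, (1 + (K : ℝ) / p) := by
      intro A
      have : ∏ p ∈ A, (1 : ℝ) ≤ ∏ p ∈ A, (1 + (K : ℝ) / p) :=
        Finset.prod_le_prod (fun _ _ => by norm_num) (fun p _ => hpos p)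
      simpa using this
    have h4 := h3 ((pz y).filter (fun p => p0 < p ∧ p ∣ f j) ∩
      (pz y).filter (fun p => p0 < p ∧ ∃ i ∈ S, p ∣ f i))
    have h5 := h3 ((pz y).filter (fun p => p0 < p ∧ p ∣ f j) ∪
      (pz y).filter (fun p => p0 < p ∧ ∃ i ∈ S, p ∣ f i))
    calc _ ≤ (∏ p ∈ (pz y).filter (fun p => p0 < p ∧ p ∣ f j) ∪
          (pz y).filter (fun p => p0 < p ∧ ∃ i ∈ S, p ∣ f i), (1 + (K : ℝ) / p)) *
          ∏ p ∈ (pz y).filter (fun p => p0 < p ∧ p ∣ f j) ∩
          (pz y).filter (fun p => p0 < p ∧ ∃ i ∈ S, p ∣ f i), (1 + (K : ℝ) / p) := by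
          apply le_mul_of_one_le_right _ h4
          linarith
      _ = _ := h2
      _ ≤ _ := by
          apply mul_le_mul le_rfl ih
          · linarith [h3 ((pz y).filter (fun p => p0 < p ∧ ∃ i ∈ S, p ∣ f i))]
          · exact zero_le_one.trans (one_le_G K p0 y (f j))

lemma prod_le_sum_pow {ι : Type} (S : Finset ι) (hS : S.Nonempty) (z : ι → ℝ) (hz : ∀ i, 0 ≤ z i) :
    ∏ i ∈ S, z i ≤ ∑ i ∈ S, z i ^ S.card := by
  obtain ⟨i0, hi0, hmax⟩ := S.exists_max_image z hS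
  calc ∏ i ∈ S, z i ≤ ∏ _i ∈ S, z i0 := Finset.prod_le_prod (fun i _ => hz i) hmax
    _ = z i0 ^ S.card := by rw [Finset.prod_const]
    _ ≤ ∑ i ∈ S, z i ^ S.card :=
      Finset.single_le_sum (f := fun i => z i ^ S.card) (fun i _ => pow_nonneg (hz i) _) hi0

lemma pow_le_lin (K P : ℕ) (x : ℝ) (h0 : 0 ≤ x) (h1 : x ≤ 1) :
    (1 + K * x) ^ P ≤ 1 + (((1 + K) ^ P : ℕ) : ℝ) * x := by
  have key : (1 + K * x) ^ P ≤ 1 + ((((1 + K) ^ P : ℕ) : ℝ) - 1) * x := by
    induction P with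
    | zero => simp
    | succ P ih =>
      obtain ⟨A, hA⟩ : ∃ A : ℝ, A = (((1 + K) ^ P : ℕ) : ℝ) - 1 := ⟨_, rfl⟩
      have hA0 : 0 ≤ A := by
        rw [hA, sub_nonneg]
        exact_mod_cast Nat.one_le_pow _ _ (by omega)
      rw [← hA] at ih
      have hK0 : (0 : ℝ) ≤ K := Nat.cast_nonneg K
      have e : (((1 + K) ^ (P + 1) : ℕ) : ℝ) - 1 = A + K + A * K := by
        rw [pow_succ]
        push_cast
        push_cast at hA
        rw [hA]; ring
      rw [e, pow_succ]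
      calc (1 + K * x) ^ P * (1 + K * x) ≤ (1 + A * x) * (1 + K * x) := by gcongr
        _ = 1 + (A + K) * x + A * K * (x * x) := by ring
        _ ≤ 1 + (A + K) * x + A * K * (1 * x) := by gcongr
        _ = _ := by ring
  refine key.trans ?_
  nlinarith

lemma G_pow (K p0 y h P : ℕ) : G K p0 y h ^ P ≤ G ((1 + K) ^ P) p0 y h := by
  classical
  unfold G
  rw [← Finset.prod_pow]
  apply Finset.prod_le_prod
  · intro p _; positivity
  · intro p hp
    rw [mem_filter, mem_pz] at hp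
    have hp1 : (1 : ℝ) ≤ p := by exact_mod_cast hp.1.2.one_lt.le
    have h1 : (1 : ℝ) / p ≤ 1 := by rw [div_le_one (by linarith)]; exact hp1
    have := pow_le_lin K P (1 / p) (by positivity) h1
    calc (1 + (K : ℝ) / p) ^ P = (1 + K * (1 / p)) ^ P := by congr 2; ring
      _ ≤ 1 + (((1 + K) ^ P : ℕ) : ℝ) * (1 / p) := this
      _ = _ := by ring

lemma prod_sum {ι : Type} (K p0 y : ℕ) (f : ι → ℕ) (S : Finset ι) [DecidableEq ι] (hS : S.Nonempty) :
    (∏ p ∈ (pz y).filter (fun p => p0 < p ∧ ∃ i ∈ S, p ∣ f i), (1 + (K : ℝ) / p)) ≤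
      ∑ i ∈ S, G ((1 + K) ^ S.card) p0 y (f i) := by
  refine (prod_union K p0 y f S).trans ((prod_le_sum_pow S hS _ (fun i =>
    zero_le_one.trans (one_le_G K p0 y (f i)))).trans ?_)
  exact Finset.sum_le_sum fun i _ => G_pow K p0 y (f i) S.card

/-- the pairs of indices -/
def prs (k : ℕ) : Finset (Fin k × Fin k) := Finset.univ.filter (fun il => il.1 < il.2)

/-- the differences -/
def dif {k : ℕ} (a : Fin k → ℕ) (il : Fin k × Fin k) : ℕ := ((a il.1 : ℤ) - a il.2).natAbs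

open Classical in
lemma factor {k : ℕ} (hk : 1 ≤ k) (a : Fin k → ℕ) (s p : ℕ) (hp : p.Prime) :
    1 - (nuB (Tup.Q (fun i => s + a i)) p : ℝ) / p ≤ (1 - 1 / (p : ℝ)) ^ k *
      (if p ≤ 2 * k then (p : ℝ) ^ k else if ∃ il ∈ prs k, p ∣ dif a il then
        1 + ((2 * k : ℕ) : ℝ) / p else 1) := by
  have hp0 : (0 : ℝ) < p := by exact_mod_cast hp.pos
  have hp2 : (2 : ℝ) ≤ p := by exact_mod_cast hp.two_le
  have hx0 : 0 ≤ 1 - 1 / (p : ℝ) := by
    rw [sub_nonneg, div_le_one hp0]; linarith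
  have hnn : 0 ≤ (nuB (Tup.Q (fun i => s + a i)) p : ℝ) / p := by positivity
  by_cases h1 : p ≤ 2 * k
  · rw [if_pos h1, ← mul_pow]
    have : (1 : ℝ) ≤ (1 - 1 / (p : ℝ)) * p := by
      rw [sub_mul, one_div, inv_mul_cancel₀ hp0.ne']
      linarith
    have h2 := one_le_pow₀ this (n := k)
    linarith
  · rw [if_neg h1]
    push Not at h1
    have h2k : 2 * (k : ℝ) ≤ p := by exact_mod_cast h1.le
    have hbern : 1 - (k : ℝ) / p ≤ (1 - 1 / (p : ℝ)) ^ k := by
      have := one_add_mul_le_pow (a := -(1 / (p : ℝ))) (by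
        have : 1 / (p : ℝ) ≤ 1 := by rw [div_le_one hp0]; linarith
        linarith) k
      calc 1 - (k : ℝ) / p = 1 + k * (-(1 / (p : ℝ))) := by ring
        _ ≤ (1 + -(1 / (p : ℝ))) ^ k := this
        _ = _ := by ring
    by_cases h2 : ∃ il ∈ prs k, p ∣ dif a il
    · rw [if_pos h2]
      have h3 : (1 : ℝ) ≤ (1 - (k : ℝ) / p) * (1 + ((2 * k : ℕ) : ℝ) / p) := by
        push_cast
        obtain ⟨u, hu⟩ : ∃ u : ℝ, u = (k : ℝ) / p := ⟨_, rfl⟩
        have hu0 : 0 ≤ u := by rw [hu]; positivity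
        have hu1 : 2 * u ≤ 1 := by
          rw [hu, ← mul_div_assoc, div_le_one hp0]; exact h2k
        have e : 2 * (k : ℝ) / p = 2 * u := by rw [hu]; ring
        rw [← hu, e]
        nlinarith
      have h4 : (1 - (k : ℝ) / p) * (1 + ((2 * k : ℕ) : ℝ) / p) ≤
          (1 - 1 / (p : ℝ)) ^ k * (1 + ((2 * k : ℕ) : ℝ) / p) := by gcongr
      linarith
    · rw [if_neg h2, mul_one]
      refine le_trans ?_ hbern
      have h3 : k ≤ nuB (Tup.Q (fun i => s + a i)) p := by
        have h4 : (range p).filter (fun r => Tup.Q (fun i => s + a i) p r) = Finset.univ.biUnion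
            (fun i => (range p).filter (fun r => p ∣ r + (s + a i))) := by
          ext r
          rw [mem_filter, mem_biUnion]
          unfold Tup.Q
          constructor
          · rintro ⟨a1, i, a2⟩
            exact ⟨i, mem_univ _, mem_filter.2 ⟨a1, a2⟩⟩
          · rintro ⟨i, _, a2⟩
            rw [mem_filter] at a2
            exact ⟨a2.1, i, a2.2⟩
        have h5 : ((range p).filter (fun r => Tup.Q (fun i => s + a i) p r)).card = k := by
          rw [h4, Finset.card_biUnion]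
          · rw [Finset.sum_congr rfl (fun i _ => Tup.card1 (s + a i) p hp)]
            simp
          · intro i _ l _ hil
            rw [Function.onFun, Finset.disjoint_left]
            intro r hr hr'
            rw [mem_filter] at hr hr'
            apply h2
            have b1 : (p : ℤ) ∣ (r : ℤ) + (s + a i) := by exact_mod_cast hr.2
            have b2 : (p : ℤ) ∣ (r : ℤ) + (s + a l) := by exact_mod_cast hr'.2
            rcases lt_or_gt_of_ne hil with h | h
            · refine ⟨(i, l), by unfold prs; rw [mem_filter]; exact ⟨mem_univ _, h⟩, ?_⟩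
              unfold dif
              apply Int.natCast_dvd.1
              have b3 := dvd_sub b1 b2
              have e : (r : ℤ) + (s + a i) - (r + (s + a l)) = a i - a l := by ring
              rwa [e] at b3
            · refine ⟨(l, i), by unfold prs; rw [mem_filter]; exact ⟨mem_univ _, h⟩, ?_⟩
              unfold dif
              apply Int.natCast_dvd.1
              have b3 := dvd_sub b2 b1
              have e : (r : ℤ) + (s + a l) - (r + (s + a i)) = a l - a i := by ring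
              rwa [e] at b3
        refine h5.ge.trans (le_of_eq ?_)
        unfold nuB
        congr
      have h4 : (k : ℝ) ≤ nuB (Tup.Q (fun i => s + a i)) p := by exact_mod_cast h3
      have h5 : (k : ℝ) / p ≤ (nuB (Tup.Q (fun i => s + a i)) p : ℝ) / p := by gcongr
      linarith

open Classical in
theorem V_le {k : ℕ} (hk : 1 ≤ k) (a : Fin k → ℕ) (s y : ℕ) :
    ∏ p ∈ pz y, (1 - (nuB (Tup.Q (fun i => s + a i)) p : ℝ) / p) ≤
      (∏ p ∈ pz (2 * k), (p : ℝ) ^ k) * (Vz y) ^ k *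
      ∏ p ∈ (pz y).filter (fun p : ℕ => 2 * k < p ∧ ∃ il ∈ prs k, p ∣ dif a il),
        (1 + ((2 * k : ℕ) : ℝ) / p) := by
  have h1 : ∏ p ∈ pz y, (1 - (nuB (Tup.Q (fun i => s + a i)) p : ℝ) / p) ≤
      ∏ p ∈ pz y, ((1 - 1 / (p : ℝ)) ^ k *
      (if p ≤ 2 * k then (p : ℝ) ^ k else if ∃ il ∈ prs k, p ∣ dif a il then
        1 + ((2 * k : ℕ) : ℝ) / p else 1)) := by
    apply Finset.prod_le_prod
    · intro p hp
      exact one_sub_nonneg _ p (mem_pz.1 hp).2
    · intro p hp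
      exact factor hk a s p (mem_pz.1 hp).2
  refine h1.trans ?_
  have hVnn : 0 ≤ ∏ p ∈ pz y, (1 - 1 / (p : ℝ)) := Finset.prod_nonneg fun p hp => by
    have hp1 : (1 : ℝ) ≤ p := by exact_mod_cast (mem_pz.1 hp).2.one_lt.le
    rw [sub_nonneg, div_le_one (by linarith)]; exact hp1
  unfold Vz
  rw [Finset.prod_mul_distrib, Finset.prod_pow, mul_comm (∏ p ∈ pz (2 * k), (p : ℝ) ^ k), mul_assoc]
  apply mul_le_mul_of_nonneg_left _ (by positivity)
  rw [Finset.prod_ite]
  apply mul_le_mul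
  · apply Finset.prod_le_prod_of_subset_of_one_le
    · intro p hp
      rw [mem_filter, mem_pz] at hp
      rw [mem_pz]
      exact ⟨hp.2, hp.1.2⟩
    · intro p _; positivity
    · intro p hp _
      have : (1 : ℝ) ≤ p := by exact_mod_cast (mem_pz.1 hp).2.one_lt.le
      exact one_le_pow₀ this
  · rw [Finset.prod_ite, Finset.prod_const_one, mul_one, Finset.filter_filter]
    apply le_of_eq
    apply Finset.prod_congr _ (fun _ _ => rfl)
    ext p
    rw [mem_filter, mem_filter, not_le]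
  · apply Finset.prod_nonneg
    intro p _
    split_ifs <;> positivity
  · positivity

open Classical in
/-- **upper bound for prime tuples** in intervals -/
theorem count_le {k : ℕ} (hk : 2 ≤ k) : ∃ C : ℝ, 0 < C ∧ ∃ K1 U0 : ℕ, ∀ U : ℕ, U0 ≤ U → ∃ y : ℕ,
    ∀ (s : ℕ) (a : Fin k → ℕ),
    (((Ioc s (s + U)).filter (fun m => ∀ i, (m + a i).Prime)).card : ℝ) ≤
      C * U / Real.log U ^ k * ∑ il ∈ prs k, G K1 (2 * k) y (dif a il) + 2 * (U : ℝ) ^ (1 / 2 : ℝ) := by
  obtain ⟨K, x0, hK, hfund⟩ := sys_fund k (by omega) 1 one_pos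
  obtain ⟨c, Cz, hc, hCz, hVz⟩ := Vz_bounds
  obtain ⟨r, hr⟩ : ∃ r, r = max K 2 := ⟨_, rfl⟩
  have hr1 : K ≤ r := by rw [hr]; exact le_max_left _ _
  have hr2 : 2 ≤ r := by rw [hr]; exact le_max_right _ _
  have hrr : (2 : ℝ) ≤ r := by exact_mod_cast hr2
  have hrpos : (0 : ℝ) < r := by linarith
  obtain ⟨C0, hC0⟩ : ∃ C0 : ℝ, C0 = ∏ p ∈ pz (2 * k), (p : ℝ) ^ k := ⟨_, rfl⟩
  have hC00 : 0 < C0 := by
    rw [hC0]
    apply Finset.prod_pos
    intro p hp
    have : (0 : ℝ) < p := by exact_mod_cast (mem_pz.1 hp).2.pos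
    positivity
  have hpow : Tendsto (fun X : ℕ => (X : ℝ) ^ (1 / (2 * r : ℝ))) atTop atTop :=
    (tendsto_rpow_atTop (by positivity)).comp tendsto_natCast_atTop_atTop
  obtain ⟨U1, hU1⟩ := eventually_atTop.1 (hpow.eventually_ge_atTop ((x0 : ℝ) + 2))
  refine ⟨2 * C0 * (Cz * (2 * r)) ^ k, by positivity, (1 + 2 * k) ^ (prs k).card, max U1 3, ?_⟩
  intro U hU
  have hUU1 := hU1 U ((le_max_left _ _).trans hU)
  have hU3 : 3 ≤ U := (le_max_right _ _).trans hU
  have hU3r : (3 : ℝ) ≤ U := by exact_mod_cast hU3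
  have hlogU : 0 < Real.log U := Real.log_pos (by linarith)
  refine ⟨⌊(U : ℝ) ^ (1 / (r : ℝ))⌋₊, ?_⟩
  intro s a
  have hx0nn : (0 : ℝ) ≤ x0 := Nat.cast_nonneg _
  obtain ⟨hy1, hy2, -, hy4⟩ := level_low r hr2 U (by omega) (by linarith)
  obtain ⟨y, hy⟩ : ∃ y, y = ⌊(U : ℝ) ^ (1 / (r : ℝ))⌋₊ := ⟨_, rfl⟩
  rw [← hy] at hy1 hy2 hy4 ⊢
  have hyx0 : x0 ≤ y := by
    have : (x0 : ℝ) ≤ y := by linarith
    exact_mod_cast this
  have hyup : (y : ℝ) ≤ (U : ℝ) ^ (1 / (r : ℝ)) := by rw [hy]; exact Nat.floor_le (by positivity)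
  have hyhalf : (y : ℝ) ≤ (U : ℝ) ^ (1 / 2 : ℝ) := by
    refine hyup.trans (Real.rpow_le_rpow_of_exponent_le (by linarith) ?_)
    rw [div_le_div_iff₀ hrpos (by norm_num)]
    linarith
  have hyK : y ^ K ≤ U := by
    have h1 : ((y ^ r : ℕ) : ℝ) ≤ U := by
      push_cast
      calc (y : ℝ) ^ r ≤ ((U : ℝ) ^ (1 / (r : ℝ))) ^ r := pow_le_pow_left₀ (by positivity) hyup r
        _ = U := by
          rw [← Real.rpow_natCast, ← Real.rpow_mul (by positivity)]
          rw [one_div, inv_mul_cancel₀ hrpos.ne', Real.rpow_one]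
    have h2 : y ^ r ≤ U := by exact_mod_cast h1
    exact (Nat.pow_le_pow_right (by omega) hr1).trans h2
  have hper := Tup.perB (fun i => s + a i)
  have h1 := (abs_le.1 (hfund U y hyx0 hyK (Tup.Q (fun i => s + a i)) hper U)).2
  rw [Real.sqrt_eq_rpow] at h1
  have hcnt : ((Ioc s (s + U)).filter (fun m => ∀ i, (m + a i).Prime)).card ≤ y +
      ((Icc 1 U).filter (fun n : ℕ => ∀ p ∈ pz y, ¬ Tup.Q (fun i => s + a i) p n)).card := by
    have h2 : (Ioc s (s + U)).filter (fun m => ∀ i, (m + a i).Prime) ⊆ Icc 1 y ∪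
        ((Icc 1 U).filter (fun n : ℕ => ∀ p ∈ pz y, ¬ Tup.Q (fun i => s + a i) p n)).image
          (fun n => n + s) := by
      intro m hm
      rw [mem_filter, mem_Ioc] at hm
      obtain ⟨⟨a1, a2⟩, a3⟩ := hm
      rw [mem_union, mem_Icc, mem_image]
      rcases Nat.lt_or_ge y m with h | h
      · right
        refine ⟨m - s, ?_, by omega⟩
        rw [mem_filter, mem_Icc]
        refine ⟨⟨by omega, by omega⟩, ?_⟩
        rintro p hp ⟨i, hi⟩
        rw [mem_pz] at hp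
        have e : m - s + (s + a i) = m + a i := by omega
        rw [e] at hi
        have := (Nat.prime_dvd_prime_iff_eq hp.2 (a3 i)).1 hi
        omega
      · left
        exact ⟨by omega, h⟩
    refine (card_le_card h2).trans ((card_union_le _ _).trans ?_)
    rw [Nat.card_Icc, Nat.add_sub_cancel]
    exact Nat.add_le_add_left card_image_le _
  have hcntR : (((Ioc s (s + U)).filter (fun m => ∀ i, (m + a i).Prime)).card : ℝ) ≤ y +
      (((Icc 1 U).filter (fun n : ℕ => ∀ p ∈ pz y, ¬ Tup.Q (fun i => s + a i) p n)).card : ℝ) := by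
    exact_mod_cast hcnt
  have hV := V_le (by omega) a s y
  rw [← hC0] at hV
  have hprs : (prs k).Nonempty := by
    refine ⟨(⟨0, by omega⟩, ⟨1, by omega⟩), ?_⟩
    unfold prs
    rw [mem_filter]
    exact ⟨mem_univ _, by simp [Fin.lt_def]⟩
  have hps := prod_sum (2 * k) (2 * k) y (dif a) (prs k) hprs
  have hVk : (Vz y) ^ k ≤ (Cz * (2 * r)) ^ k / Real.log U ^ k := by
    have hlogy : 0 < Real.log y := Real.log_pos (by exact_mod_cast (by omega : 1 < y))
    have h3 : Vz y ≤ Cz * (2 * r) / Real.log U := by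
      refine (hVz y hy4).2.trans ?_
      rw [div_le_div_iff₀ hlogy hlogU]
      rw [div_le_iff₀ (by positivity)] at hy2
      calc Cz * Real.log U ≤ Cz * (Real.log y * (2 * r)) := by gcongr
        _ = _ := by ring
    have h4 : 0 ≤ Vz y := by
      refine le_trans ?_ (hVz y hy4).1
      positivity
    calc (Vz y) ^ k ≤ (Cz * (2 * r) / Real.log U) ^ k := pow_le_pow_left₀ h4 h3 k
      _ = _ := by rw [div_pow]
  obtain ⟨S, hS⟩ : ∃ S : ℝ, S = ∑ il ∈ prs k, G ((1 + 2 * k) ^ (prs k).card) (2 * k) y (dif a il) :=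
    ⟨_, rfl⟩
  rw [← hS] at hps ⊢
  have hS0 : 0 ≤ S := by
    rw [hS]
    exact Finset.sum_nonneg fun il _ => zero_le_one.trans (one_le_G _ _ _ _)
  have hVz0 : 0 ≤ (Vz y) ^ k := by
    have h4 : 0 ≤ Vz y := by
      refine le_trans ?_ (hVz y hy4).1
      have hlogy : 0 < Real.log y := Real.log_pos (by exact_mod_cast (by omega : 1 < y))
      positivity
    positivity
  have hV2 : ∏ p ∈ pz y, (1 - (nuB (Tup.Q (fun i => s + a i)) p : ℝ) / p) ≤
      C0 * ((Cz * (2 * r)) ^ k / Real.log U ^ k) * S := by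
    refine hV.trans ?_
    apply mul_le_mul _ hps
    · apply Finset.prod_nonneg
      intro p _; positivity
    · positivity
    · gcongr
  have hU0 : (0 : ℝ) ≤ U := by linarith
  have hfin : (U : ℝ) * ∏ p ∈ pz y, (1 - (nuB (Tup.Q (fun i => s + a i)) p : ℝ) / p) ≤
      U * (C0 * ((Cz * (2 * r)) ^ k / Real.log U ^ k) * S) := by gcongr
  have e2 : 2 * C0 * (Cz * (2 * r)) ^ k * U / Real.log U ^ k * S =
      2 * (U * (C0 * ((Cz * (2 * r)) ^ k / Real.log U ^ k) * S)) := by ring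
  rw [e2]
  linarith

end Pool.Agent.W123.PP.Quad
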