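import Pool.Agent.W123.PP.Abs
import Pool.Agent.W123.RU.Pair

set_option autoImplicit false

/-!
# First and second moments of sieved sets
-/

namespace Pool.Agent.W123.PP

open Finset Filter Pool.Agent.H373R2.T7 Pool.Agent.W123.RP Pool.Agent.W123.RU

open Classical in
theorem sieve_input (c p0 D : ℕ) (hc : 1 ≤ c) :
    ∃ K0 : ℕ, 2 ≤ K0 ∧ ∀ r : ℕ, K0 ≤ r → ∀ C3 : ℝ, 0 < C3 →
      ∃ (C1 C2 : ℝ), 0 < C1 ∧ 0 < C2 ∧ ∀ B0 : ℝ, 0 < B0 → ∃ L0 : ℝ,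
      ∀ᶠ X : ℕ in atTop,
      ∀ (Q Co : ℕ → ℕ → Prop) (L : ℝ), Sdata Q Co c p0 D → L0 ≤ L → L ^ 8 ≤ X →
      Vq Q ⌊(X : ℝ) ^ (1 / (r : ℝ))⌋₊ ≤ C3 / L →
      (∀ p h : ℕ, 1 ≤ h → Co p h → p ≤ h) →
      ∀ P' : ℕ → Prop,
      (∀ m, P' m → m ≤ 4 * X → ⌊(X : ℝ) ^ (1 / (r : ℝ))⌋₊ < m →
        ∀ p ∈ pz ⌊(X : ℝ) ^ (1 / (r : ℝ))⌋₊, ¬ Q p m) →
      2 ≤ L ∧ B0 * L ^ 2 ≤ X ∧ (co P' 0 (4 * X) : ℝ) ≤ C1 * X / L ∧
      ∑ n ∈ Finset.Ico X (2 * X + 1), ((co P' n (n + ⌊L⌋₊) : ℝ)) ^ 2 ≤ C2 * X := by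
  obtain ⟨K1, hK1, C, hC, x0, hpair⟩ := pair_sum c p0 D 0 hc
  refine ⟨max K1 2, le_max_right _ _, ?_⟩
  intro r hr C3 hC30
  have hr1 : K1 ≤ r := (le_max_left _ _).trans hr
  have hr2 : 2 ≤ r := (le_max_right _ _).trans hr
  have hrr : (2 : ℝ) ≤ r := by exact_mod_cast hr2
  have hrpos : (0 : ℝ) < r := by linarith
  set C1 : ℝ := 8 * C3 + 3 with hC1
  set C2 : ℝ := C1 + 8 * C * C3 ^ 2 + 4 with hC2
  have hC10 : 0 < C1 := by positivity
  have hC20 : 0 < C2 := by positivity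
  refine ⟨C1, C2, hC10, hC20, ?_⟩
  intro B0 hB0
  refine ⟨(x0 : ℝ) + B0 + 4, ?_⟩
  have hXr : Tendsto (fun X : ℕ => (X : ℝ)) atTop atTop := tendsto_natCast_atTop_atTop
  have hpow : Tendsto (fun X : ℕ => (X : ℝ) ^ (1 / (2 * r : ℝ))) atTop atTop :=
    (tendsto_rpow_atTop (by positivity)).comp hXr
  filter_upwards [eventually_ge_atTop 4, hpow.eventually_ge_atTop ((x0 : ℝ) + 2)] with X hX4 e3
  intro Q Co L hS hL hLX8 hVy hCo P' hP'Q
  have hX4r : (4 : ℝ) ≤ X := by exact_mod_cast hX4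
  have hXpos : (0 : ℝ) < X := by linarith
  have hx0T : (0 : ℝ) ≤ (x0 : ℝ) := by positivity
  have hL4 : 4 ≤ L := by linarith
  have hL2 : 2 ≤ L := by linarith
  have hL0 : 0 < L := by linarith
  have hsq1 : (1 : ℝ) ≤ (X : ℝ) ^ (1 / 2 : ℝ) := Real.one_le_rpow (by linarith) (by norm_num)
  have hsqX : (X : ℝ) ^ (1 / 2 : ℝ) * (X : ℝ) ^ (1 / 2 : ℝ) = X := by
    rw [← Real.rpow_add hXpos]; norm_num
  have hsqle : (X : ℝ) ^ (1 / 2 : ℝ) ≤ X := by nlinarith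
  have hL4X : L ^ 4 ≤ (X : ℝ) ^ (1 / 2 : ℝ) := by
    have h1 : L ^ 8 = L ^ 4 * L ^ 4 := by ring
    rw [h1, ← hsqX] at hLX8
    by_contra hcon
    rw [not_le] at hcon
    have hs0 : (0 : ℝ) < (X : ℝ) ^ (1 / 2 : ℝ) := by linarith
    have := mul_lt_mul'' hcon hcon hs0.le hs0.le
    linarith
  have e1 : 4 * L ^ 2 ≤ (X : ℝ) ^ (1 / 2 : ℝ) := by
    refine le_trans ?_ hL4X
    have h1 : L ^ 4 = L ^ 2 * L ^ 2 := by ring
    have h2 : 4 ≤ L ^ 2 := by nlinarith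
    rw [h1]
    gcongr
  have e2 : B0 * L ^ 2 ≤ (X : ℝ) ^ (1 / 2 : ℝ) := by
    refine le_trans ?_ hL4X
    have h1 : B0 ≤ L := by linarith
    have h2 : L ≤ L ^ 2 := by nlinarith
    calc B0 * L ^ 2 ≤ L ^ 2 * L ^ 2 := by gcongr; linarith
      _ = L ^ 4 := by ring
  have hsqrt : √(((4 * X : ℕ) : ℝ)) = 2 * (X : ℝ) ^ (1 / 2 : ℝ) := by
    rw [← Real.sqrt_eq_rpow]
    push_cast
    rw [Real.sqrt_mul (by norm_num)]
    congr 1
    rw [show (4 : ℝ) = 2 ^ 2 by norm_num]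
    exact Real.sqrt_sq (by norm_num)
  -- the sieving level
  set y : ℕ := ⌊(X : ℝ) ^ (1 / (r : ℝ))⌋₊ with hy
  have hsplit : (X : ℝ) ^ (1 / (r : ℝ)) = (X : ℝ) ^ (1 / (2 * r : ℝ)) * (X : ℝ) ^ (1 / (2 * r : ℝ)) := by
    rw [← Real.rpow_add hXpos]
    congr 1
    field_simp
    norm_num
  have hylow : (X : ℝ) ^ (1 / (2 * r : ℝ)) ≤ y := by
    have h1 := Nat.lt_floor_add_one ((X : ℝ) ^ (1 / (r : ℝ)))
    rw [← hy, hsplit] at h1
    have h2 : (2 : ℝ) ≤ (X : ℝ) ^ (1 / (2 * r : ℝ)) := by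
      have : (0 : ℝ) ≤ x0 := Nat.cast_nonneg _
      linarith
    nlinarith
  have hyx0 : x0 ≤ y := by
    have : (x0 : ℝ) ≤ y := by linarith
    exact_mod_cast this
  have hy2 : 2 ≤ y := by
    have : (2 : ℝ) ≤ y := by
      have : (0 : ℝ) ≤ x0 := Nat.cast_nonneg _
      linarith
    exact_mod_cast this
  have hyup : (y : ℝ) ≤ (X : ℝ) ^ (1 / (r : ℝ)) := Nat.floor_le (by positivity)
  have hyhalf : (y : ℝ) ≤ (X : ℝ) ^ (1 / 2 : ℝ) := by
    refine hyup.trans (Real.rpow_le_rpow_of_exponent_le (by linarith) ?_)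
    rw [div_le_div_iff₀ hrpos (by norm_num)]
    linarith
  have hyX : y ≤ X := by exact_mod_cast hyhalf.trans hsqle
  have hyr : y ^ r ≤ X := by
    have : ((y ^ r : ℕ) : ℝ) ≤ X := by
      push_cast
      calc (y : ℝ) ^ r ≤ ((X : ℝ) ^ (1 / (r : ℝ))) ^ r := pow_le_pow_left₀ (by positivity) hyup r
        _ = X := by
          rw [← Real.rpow_natCast, ← Real.rpow_mul hXpos.le]
          rw [one_div, inv_mul_cancel₀ hrpos.ne', Real.rpow_one]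
    exact_mod_cast this
  have hyK : y ^ K1 ≤ 4 * X := by
    calc y ^ K1 ≤ y ^ r := Nat.pow_le_pow_right (by omega) hr1
      _ ≤ X := hyr
      _ ≤ 4 * X := by omega
  have hVnn : 0 ≤ Vq Q y := Finset.prod_nonneg fun p hp => one_sub_nonneg Q p (mem_pz.1 hp).2
  obtain ⟨hcnt, hpairs⟩ := hpair (4 * X) y hyx0 hyK Q Co hS
  -- upper bound for the count
  have hLX : 4 * L ^ 2 ≤ (X : ℝ) ^ (1 / 2 : ℝ) := e1
  have hLL : L ≤ L ^ 2 := by nlinarith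
  have hup : (co P' 0 (4 * X) : ℝ) ≤ C1 * X / L := by
    have h1 : co P' 0 (4 * X) ≤ y + ((Icc 1 (4 * X)).filter (fun m => ∀ p ∈ pz y, ¬ Q p m)).card := by
      unfold co
      have : (Ioc 0 (4 * X)).filter P' ⊆ Icc 1 y ∪
          (Icc 1 (4 * X)).filter (fun m => ∀ p ∈ pz y, ¬ Q p m) := by
        intro m hm
        rw [mem_filter, mem_Ioc] at hm
        rw [mem_union, mem_Icc, mem_filter, mem_Icc]
        rcases Nat.lt_or_ge y m with h | h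
        · exact Or.inr ⟨⟨by omega, by omega⟩, hP'Q m hm.2 (by omega) h⟩
        · exact Or.inl ⟨by omega, h⟩
      refine (card_le_card this).trans ((card_union_le _ _).trans ?_)
      rw [Nat.card_Icc, Nat.add_sub_cancel]
    have h2 : (co P' 0 (4 * X) : ℝ) ≤ y +
        (((Icc 1 (4 * X)).filter (fun m => ∀ p ∈ pz y, ¬ Q p m)).card : ℝ) := by exact_mod_cast h1
    rw [hsqrt] at hcnt
    have h3 : 2 * ((4 * X : ℕ) : ℝ) * Vq Q y ≤ 8 * C3 * X / L := by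
      push_cast
      calc 2 * (4 * (X : ℝ)) * Vq Q y ≤ 2 * (4 * X) * (C3 / L) := by gcongr
        _ = 8 * C3 * X / L := by ring
    have h4 : 3 * (X : ℝ) ^ (1 / 2 : ℝ) ≤ 3 * X / L := by
      rw [le_div_iff₀ hL0]
      have : L ≤ (X : ℝ) ^ (1 / 2 : ℝ) := by nlinarith
      calc 3 * (X : ℝ) ^ (1 / 2 : ℝ) * L ≤ 3 * (X : ℝ) ^ (1 / 2 : ℝ) * (X : ℝ) ^ (1 / 2 : ℝ) := by gcongr
        _ = 3 * X := by rw [mul_assoc, hsqX]
    have h5 : C1 * X / L = 8 * C3 * X / L + 3 * X / L := by rw [hC1]; ring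
    rw [h5]
    linarith
  -- second moment
  set T : ℕ := ⌊L⌋₊ with hT
  have hTL : (T : ℝ) ≤ L := Nat.floor_le hL0.le
  have hTlow : L - 1 ≤ T := by
    have := Nat.lt_floor_add_one L
    rw [← hT] at this
    linarith
  have hTx0 : x0 ≤ T := by
    have : (x0 : ℝ) ≤ T := by linarith
    exact_mod_cast this
  have hLX' : 4 * L ≤ X := by nlinarith
  have hTX : 4 * T ≤ X := by
    have : 4 * (T : ℝ) ≤ X := by linarith
    exact_mod_cast this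
  have hT0 : (0 : ℝ) ≤ T := Nat.cast_nonneg T
  have hmom : ∑ n ∈ Finset.Ico X (2 * X + 1), ((co P' n (n + T) : ℝ)) ^ 2 ≤ C2 * X := by
    have h1 := second_moment (P := P') X (X + 1) T
    have e0 : X + (X + 1) = 2 * X + 1 := by ring
    rw [e0] at h1
    have h1r : ∑ n ∈ Finset.Ico X (2 * X + 1), ((co P' n (n + T) : ℝ)) ^ 2 ≤
        T * ((co P' X (X + (X + 1 + T)) : ℝ) + 2 * ∑ h ∈ Finset.Icc 1 T,
        (((Finset.Ioc X (X + (X + 1 + T))).filter (fun n => P' n ∧ P' (n + h))).card : ℝ)) := by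
      exact_mod_cast h1
    have hcoX : (co P' X (X + (X + 1 + T)) : ℝ) ≤ C1 * X / L := by
      refine le_trans ?_ hup
      have a1 : co P' X (X + (X + 1 + T)) ≤ co P' 0 (4 * X) :=
        (co_mono (by omega)).trans (co_anti (Nat.zero_le _))
      exact_mod_cast a1
    set F : ℕ → ℝ := fun h => (((Finset.Ioc X (X + (X + 1 + T))).filter
      (fun n => P' n ∧ P' (n + h))).card : ℝ) with hF
    have hs2 : ∑ h ∈ Icc 1 T, F h ≤ C * T * (4 * X : ℕ) * (Vq Q y) ^ 2 + T * √(((4 * X : ℕ) : ℝ)) := by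
      refine le_trans ?_ (hpairs T hTx0 (Icc 1 T) (Finset.Subset.refl _) ?_)
      · apply Finset.sum_le_sum
        intro h hhE
        have hhT : h ≤ T := (mem_Icc.1 hhE).2
        simp only [hF]
        have : (Finset.Ioc X (X + (X + 1 + T))).filter (fun n => P' n ∧ P' (n + h)) ⊆
            (Icc 1 (4 * X)).filter (fun m => ∀ p ∈ pz y, ¬ Qh Q h p m) := by
          intro n hn
          rw [mem_filter, mem_Ioc] at hn
          rw [mem_filter, mem_Icc]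
          refine ⟨⟨by omega, by omega⟩, ?_⟩
          intro p hp hq
          rcases hq with hq | hq
          · exact hP'Q n hn.2.1 (by omega) (by omega) p hp hq
          · exact hP'Q (n + h) hn.2.2 (by omega) (by omega) p hp hq
        exact_mod_cast card_le_card this
      · intro h hh
        rw [mem_Icc] at hh
        have hz : (pz y).filter (fun p : ℕ => T < p ∧ Co p h) = ∅ := by
          rw [Finset.filter_eq_empty_iff]
          rintro p _ ⟨h1, h2⟩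
          have := hCo p h hh.1 h2
          omega
        rw [hz, card_empty]
        omega
    rw [hsqrt] at hs2
    have hs3 : C * T * ((4 * X : ℕ) : ℝ) * (Vq Q y) ^ 2 ≤ 4 * C * C3 ^ 2 * X / L := by
      push_cast
      calc C * T * (4 * X) * (Vq Q y) ^ 2 ≤ C * L * (4 * X) * (C3 / L) ^ 2 := by gcongr
        _ = 4 * C * C3 ^ 2 * X / L := by field_simp
    have hs4 : (T : ℝ) * (2 * (X : ℝ) ^ (1 / 2 : ℝ)) ≤ 2 * X / L := by
      rw [le_div_iff₀ hL0]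
      have a1 : (T : ℝ) * L ≤ L ^ 2 := by rw [sq]; gcongr
      calc (T : ℝ) * (2 * (X : ℝ) ^ (1 / 2 : ℝ)) * L = (T * L) * (2 * (X : ℝ) ^ (1 / 2 : ℝ)) := by ring
        _ ≤ (X : ℝ) ^ (1 / 2 : ℝ) * (2 * (X : ℝ) ^ (1 / 2 : ℝ)) := by
            have : (T : ℝ) * L ≤ (X : ℝ) ^ (1 / 2 : ℝ) := by nlinarith [sq_nonneg L]
            gcongr
        _ = 2 * ((X : ℝ) ^ (1 / 2 : ℝ) * (X : ℝ) ^ (1 / 2 : ℝ)) := by ring
        _ = 2 * X := by rw [hsqX]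
    have hF2 : ∑ h ∈ Finset.Icc 1 T, F h ≤ (4 * C * C3 ^ 2 + 2) * X / L := by
      have : (4 * C * C3 ^ 2 + 2) * X / L = 4 * C * C3 ^ 2 * X / L +
        2 * X / L := by ring
      rw [this]
      linarith
    have hfin : ∀ a S : ℝ, 0 ≤ a → 0 ≤ S → a ≤ C1 * X / L →
        S ≤ (4 * C * C3 ^ 2 + 2) * X / L → (T : ℝ) * (a + 2 * S) ≤ C2 * X := by
      intro a S ha hS' ha2 hS2
      have h6 : a + 2 * S ≤ C2 * X / L := by
        have : C2 * X / L = C1 * X / L + 2 * ((4 * C * C3 ^ 2 + 2) * X / L) := by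
          rw [hC2]; ring
        rw [this]
        linarith
      have h7 : 0 ≤ a + 2 * S := by linarith
      calc (T : ℝ) * (a + 2 * S) ≤ L * (C2 * X / L) := mul_le_mul hTL h6 h7 hL0.le
        _ = C2 * X := mul_div_cancel₀ _ hL0.ne'
    exact h1r.trans (hfin _ _ (Nat.cast_nonneg _)
      (Finset.sum_nonneg fun h _ => Nat.cast_nonneg _) hcoX hF2)
  exact ⟨hL2, e2.trans hsqle, hup, hmom⟩

end Pool.Agent.W123.PP
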