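import Mathlib

set_option autoImplicit false

/-!
# Covering, separation and crowding of finite sets of natural numbers
-/

namespace Pool.Agent.W123.PP.Vit

open Finset

/-- covering lemma -/
theorem cover (η Λ : ℝ) (r : ℕ → ℕ) (hη : 0 ≤ η) (hΛ : 0 ≤ Λ) : ∀ (n : ℕ) (B W : Finset ℕ), B.card ≤ n →
    (∀ p ∈ B, η * r p ≤ ((W.filter (fun q => p ≤ q + r p ∧ q ≤ p + r p)).card : ℝ)) →
    (∀ p ∈ B, ((B.filter (fun q => p ≤ q + 2 * r p ∧ q ≤ p + 2 * r p)).card : ℝ) ≤ Λ * r p) →
    η * B.card ≤ Λ * W.card := by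
  intro n
  induction n with
  | zero =>
    intro B W hB _ _
    have h : B.card = 0 := by omega
    rw [h]
    push_cast
    rw [mul_zero]
    positivity
  | succ n ih =>
    intro B W hB h1 h2
    rcases B.eq_empty_or_nonempty with h0 | h0
    · rw [h0, card_empty]
      push_cast
      rw [mul_zero]
      positivity
    obtain ⟨p, hp, hmax⟩ := Finset.exists_max_image B r h0
    obtain ⟨B', hB'⟩ : ∃ B' : Finset ℕ, B' = B.filter (fun q => ¬ (p ≤ q + 2 * r p ∧ q ≤ p + 2 * r p)) := ⟨_, rfl⟩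
    obtain ⟨W', hW'⟩ : ∃ W' : Finset ℕ, W' = W.filter (fun q => ¬ (p ≤ q + r p ∧ q ≤ p + r p)) := ⟨_, rfl⟩
    have e1 : (B.filter (fun q => p ≤ q + 2 * r p ∧ q ≤ p + 2 * r p)).card + B'.card = B.card := by
      rw [hB']
      exact Finset.card_filter_add_card_filter_not _
    have e2 : (W.filter (fun q => p ≤ q + r p ∧ q ≤ p + r p)).card + W'.card = W.card := by
      rw [hW']
      exact Finset.card_filter_add_card_filter_not _
    have hpos : 1 ≤ (B.filter (fun q => p ≤ q + 2 * r p ∧ q ≤ p + 2 * r p)).card := by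
      rw [Nat.succ_le_iff, Finset.card_pos]
      exact ⟨p, mem_filter.2 ⟨hp, by omega, by omega⟩⟩
    have h3 := ih B' W' (by omega) (by
      intro q hq
      rw [hB', mem_filter] at hq
      obtain ⟨hq1, hq2⟩ := hq
      refine (h1 q hq1).trans ?_
      have hsub : W.filter (fun w => q ≤ w + r q ∧ w ≤ q + r q) ⊆
          W'.filter (fun w => q ≤ w + r q ∧ w ≤ q + r q) := by
        intro w hw
        rw [mem_filter] at hw
        rw [hW', mem_filter, mem_filter]
        refine ⟨⟨hw.1, ?_⟩, hw.2⟩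
        intro hw2
        apply hq2
        have := hmax q hq1
        omega
      exact_mod_cast card_le_card hsub) (by
      intro q hq
      rw [hB', mem_filter] at hq
      obtain ⟨hq1, hq2⟩ := hq
      refine le_trans ?_ (h2 q hq1)
      have hsub : B'.filter (fun w => q ≤ w + 2 * r q ∧ w ≤ q + 2 * r q) ⊆
          B.filter (fun w => q ≤ w + 2 * r q ∧ w ≤ q + 2 * r q) := by
        intro w hw
        rw [mem_filter] at hw ⊢
        rw [hB', mem_filter] at hw
        exact ⟨hw.1.1, hw.2⟩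
      exact_mod_cast card_le_card hsub)
    have h4 := h1 p hp
    have h5 := h2 p hp
    have e1' : (B.card : ℝ) = ((B.filter (fun q => p ≤ q + 2 * r p ∧ q ≤ p + 2 * r p)).card : ℝ) + B'.card := by
      exact_mod_cast e1.symm
    have e2' : (W.card : ℝ) = ((W.filter (fun q => p ≤ q + r p ∧ q ≤ p + r p)).card : ℝ) + W'.card := by
      exact_mod_cast e2.symm
    rw [e1', e2', mul_add, mul_add]
    have h6 : η * ((B.filter (fun q => p ≤ q + 2 * r p ∧ q ≤ p + 2 * r p)).card : ℝ) ≤
        Λ * ((W.filter (fun q => p ≤ q + r p ∧ q ≤ p + r p)).card : ℝ) := by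
      calc η * ((B.filter (fun q => p ≤ q + 2 * r p ∧ q ≤ p + 2 * r p)).card : ℝ)
          ≤ η * (Λ * r p) := mul_le_mul_of_nonneg_left h5 hη
        _ = Λ * (η * r p) := by ring
        _ ≤ _ := mul_le_mul_of_nonneg_left h4 hΛ
    linarith

lemma card_div (a b m : ℕ) (hm : 1 ≤ m) : (Icc (a / m) (b / m)).card ≤ (b - a) / m + 2 := by
  rw [Nat.card_Icc]
  have h3 := Nat.div_add_mod (b - a) m
  have h4 := Nat.div_add_mod a m
  have h5 := Nat.mod_lt (b - a) (by omega : 0 < m)
  have h6 := Nat.mod_lt a (by omega : 0 < m)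
  have h8 := Nat.div_mul_le_self b m
  generalize b / m = B at *
  generalize (b - a) / m = D at *
  generalize a / m = A at *
  generalize (b - a) % m = u at *
  generalize a % m = v at *
  have h2 : B < D + A + 2 := by
    by_contra hcon
    have h7 : (D + A + 2) * m ≤ B * m := Nat.mul_le_mul_right m (not_lt.1 hcon)
    have h9 : (D + A + 2) * m = m * D + m * A + 2 * m := by ring
    rw [h9] at h7
    omega
  omega

/-- separated points are few -/
theorem few_sep (S : Finset ℕ) (a b m : ℕ) (hm : 1 ≤ m) (hS : ∀ q ∈ S, a < q ∧ q ≤ b)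
    (hsep : ∀ q ∈ S, ∀ q' ∈ S, q < q' → q + m ≤ q') : S.card ≤ (b - a) / m + 2 := by
  refine le_trans ?_ (card_div a b m hm)
  apply Finset.card_le_card_of_injOn (fun q => q / m)
  · intro q hq
    have h := hS q hq
    rw [Finset.coe_Icc, Set.mem_Icc]
    exact ⟨Nat.div_le_div_right h.1.le, Nat.div_le_div_right h.2⟩
  · intro q hq q' hq' hqq
    simp only at hqq
    by_contra hne
    rcases lt_or_gt_of_ne hne with h | h
    · have h1 := hsep q hq q' hq' h
      have h2 : q / m + 1 ≤ q' / m := by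
        rw [← Nat.add_div_right q (by omega : 0 < m)]
        exact Nat.div_le_div_right h1
      omega
    · have h1 := hsep q' hq' q hq h
      have h2 : q' / m + 1 ≤ q / m := by
        rw [← Nat.add_div_right q' (by omega : 0 < m)]
        exact Nat.div_le_div_right h1
      omega

/-- uncrowded points are few -/
theorem few_uncrowded (S : Finset ℕ) (a b m : ℕ) (hm : 1 ≤ m) (hS : ∀ q ∈ S, a < q ∧ q ≤ b) :
    (S.filter (fun q => ¬ ∃ q' ∈ S, ∃ q'' ∈ S, q < q' ∧ q' < q'' ∧ q'' < q + m)).card ≤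
      2 * ((b - a) / m + 2) := by
  refine le_trans ?_ (Nat.mul_le_mul_left 2 (card_div a b m hm))
  apply Finset.card_le_mul_card_image_of_maps_to (f := fun q => q / m)
  · intro q hq
    rw [mem_filter] at hq
    have h := hS q hq.1
    rw [mem_Icc]
    exact ⟨Nat.div_le_div_right h.1.le, Nat.div_le_div_right h.2⟩
  · intro k _
    by_contra hcon
    rw [not_le] at hcon
    obtain ⟨x, hx, y, hy, z, hz, hxy, hxz, hyz⟩ := Finset.two_lt_card.1 hcon
    rw [mem_filter, mem_filter] at hx hy hz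
    obtain ⟨⟨hx1, hx2⟩, hx3⟩ := hx
    obtain ⟨⟨hy1, hy2⟩, hy3⟩ := hy
    obtain ⟨⟨hz1, hz2⟩, hz3⟩ := hz
    have bx : m * k ≤ x ∧ x < m * k + m := by
      have h1 := Nat.div_add_mod x m
      have h2 := Nat.mod_lt x (by omega : 0 < m)
      rw [hx3] at h1
      omega
    have bY : m * k ≤ y ∧ y < m * k + m := by
      have h1 := Nat.div_add_mod y m
      have h2 := Nat.mod_lt y (by omega : 0 < m)
      rw [hy3] at h1
      omega
    have bz : m * k ≤ z ∧ z < m * k + m := by
      have h1 := Nat.div_add_mod z m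
      have h2 := Nat.mod_lt z (by omega : 0 < m)
      rw [hz3] at h1
      omega
    rcases lt_or_gt_of_ne hxy with h1 | h1 <;> rcases lt_or_gt_of_ne hxz with h2 | h2 <;>
      rcases lt_or_gt_of_ne hyz with h3 | h3
    · exact hx2 ⟨y, hy1, z, hz1, h1, h3, by omega⟩
    · exact hx2 ⟨z, hz1, y, hy1, h2, h3, by omega⟩
    · omega
    · exact hz2 ⟨x, hx1, y, hy1, h2, h1, by omega⟩
    · exact hy2 ⟨x, hx1, z, hz1, h1, h2, by omega⟩
    · omega
    · exact hy2 ⟨z, hz1, x, hx1, h3, h2, by omega⟩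
    · exact hz2 ⟨y, hy1, x, hx1, h3, h1, by omega⟩

end Pool.Agent.W123.PP.Vit
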