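import Pool.Agent.W123.PP.Gap

set_option autoImplicit false

/-!
# Windows around almost all primes of every interval of length `x ^ θ`
-/

namespace Pool.Agent.W123.PP

open Finset Filter Pool.Agent.W123.RP Pool.Agent.W123.GS Pool.Agent.H357R2.SI

lemma cast_helper {a b : ℕ} (h : a ≤ b) : (a : ℝ) ≤ (b : ℝ) := by exact_mod_cast h

/-- the shifted primes -/
def PX (s : ℕ) (m : ℕ) : Prop := (m + s).Prime

open Classical in
lemma co_shift (s a b : ℕ) : co (PX s) a b = pc (a + s) (b + s) := by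
  unfold co pc
  apply Finset.card_bij (fun n _ => n + s)
  · intro n hn
    rw [mem_filter, mem_Ioc] at hn ⊢
    exact ⟨⟨by omega, by omega⟩, hn.2⟩
  · intro n _ m _ h
    omega
  · intro m hm
    rw [mem_filter, mem_Ioc] at hm
    refine ⟨m - s, ?_, by omega⟩
    rw [mem_filter, mem_Ioc]
    have e : m - s + s = m := by omega
    unfold PX
    rw [e]
    exact ⟨⟨by omega, by omega⟩, hm.2⟩

open Classical in
/-- the common analytic input, in shifted coordinates -/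
lemma input (θ : ℝ) (h0 : 0 < θ) (h1 : θ ≤ 1) : ∃ C1 C2 : ℝ, 0 < C1 ∧ 0 < C2 ∧ ∀ B0 : ℝ,
    ∀ᶠ X : ℕ in atTop, ∀ Y : ℕ, (X : ℝ) ^ θ ≤ Y → Y ≤ X → 3 ≤ X ∧
      2 ≤ Real.log X ∧ B0 * Real.log X ^ 2 ≤ Y ∧
      (co (PX (X - Y)) 0 (4 * Y) : ℝ) ≤ C1 * Y / Real.log X ∧
      ∑ n ∈ Finset.Ico Y (2 * Y + 1),
        ((co (PX (X - Y)) n (n + ⌊Real.log X⌋₊) : ℝ)) ^ 2 ≤ C2 * Y := by
  obtain ⟨C, hC, u0, hmom⟩ := Pool.Agent.W123.LR.second_moment_local θ h0
  obtain ⟨Y₀, hY₀2, hbt⟩ := Pool.Agent.H932R4.MO.bt3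
  refine ⟨12 / θ, C + 1, by positivity, by linarith, ?_⟩
  intro B0
  have hXr : Tendsto (fun X : ℕ => (X : ℝ)) atTop atTop := tendsto_natCast_atTop_atTop
  have hlogX : Tendsto (fun X : ℕ => Real.log (X : ℝ)) atTop atTop :=
    Real.tendsto_log_atTop.comp hXr
  have hpow : Tendsto (fun X : ℕ => (X : ℝ) ^ θ) atTop atTop :=
    (tendsto_rpow_atTop h0).comp hXr
  have hpl : ∀ᶠ X : ℕ in atTop, (|B0| + 1) * Real.log X ^ 2 ≤ (X : ℝ) ^ θ := by
    have h := ((isLittleO_log_rpow_rpow_atTop 2 h0).comp_tendsto hXr).bound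
      (by positivity : (0 : ℝ) < 1 / (|B0| + 1))
    filter_upwards [h, eventually_ge_atTop 1] with X hX hX1
    have hX1' : (1 : ℝ) ≤ X := by exact_mod_cast hX1
    have hl := Real.log_nonneg hX1'
    simp only [Function.comp_def] at hX
    rw [Real.norm_of_nonneg (by positivity), Real.norm_of_nonneg (by positivity)] at hX
    have e : Real.log (X : ℝ) ^ (2 : ℝ) = Real.log (X : ℝ) ^ 2 := by
      rw [← Real.rpow_natCast]; norm_num
    rw [e] at hX
    have hb : 0 < |B0| + 1 := by positivity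
    calc (|B0| + 1) * Real.log X ^ 2 ≤ (|B0| + 1) * (1 / (|B0| + 1) * (X : ℝ) ^ θ) := by gcongr
      _ = (X : ℝ) ^ θ := by field_simp
  filter_upwards [eventually_ge_atTop 3, hlogX.eventually_ge_atTop 2, hpl,
    hpow.eventually_ge_atTop ((Y₀ : ℝ) + u0 + 1)] with X hX3 hL2 hpl hbig
  intro Y hY hYX
  have hX3r : (3 : ℝ) ≤ X := by exact_mod_cast hX3
  have hXpos : (0 : ℝ) < X := by linarith
  have hL0 : 0 < Real.log X := by linarith
  have hYbig : (Y₀ : ℝ) + u0 + 1 ≤ Y := hbig.trans hY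
  have hYbign : Y₀ + u0 + 1 ≤ Y := by exact_mod_cast hYbig
  have hYpos : (0 : ℝ) < Y := by
    have : 0 < Y := by omega
    exact_mod_cast this
  have hsq : Real.log X ≤ Real.log X ^ 2 := by nlinarith
  have hb : B0 ≤ |B0| := le_abs_self B0
  have hb0 : 0 ≤ |B0| := abs_nonneg _
  have hB : B0 * Real.log X ^ 2 ≤ Y := by
    refine le_trans ?_ (hpl.trans hY)
    have : 0 ≤ Real.log X ^ 2 := sq_nonneg _
    nlinarith
  have hLsqY : Real.log X ^ 2 ≤ Y := by
    refine le_trans ?_ (hpl.trans hY)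
    have : 0 ≤ Real.log X ^ 2 := sq_nonneg _
    nlinarith
  obtain ⟨T, hT⟩ : ∃ T : ℕ, T = ⌊Real.log X⌋₊ := ⟨_, rfl⟩
  have hTL : (T : ℝ) ≤ Real.log X := by rw [hT]; exact Nat.floor_le hL0.le
  have hTY : T ≤ Y := by
    have : (T : ℝ) ≤ Y := by linarith
    exact_mod_cast this
  refine ⟨hX3, hL2, hB, ?_, ?_⟩
  · rw [co_shift]
    have h3 := hbt (0 + (X - Y)) (4 * Y) (by omega)
    have e : 0 + (X - Y) + 4 * Y = 4 * Y + (X - Y) := by ring
    unfold pc
    rw [e] at h3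
    refine h3.trans ?_
    have hlog : θ * Real.log X ≤ Real.log ((4 * Y : ℕ) : ℝ) := by
      rw [← Real.log_rpow hXpos]
      apply Real.log_le_log (by positivity)
      push_cast
      linarith
    have h4 : 3 * ((4 * Y : ℕ) : ℝ) / Real.log ((4 * Y : ℕ) : ℝ) ≤ 3 * ((4 * Y : ℕ) : ℝ) / (θ * Real.log X) := by
      gcongr
    refine h4.trans (le_of_eq ?_)
    push_cast
    field_simp
    norm_num
  · rw [← hT]
    have h3 := hmom X Y T hX3 hY (by omega) hTY hTL
    have e1 : ∑ n ∈ Finset.Ico Y (2 * Y + 1), ((co (PX (X - Y)) n (n + T) : ℝ)) ^ 2 =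
        ∑ n ∈ Finset.Ico X (X + 1 + Y), ((pc n (n + T) : ℝ)) ^ 2 := by
      apply Finset.sum_bij (fun n _ => n + (X - Y))
      · intro n hn
        rw [mem_Ico] at hn ⊢
        omega
      · intro n _ m _ h
        omega
      · intro m hm
        rw [mem_Ico] at hm
        exact ⟨m - (X - Y), by rw [mem_Ico]; omega, by omega⟩
      · intro n _
        rw [co_shift]
        have : n + T + (X - Y) = n + (X - Y) + T := by ring
        rw [this]
    have e2 : ∑ n ∈ Finset.Ico X (X + 1 + Y), ((pc n (n + T) : ℝ)) ^ 2 =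
        ((pc X (X + T) : ℝ)) ^ 2 + ∑ n ∈ Finset.Ico (X + 1) (X + 1 + Y), ((pc n (n + T) : ℝ)) ^ 2 :=
      Finset.sum_eq_sum_Ico_succ_bot (by omega) _
    rw [e1, e2]
    have h5 : ((pc X (X + T) : ℝ)) ^ 2 ≤ Y := by
      have h6 : pc X (X + T) ≤ T := by
        unfold pc
        refine (card_filter_le _ _).trans ?_
        rw [Nat.card_Ioc]; omega
      have h7 : (pc X (X + T) : ℝ) ≤ Real.log X := by
        have : (pc X (X + T) : ℝ) ≤ T := by exact_mod_cast h6
        linarith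
      calc ((pc X (X + T) : ℝ)) ^ 2 ≤ (Real.log X) ^ 2 := pow_le_pow_left₀ (Nat.cast_nonneg _) h7 2
        _ ≤ (Y : ℝ) := hLsqY
    linarith

/-- counting in shifted coordinates -/
lemma card_shift (X Y : ℕ) (hYX : Y ≤ X) (F G : ℕ → Prop) [DecidablePred F] [DecidablePred G]
    (h : ∀ n, Y < n → n ≤ 2 * Y → F (n + (X - Y)) → G n) :
    ((Ioc X (X + Y)).filter F).card ≤ ((Ioc Y (2 * Y)).filter G).card := by
  apply Finset.card_le_card_of_injOn (fun n => n - (X - Y))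
  · intro n hn
    rw [Finset.mem_coe, mem_filter, mem_Ioc] at hn
    rw [Finset.mem_coe, mem_filter, mem_Ioc]
    beta_reduce
    refine ⟨by omega, h _ (by omega) (by omega) ?_⟩
    have e : n - (X - Y) + (X - Y) = n := by omega
    rw [e]; exact hn.2
  · intro n hn m hm h'
    rw [Finset.mem_coe, mem_filter, mem_Ioc] at hn hm
    simp only at h'
    omega

lemma card_shift' (X Y : ℕ) (F G : ℕ → Prop) [DecidablePred F] [DecidablePred G] (hYX : Y ≤ X)
    (h : ∀ n, Y < n → n ≤ 2 * Y → G n → F (n + (X - Y))) :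
    ((Ioc Y (2 * Y)).filter G).card ≤ ((Ioc X (X + Y)).filter F).card := by
  apply Finset.card_le_card_of_injOn (fun n => n + (X - Y))
  · intro n hn
    rw [Finset.mem_coe, mem_filter, mem_Ioc] at hn
    rw [Finset.mem_coe, mem_filter, mem_Ioc]
    beta_reduce
    exact ⟨by omega, h n (by omega) (by omega) hn.2⟩
  · intro n _ m _ h'
    simp only at h'
    omega


open Classical in
lemma cl_shift (s a b : ℕ) : cl (PX s) a b = cl Nat.Prime (a + s) (b + s) := by
  unfold cl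
  apply Finset.card_bij (fun n _ => n + s)
  · intro n hn
    rw [mem_filter, mem_Ico] at hn ⊢
    exact ⟨⟨by omega, by omega⟩, hn.2⟩
  · intro n _ m _ h
    omega
  · intro m hm
    rw [mem_filter, mem_Ico] at hm
    refine ⟨m - s, ?_, by omega⟩
    rw [mem_filter, mem_Ico]
    have e : m - s + s = m := by omega
    unfold PX
    rw [e]
    exact ⟨⟨by omega, by omega⟩, hm.2⟩

lemma pc_co (a b : ℕ) : pc a b = co Nat.Prime a b := rfl

open Classical in
/-- windows around almost all primes of every short interval -/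
theorem prime_windows (θ : ℝ) (h0 : 0 < θ) (h1 : θ ≤ 1) (ε : ℝ) (hε : 0 < ε) :
    ∃ c Lam : ℝ, 0 < c ∧ 0 < Lam ∧ ∀ δ : ℝ, 0 < δ → ∃ K : ℕ, ∀ᶠ X : ℕ in atTop,
      ∀ Y : ℕ, (X : ℝ) ^ θ ≤ Y → Y ≤ X →
      (((Finset.Ioc X (X + Y)).filter (fun p => p.Prime ∧ ¬ (
        (∀ H : ℕ, 1 ≤ H → H ≤ Y →
          c / Real.log X * H ≤ cl Nat.Prime p (p + H) ∧
          c / Real.log X * H ≤ cl Nat.Prime (p + 1 - H) (p + 1)) ∧
        (∀ H : ℕ, ⌊Real.log X⌋₊ ≤ H → H ≤ Y →
          (co Nat.Prime p (p + H) : ℝ) ≤ Lam / Real.log X * H ∧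
          (co Nat.Prime (p - H) p : ℝ) ≤ Lam / Real.log X * H) ∧
        ((range (Nat.log 2 Y + 1)).filter (fun j => Real.log X ≤ (2 : ℝ) ^ j ∧
          ¬ Good Nat.Prime 0 Lam δ (Real.log X) p j)).card ≤ K))).card : ℝ) ≤
      ε * Y / Real.log X := by
  obtain ⟨C1, C2, hC1, hC2, hin⟩ := input θ h0 h1
  obtain ⟨c, Lam, hc, hLam, hall⟩ := points C1 C2 hC1 hC2 ε hε
  refine ⟨c, Lam, hc, hLam, ?_⟩
  intro δ hδ
  obtain ⟨K, B0, hB0, hall⟩ := hall δ hδ
  refine ⟨K, ?_⟩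
  filter_upwards [hin B0] with X hX
  intro Y hY hYX
  obtain ⟨hX3, hL2, hB, hup, hmom⟩ := hX Y hY hYX
  have h2 := hall (PX (X - Y)) (PX (X - Y)) Y (Real.log X) hL2 hB
    (fun n h => h) hup hmom
  obtain ⟨s, hs⟩ : ∃ s, s = X - Y := ⟨_, rfl⟩
  rw [← hs] at h2
  refine le_trans ?_ h2
  have h3 := card_shift X Y hYX (fun p => p.Prime ∧ ¬ (
        (∀ H : ℕ, 1 ≤ H → H ≤ Y →
          c / Real.log X * H ≤ cl Nat.Prime p (p + H) ∧
          c / Real.log X * H ≤ cl Nat.Prime (p + 1 - H) (p + 1)) ∧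
        (∀ H : ℕ, ⌊Real.log X⌋₊ ≤ H → H ≤ Y →
          (co Nat.Prime p (p + H) : ℝ) ≤ Lam / Real.log X * H ∧
          (co Nat.Prime (p - H) p : ℝ) ≤ Lam / Real.log X * H) ∧
        ((range (Nat.log 2 Y + 1)).filter (fun j => Real.log X ≤ (2 : ℝ) ^ j ∧
          ¬ Good Nat.Prime 0 Lam δ (Real.log X) p j)).card ≤ K))
    (fun p => PX s p ∧ ¬ (
        (∀ H : ℕ, 1 ≤ H → H ≤ Y →
          c / Real.log X * H ≤ cl (PX s) p (p + H) ∧
          c / Real.log X * H ≤ cl (PX s) (p + 1 - H) (p + 1)) ∧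
        (∀ H : ℕ, ⌊Real.log X⌋₊ ≤ H → H ≤ Y →
          (co (PX s) p (p + H) : ℝ) ≤ Lam / Real.log X * H ∧
          (co (PX s) (p - H) p : ℝ) ≤ Lam / Real.log X * H) ∧
        ((range (Nat.log 2 Y + 1)).filter (fun j => Real.log X ≤ (2 : ℝ) ^ j ∧
          ¬ Good (PX s) 0 Lam δ (Real.log X) p j)).card ≤ K)) ?_
  · exact cast_helper h3
  · intro n hn1 hn2 hn3
    rw [← hs] at hn3
    refine ⟨hn3.1, ?_⟩
    intro hgood
    apply hn3.2
    obtain ⟨g1, g2, g3⟩ := hgood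
    refine ⟨?_, ?_, ?_⟩
    · intro H hH1 hH2
      have h4 := g1 H hH1 hH2
      rw [cl_shift, cl_shift] at h4
      have e1 : n + H + s = n + s + H := by ring
      have e2 : n + 1 - H + s = n + s + 1 - H := by omega
      have e3 : n + 1 + s = n + s + 1 := by ring
      rw [e1, e2, e3] at h4
      exact h4
    · intro H hH1 hH2
      have h4 := g2 H hH1 hH2
      rw [co_shift, co_shift, pc_co, pc_co] at h4
      have e1 : n + H + s = n + s + H := by ring
      have e2 : n - H + s = n + s - H := by omega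
      rw [e1, e2] at h4
      exact h4
    · refine le_trans (card_le_card ?_) g3
      intro j hj
      rw [mem_filter, mem_range] at hj ⊢
      refine ⟨hj.1, hj.2.1, ?_⟩
      intro hg
      apply hj.2.2
      obtain ⟨lam, q1, q2, q3⟩ := hg
      refine ⟨lam, q1, q2, ?_⟩
      intro u v hu huv hv
      have hjY : 2 ^ j ≤ Y := by
        rcases Nat.eq_zero_or_pos Y with h | h
        · omega
        · have h4 : 2 ^ j ≤ 2 ^ (Nat.log 2 Y) := Nat.pow_le_pow_right (by norm_num) (by omega)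
          exact h4.trans (Nat.pow_log_le_self 2 (by omega))
      obtain ⟨u', hu'⟩ : ∃ u', u = u' + s := ⟨u - s, by omega⟩
      obtain ⟨v', hv'⟩ : ∃ v', v = v' + s := ⟨v - s, by omega⟩
      have h4 := q3 u' v' (by omega) (by omega) (by omega)
      rw [co_shift, ← hu', ← hv', pc_co] at h4
      have e1 : (v' : ℝ) - u' = (v : ℝ) - u := by rw [hu', hv']; push_cast; ring
      rw [e1] at h4
      exact h4

end Pool.Agent.W123.PP
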